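import Mathlib

/-!
# Ground states, flips and their energies
-/

set_option autoImplicit false

open MeasureTheory Filter Topology

namespace Pool.Agent.Helper38.EB

/-- the bond `(x, i)` joins `x` and `x + e_i` -/
abbrev Bond (d : ℕ) : Type := (Fin d → ℤ) × Fin d

/-- the second end of a bond -/
def other {d : ℕ} (e : Bond d) : Fin d → ℤ := e.1 + (Pi.single e.2 (1 : ℤ) : Fin d → ℤ)

/-- infinite-volume ground states -/
def IsGroundState {d : ℕ} (J : Bond d → ℝ) (σ : (Fin d → ℤ) → ℝ) : Prop :=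
  (∀ x, σ x = 1 ∨ σ x = -1) ∧
  ∀ ρ : (Fin d → ℤ) → ℝ, (∀ x, ρ x = 1 ∨ ρ x = -1) → {x | ρ x ≠ σ x}.Finite → ρ ≠ σ →
    0 < ∑ᶠ e : Bond d, J e * (σ e.1 * σ (other e) - ρ e.1 * ρ (other e))

/-- flip the spins in `S` -/
def flip {d : ℕ} (S : Finset (Fin d → ℤ)) (σ : (Fin d → ℤ) → ℝ) : (Fin d → ℤ) → ℝ :=
  fun x => if x ∈ S then -σ x else σ x

/-- the energy of the flip of `S` -/
noncomputable def cost {d : ℕ} (J : Bond d → ℝ) (σ : (Fin d → ℤ) → ℝ)
    (S : Finset (Fin d → ℤ)) : ℝ :=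
  ∑ᶠ e : Bond d, J e * (σ e.1 * σ (other e) - flip S σ e.1 * flip S σ (other e))

variable {d : ℕ}

/-- the bonds with an end in `S` -/
def touch (S : Finset (Fin d → ℤ)) : Finset (Bond d) :=
  S ×ˢ Finset.univ ∪ (S ×ˢ (Finset.univ : Finset (Fin d))).image
    fun p => (p.1 - (Pi.single p.2 (1 : ℤ) : Fin d → ℤ), p.2)

lemma mem_touch {S : Finset (Fin d → ℤ)} {e : Bond d} :
    e ∈ touch S ↔ e.1 ∈ S ∨ other e ∈ S := by
  unfold touch other
  rw [Finset.mem_union, Finset.mem_product, Finset.mem_image]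
  constructor
  · rintro (h | ⟨p, hp, rfl⟩)
    · exact Or.inl h.1
    · right
      rw [Finset.mem_product] at hp
      simpa using hp.1
  · rintro (h | h)
    · exact Or.inl ⟨h, Finset.mem_univ _⟩
    · right
      exact ⟨(e.1 + (Pi.single e.2 (1 : ℤ) : Fin d → ℤ), e.2),
        Finset.mem_product.2 ⟨h, Finset.mem_univ _⟩, by simp⟩

/-- the bonds with exactly one end in `S` -/
def bd (S : Finset (Fin d → ℤ)) : Finset (Bond d) :=
  (touch S).filter fun e => ¬ (e.1 ∈ S ↔ other e ∈ S)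

lemma mem_bd {S : Finset (Fin d → ℤ)} {e : Bond d} :
    e ∈ bd S ↔ ¬ (e.1 ∈ S ↔ other e ∈ S) := by
  unfold bd
  rw [Finset.mem_filter, mem_touch]
  tauto

/-- the product of the spins at the ends of a bond -/
def bp (σ : (Fin d → ℤ) → ℝ) (e : Bond d) : ℝ := σ e.1 * σ (other e)

lemma bp_flip (S : Finset (Fin d → ℤ)) (σ : (Fin d → ℤ) → ℝ) (e : Bond d) :
    bp (flip S σ) e = if e ∈ bd S then -bp σ e else bp σ e := by
  unfold bp flip
  by_cases h1 : e.1 ∈ S <;> by_cases h2 : other e ∈ S <;> simp [mem_bd, h1, h2]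

lemma cost_eq (J : Bond d → ℝ) (σ : (Fin d → ℤ) → ℝ) (S : Finset (Fin d → ℤ)) :
    cost J σ S = ∑ e ∈ bd S, 2 * (J e * bp σ e) := by
  unfold cost
  have h : ∀ e : Bond d, J e * (σ e.1 * σ (other e) - flip S σ e.1 * flip S σ (other e)) =
      if e ∈ bd S then 2 * (J e * bp σ e) else 0 := by
    intro e
    have := bp_flip S σ e
    unfold bp at this ⊢
    rw [this]
    split_ifs <;> ring
  simp only [h]
  rw [finsum_eq_sum_of_support_subset (s := bd S)]
  · exact Finset.sum_congr rfl fun e he => if_pos he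
  · intro e he
    by_contra hc
    exact he (if_neg hc)

lemma cost_update (J : Bond d → ℝ) (σ : (Fin d → ℤ) → ℝ) (S : Finset (Fin d → ℤ))
    {g : Bond d} (hg : g ∈ bd S) (x : ℝ) :
    cost (Function.update J g x) σ S = cost J σ S + 2 * ((x - J g) * bp σ g) := by
  rw [cost_eq, cost_eq, ← Finset.add_sum_erase _ _ hg, ← Finset.add_sum_erase _ _ hg]
  rw [Function.update_self]
  have : ∑ e ∈ (bd S).erase g, 2 * (Function.update J g x e * bp σ e) =
      ∑ e ∈ (bd S).erase g, 2 * (J e * bp σ e) :=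
    Finset.sum_congr rfl fun e he => by
      rw [Function.update_of_ne (Finset.ne_of_mem_erase he)]
  rw [this]
  ring

lemma cost_update' (J : Bond d → ℝ) (σ : (Fin d → ℤ) → ℝ) (S : Finset (Fin d → ℤ))
    {g : Bond d} (hg : g ∉ bd S) (x : ℝ) :
    cost (Function.update J g x) σ S = cost J σ S := by
  rw [cost_eq, cost_eq]
  refine Finset.sum_congr rfl fun e he => ?_
  rw [Function.update_of_ne]
  rintro rfl
  exact hg he

/-- the translation of couplings -/
def shJ (a : Fin d → ℤ) (J : Bond d → ℝ) : Bond d → ℝ := fun e => J (e.1 + a, e.2)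

/-- the translation of configurations -/
def shS (a : Fin d → ℤ) (σ : (Fin d → ℤ) → ℝ) : (Fin d → ℤ) → ℝ := fun x => σ (x + a)

/-- the translation of bonds -/
def tb (a : Fin d → ℤ) : Bond d ≃ Bond d where
  toFun e := (e.1 + a, e.2)
  invFun e := (e.1 - a, e.2)
  left_inv e := by simp
  right_inv e := by simp

lemma other_tb (a : Fin d → ℤ) (e : Bond d) : other (tb a e) = other e + a := by
  unfold other tb
  simp only [Equiv.coe_fn_mk]
  abel

/-- the translation of a finite set -/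
def tS (a : Fin d → ℤ) (S : Finset (Fin d → ℤ)) : Finset (Fin d → ℤ) :=
  S.map (Equiv.addRight a).toEmbedding

lemma mem_tS {a : Fin d → ℤ} {S : Finset (Fin d → ℤ)} {x : Fin d → ℤ} :
    x + a ∈ tS a S ↔ x ∈ S := by
  unfold tS
  simp

lemma mem_tS' {a : Fin d → ℤ} {S : Finset (Fin d → ℤ)} {x : Fin d → ℤ} :
    x ∈ tS a S ↔ x - a ∈ S := by
  have := mem_tS (a := a) (S := S) (x := x - a)
  rwa [sub_add_cancel] at this

lemma flip_shS (a : Fin d → ℤ) (S : Finset (Fin d → ℤ)) (σ : (Fin d → ℤ) → ℝ) :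
    flip S (shS a σ) = shS a (flip (tS a S) σ) := by
  funext x
  unfold flip shS
  simp only [mem_tS]

lemma cost_sh (a : Fin d → ℤ) (J : Bond d → ℝ) (σ : (Fin d → ℤ) → ℝ)
    (S : Finset (Fin d → ℤ)) : cost (shJ a J) (shS a σ) S = cost J σ (tS a S) := by
  unfold cost
  rw [← finsum_comp_equiv (tb a) (f := fun e => J e * (σ e.1 * σ (other e) -
    flip (tS a S) σ e.1 * flip (tS a S) σ (other e)))]
  refine finsum_congr fun e => ?_
  rw [flip_shS, other_tb]
  rfl

lemma cost_pos {J : Bond d → ℝ} {σ : (Fin d → ℤ) → ℝ} (h : IsGroundState J σ)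
    {S : Finset (Fin d → ℤ)} (hS : S.Nonempty) : 0 < cost J σ S := by
  refine h.2 (flip S σ) (fun x => ?_) ?_ ?_
  · unfold flip
    split_ifs
    · rcases h.1 x with h | h <;> simp [h]
    · exact h.1 x
  · refine S.finite_toSet.subset fun x hx => ?_
    by_contra hc
    exact hx (if_neg (by simpa using hc))
  · intro hc
    obtain ⟨x, hx⟩ := hS
    have h1 := congrFun hc x
    unfold flip at h1
    rw [if_pos hx] at h1
    rcases h.1 x with h2 | h2 <;> rw [h2] at h1 <;> norm_num at h1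

lemma cost_empty (J : Bond d → ℝ) (σ : (Fin d → ℤ) → ℝ) : cost J σ ∅ = 0 := by
  rw [cost_eq]
  have : bd (∅ : Finset (Fin d → ℤ)) = ∅ := by
    ext e; simp [mem_bd]
  rw [this, Finset.sum_empty]

lemma cost_nonneg {J : Bond d → ℝ} {σ : (Fin d → ℤ) → ℝ} (h : IsGroundState J σ)
    (S : Finset (Fin d → ℤ)) : 0 ≤ cost J σ S := by
  rcases S.eq_empty_or_nonempty with rfl | hS
  · rw [cost_empty]
  · exact (cost_pos h hS).le

lemma gs_iff {J : Bond d → ℝ} {σ : (Fin d → ℤ) → ℝ} :
    IsGroundState J σ ↔ (∀ x, σ x = 1 ∨ σ x = -1) ∧ ∀ S : Finset (Fin d → ℤ), S.Nonempty →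
      0 < cost J σ S := by
  refine ⟨fun h => ⟨h.1, fun S hS => cost_pos h hS⟩, fun h => ⟨h.1, fun ρ hρ hf hne => ?_⟩⟩
  have hf2 : ρ = flip hf.toFinset σ := by
    funext x
    unfold flip
    by_cases hx : ρ x = σ x
    · rw [if_neg (by simpa using hx)]; exact hx
    · rw [if_pos (by simpa using hx)]
      rcases h.1 x with h1 | h1 <;> rcases hρ x with h2 | h2 <;> rw [h1, h2] at hx ⊢ <;>
        first | exact absurd rfl hx | norm_num
  have h3 := h.2 hf.toFinset (by
    by_contra hc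
    rw [Finset.not_nonempty_iff_eq_empty] at hc
    rw [hc] at hf2
    apply hne
    rw [hf2]
    funext x
    simp [flip])
  unfold cost at h3
  rwa [← hf2] at h3

/-- two configurations with the same products on all bonds agree up to a global flip -/
lemma eq_or_neg {σ τ : (Fin d → ℤ) → ℝ} (hσ : ∀ x, σ x = 1 ∨ σ x = -1)
    (hτ : ∀ x, τ x = 1 ∨ τ x = -1) (h : ∀ e : Bond d, bp σ e = bp τ e) :
    τ = σ ∨ τ = -σ := by
  have h1 : ∀ (x : Fin d → ℤ) (i : Fin d),
      σ (x + (Pi.single i (1 : ℤ) : Fin d → ℤ)) * τ (x + (Pi.single i (1 : ℤ) : Fin d → ℤ)) =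
        σ x * τ x := by
    intro x i
    have h2 : σ x * σ (x + (Pi.single i (1 : ℤ) : Fin d → ℤ)) =
      τ x * τ (x + (Pi.single i (1 : ℤ) : Fin d → ℤ)) := h (x, i)
    have h3 : σ x * σ x = 1 := by rcases hσ x with a | a <;> rw [a] <;> norm_num
    have h4 : τ (x + (Pi.single i (1 : ℤ) : Fin d → ℤ)) *
        τ (x + (Pi.single i (1 : ℤ) : Fin d → ℤ)) = 1 := by
      rcases hτ (x + (Pi.single i (1 : ℤ) : Fin d → ℤ)) with a | a <;> rw [a] <;> norm_num
    generalize σ (x + (Pi.single i (1 : ℤ) : Fin d → ℤ)) = A at *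
    generalize τ (x + (Pi.single i (1 : ℤ) : Fin d → ℤ)) = B at *
    calc A * B = (σ x * σ x) * A * B := by rw [h3, one_mul]
      _ = (σ x * A) * (σ x * B) := by ring
      _ = (τ x * B) * (σ x * B) := by rw [h2]
      _ = (B * B) * (σ x * τ x) := by ring
      _ = σ x * τ x := by rw [h4, one_mul]
  let H : AddSubgroup (Fin d → ℤ) :=
    { carrier := {a | ∀ x, σ (x + a) * τ (x + a) = σ x * τ x}
      zero_mem' := fun x => by rw [add_zero]
      add_mem' := fun {a b} ha hb x => by rw [← add_assoc, hb, ha]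
      neg_mem' := fun {a} ha x => by
        have := ha (x + -a)
        rw [neg_add_cancel_right] at this
        exact this.symm }
  have h2 : ∀ a : Fin d → ℤ, a ∈ H := by
    intro a
    have h3 : a = ∑ i, a i • (Pi.single i (1 : ℤ) : Fin d → ℤ) := by
      funext j
      rw [Finset.sum_apply]
      simp [Pi.single_apply]
    rw [h3]
    have h4 : ∀ i, (Pi.single i (1 : ℤ) : Fin d → ℤ) ∈ H := fun i x => h1 x i
    exact AddSubgroup.sum_mem _ fun i _ => AddSubgroup.zsmul_mem _ (h4 i) _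
  have h3 : ∀ x, σ x * τ x = σ 0 * τ 0 := fun x => by
    have := h2 x 0
    rwa [zero_add] at this
  rcases hσ 0 with a | a <;> rcases hτ 0 with b | b
  · left
    funext x
    have := h3 x
    rw [a, b] at this
    rcases hσ x with c | c <;> rw [c] at this ⊢ <;> linarith
  · right
    funext x
    have := h3 x
    rw [a, b] at this
    rw [Pi.neg_apply]
    rcases hσ x with c | c <;> rw [c] at this ⊢ <;> linarith
  · right
    funext x
    have := h3 x
    rw [a, b] at this
    rw [Pi.neg_apply]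
    rcases hσ x with c | c <;> rw [c] at this ⊢ <;> linarith
  · left
    funext x
    have := h3 x
    rw [a, b] at this
    rcases hσ x with c | c <;> rw [c] at this ⊢ <;> linarith

/-- the flips which turn `σ` into `τ` on `W` pass through the bonds of the domain wall -/
lemma wall_mem {σ τ : (Fin d → ℤ) → ℝ} {S W : Finset (Fin d → ℤ)} {g : Bond d}
    (hne : bp σ g ≠ bp τ g) (h1 : g.1 ∈ W) (h2 : other g ∈ W)
    (h : ∀ x ∈ W, flip S σ x = τ x) : g ∈ bd S := by
  by_contra hc
  have h3 := bp_flip S σ g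
  rw [if_neg hc] at h3
  apply hne
  rw [← h3]
  unfold bp
  rw [h _ h1, h _ h2]

end Pool.Agent.Helper38.EB
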