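import Pool.Agent.Helper38.EB.A1

/-!
# Invariant events do not feel one coordinate
-/

set_option autoImplicit false

open MeasureTheory Filter Topology

namespace Pool.Agent.Helper38.EB

lemma local_limit {Ω : Type*} {m : MeasurableSpace Ω} (M : Measure Ω) [IsFiniteMeasure M]
    (ℱ : Filtration ℕ m) (hgen : m ≤ ⨆ n, (ℱ n : MeasurableSpace Ω))
    {ι : Type*} (u : ι → Ω → Ω) (s : ℕ → Ω → Ω) (hs : ∀ n, MeasurePreserving (s n) M M)
    (hu : ∀ n i, ∀ B, MeasurableSet[ℱ n] B → ∀ ω, (s n (u i ω) ∈ B ↔ s n ω ∈ B))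
    {A : Set Ω} (hA : MeasurableSet A) (hinv : ∀ n ω, s n ω ∈ A ↔ ω ∈ A) :
    ∃ H : ℕ → Ω → ℝ, (∀ k i ω, H k (u i ω) = H k ω) ∧
      ∀ᵐ ω ∂M, Tendsto (fun k => H k ω) atTop (𝓝 (A.indicator (fun _ => (1 : ℝ)) ω)) := by
  set f : Ω → ℝ := A.indicator (fun _ => (1 : ℝ)) with hf
  have hfm : StronglyMeasurable f := stronglyMeasurable_const.indicator hA
  have hfi : Integrable f M := (integrable_const (1 : ℝ)).indicator hA
  have h1 : Tendsto (fun n => eLpNorm (M[f | ℱ n] - f) 1 M) atTop (𝓝 0) :=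
    hfi.tendsto_eLpNorm_condExp (hfm.mono hgen)
  have hle : ∀ n, (ℱ n : MeasurableSpace Ω) ≤ m := fun n => ℱ.le n
  have h2 : ∀ n, (fun ω => (M[f | ℱ n]) (s n ω)) - f = (M[f | ℱ n] - f) ∘ s n := by
    intro n
    funext ω
    simp only [Pi.sub_apply, Function.comp_apply]
    congr 1
    rw [hf]
    by_cases hω : ω ∈ A
    · rw [Set.indicator_of_mem hω, Set.indicator_of_mem ((hinv n ω).2 hω)]
    · rw [Set.indicator_of_notMem hω,
        Set.indicator_of_notMem (fun hc => hω ((hinv n ω).1 hc))]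
  have hm : ∀ n, StronglyMeasurable (M[f | ℱ n]) := fun n =>
    stronglyMeasurable_condExp.mono (hle n)
  have h3 : Tendsto (fun n => eLpNorm ((fun ω => (M[f | ℱ n]) (s n ω)) - f) 1 M) atTop (𝓝 0) := by
    refine h1.congr fun n => ?_
    rw [h2 n, eLpNorm_comp_measurePreserving ((hm n).sub hfm).aestronglyMeasurable (hs n)]
  have h4 := tendstoInMeasure_of_tendsto_eLpNorm one_ne_zero
    (fun n => ((hm n).comp_measurable (hs n).measurable).aestronglyMeasurable)
    hfm.aestronglyMeasurable h3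
  obtain ⟨ns, -, hns⟩ := h4.exists_seq_tendsto_ae
  refine ⟨fun k ω => (M[f | ℱ (ns k)]) (s (ns k) ω), fun k i ω => ?_, hns⟩
  have h5 : MeasurableSet[ℱ (ns k)]
      ((M[f | ℱ (ns k)]) ⁻¹' {(M[f | ℱ (ns k)]) (s (ns k) ω)}) :=
    (stronglyMeasurable_condExp (μ := M) (f := f) (m := ℱ (ns k))).measurable
      (measurableSet_singleton _)
  exact (hu (ns k) i _ h5 ω).2 rfl

variable {d : ℕ}

/-- couplings and two configurations -/
abbrev Om (d : ℕ) : Type := (Bond d → ℝ) × (((Fin d → ℤ) → ℝ) × ((Fin d → ℤ) → ℝ))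

/-- the translations -/
def sh (a : Fin d → ℤ) (ω : Om d) : Om d := (shJ a ω.1, (shS a ω.2.1, shS a ω.2.2))

open Classical in
/-- the configuration in a box -/
noncomputable def trunc (n : ℕ) (ω : Om d) : Om d :=
  (fun e => if (∀ i, |e.1 i| ≤ (n : ℤ)) then ω.1 e else 0,
    (fun x => if (∀ i, |x i| ≤ (n : ℤ)) then ω.2.1 x else 0,
      fun x => if (∀ i, |x i| ≤ (n : ℤ)) then ω.2.2 x else 0))

lemma measurable_trunc (n : ℕ) : Measurable (trunc (d := d) n) := by
  unfold trunc
  refine Measurable.prodMk (measurable_pi_lambda _ fun e => ?_)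
    (Measurable.prodMk (measurable_pi_lambda _ fun e => ?_) (measurable_pi_lambda _ fun e => ?_))
  · by_cases h : ∀ i, |e.1 i| ≤ (n : ℤ)
    · simp only [h, implies_true, if_true]; fun_prop
    · simp only [h, if_false]; fun_prop
  · by_cases h : ∀ i, |e i| ≤ (n : ℤ)
    · simp only [h, implies_true, if_true]; fun_prop
    · simp only [h, if_false]; fun_prop
  · by_cases h : ∀ i, |e i| ≤ (n : ℤ)
    · simp only [h, implies_true, if_true]; fun_prop
    · simp only [h, if_false]; fun_prop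

lemma trunc_trunc {n m : ℕ} (h : n ≤ m) (ω : Om d) : trunc n (trunc m ω) = trunc n ω := by
  have hnm : ∀ x : Fin d → ℤ, (∀ i, |x i| ≤ (n : ℤ)) → ∀ i, |x i| ≤ (m : ℤ) := fun x hx i =>
    (hx i).trans (by exact_mod_cast h)
  unfold trunc
  refine Prod.ext ?_ (Prod.ext ?_ ?_)
  · funext e
    by_cases h1 : ∀ i, |e.1 i| ≤ (n : ℤ)
    · simp only [if_pos h1, if_pos (hnm _ h1)]
    · simp only [if_neg h1]
  · funext e
    by_cases h1 : ∀ i, |e i| ≤ (n : ℤ)
    · simp only [if_pos h1, if_pos (hnm _ h1)]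
    · simp only [if_neg h1]
  · funext e
    by_cases h1 : ∀ i, |e i| ≤ (n : ℤ)
    · simp only [if_pos h1, if_pos (hnm _ h1)]
    · simp only [if_neg h1]

/-- the filtration of the boxes -/
noncomputable def filt (d : ℕ) : Filtration ℕ (inferInstance : MeasurableSpace (Om d)) where
  seq n := MeasurableSpace.comap (trunc n) inferInstance
  mono' := by
    intro n m h
    have h1 : (trunc n : Om d → Om d) = trunc n ∘ trunc m := by
      funext ω
      exact (trunc_trunc h ω).symm
    change MeasurableSpace.comap (trunc n) _ ≤ MeasurableSpace.comap (trunc m) _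
    rw [h1, ← MeasurableSpace.comap_comp]
    exact MeasurableSpace.comap_mono (measurable_trunc n).comap_le
  le' n := (measurable_trunc n).comap_le

lemma exists_box (x : Fin d → ℤ) : ∃ n : ℕ, ∀ i, |x i| ≤ (n : ℤ) := by
  refine ⟨Finset.univ.sup fun i => (x i).natAbs, fun i => ?_⟩
  have := Finset.le_sup (f := fun i => (x i).natAbs) (Finset.mem_univ i)
  rw [Int.abs_eq_natAbs]
  exact_mod_cast this

lemma gen_le (m' : MeasurableSpace (Om d)) (h1 : ∀ e, Measurable[m'] fun ω : Om d => ω.1 e)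
    (h2 : ∀ x, Measurable[m'] fun ω : Om d => ω.2.1 x)
    (h3 : ∀ x, Measurable[m'] fun ω : Om d => ω.2.2 x) :
    (Prod.instMeasurableSpace : MeasurableSpace (Om d)) ≤ m' := by
  have a1 : Measurable[m'] fun ω : Om d => ω.1 := (@measurable_pi_iff _ _ _ m' _ _).2 h1
  have a2 : Measurable[m'] fun ω : Om d => ω.2.1 := (@measurable_pi_iff _ _ _ m' _ _).2 h2
  have a3 : Measurable[m'] fun ω : Om d => ω.2.2 := (@measurable_pi_iff _ _ _ m' _ _).2 h3
  have a4 : @Measurable _ _ m' Prod.instMeasurableSpace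
      fun ω : Om d => ((ω.1, (ω.2.1, ω.2.2)) : Om d) :=
    Measurable.prodMk a1 (Measurable.prodMk a2 a3)
  have a5 := a4.comap_le
  have a6 : (fun ω : Om d => ((ω.1, (ω.2.1, ω.2.2)) : Om d)) = id := rfl
  rw [a6, MeasurableSpace.comap_id] at a5
  exact a5

lemma filt_gen : (Prod.instMeasurableSpace : MeasurableSpace (Om d)) ≤
    ⨆ n, (filt d n : MeasurableSpace (Om d)) := by
  have hcomp : ∀ n, (filt d n : MeasurableSpace (Om d)) ≤
      ⨆ n, (filt d n : MeasurableSpace (Om d)) := fun n =>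
    le_iSup (fun n => (filt d n : MeasurableSpace (Om d))) n
  have ht : ∀ n, Measurable[⨆ n, (filt d n : MeasurableSpace (Om d))] (trunc (d := d) n) := by
    intro n
    exact (comap_measurable (trunc (d := d) n)).mono (hcomp n) le_rfl
  refine gen_le _ (fun e => ?_) (fun e => ?_) (fun e => ?_)
  · obtain ⟨n, hn⟩ := exists_box e.1
    have h2 : (fun ω : Om d => ω.1 e) = (fun ω : Om d => ω.1 e) ∘ trunc n := by
      funext ω
      simp only [Function.comp_apply, trunc, if_pos hn]
    rw [h2]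
    exact Measurable.comp (by fun_prop) (ht n)
  · obtain ⟨n, hn⟩ := exists_box e
    have h2 : (fun ω : Om d => ω.2.1 e) = (fun ω : Om d => ω.2.1 e) ∘ trunc n := by
      funext ω
      simp only [Function.comp_apply, trunc, if_pos hn]
    rw [h2]
    exact Measurable.comp (by fun_prop) (ht n)
  · obtain ⟨n, hn⟩ := exists_box e
    have h2 : (fun ω : Om d => ω.2.2 e) = (fun ω : Om d => ω.2.2 e) ∘ trunc n := by
      funext ω
      simp only [Function.comp_apply, trunc, if_pos hn]
    rw [h2]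
    exact Measurable.comp (by fun_prop) (ht n)

/-- the change of one coupling -/
def upd (g : Bond d) (x : ℝ) (ω : Om d) : Om d := (Function.update ω.1 g x, ω.2)

/-- a far translation -/
def far (g : Bond d) (n : ℕ) : Fin d → ℤ := fun i => (n : ℤ) + 1 + |g.1 i|

lemma trunc_far (g : Bond d) (n : ℕ) (x : ℝ) (ω : Om d) :
    trunc n (sh (far g n) (upd g x ω)) = trunc n (sh (far g n) ω) := by
  unfold trunc
  refine Prod.ext ?_ rfl
  funext e
  by_cases h : ∀ i, |e.1 i| ≤ (n : ℤ)
  · simp only [if_pos h]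
    unfold sh upd shJ
    simp only
    rw [Function.update_of_ne]
    intro hc
    have h1 : e.1 + far g n = g.1 := congrArg Prod.fst hc
    have h2 := congrFun h1 g.2
    unfold far at h2
    rw [Pi.add_apply] at h2
    have h3 := (abs_le.1 (h g.2)).1
    have h4 := le_abs_self (g.1 g.2)
    linarith
  · simp only [if_neg h]

lemma invariant_limit (M : Measure (Om d)) [IsFiniteMeasure M]
    (hM : ∀ a, MeasurePreserving (sh a) M M) (g : Bond d) {A : Set (Om d)} (hA : MeasurableSet A)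
    (hinv : ∀ a ω, sh a ω ∈ A ↔ ω ∈ A) :
    ∃ H : ℕ → Om d → ℝ, (∀ k x ω, H k (upd g x ω) = H k ω) ∧
      ∀ᵐ ω ∂M, Tendsto (fun k => H k ω) atTop (𝓝 (A.indicator (fun _ => (1 : ℝ)) ω)) := by
  refine local_limit M (filt d) filt_gen (upd g) (fun n => sh (far g n)) (fun n => hM _) ?_ hA
    (fun n ω => hinv _ _)
  rintro n x B ⟨B', -, rfl⟩ ω
  rw [Set.mem_preimage, Set.mem_preimage, trunc_far]

end Pool.Agent.Helper38.EB
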