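import Pool.Agent.Helper38.EB.A2

/-!
# The barrier is infinite for invariant laws
-/

set_option autoImplicit false

open MeasureTheory Filter Topology

namespace Pool.Agent.Helper38.EB

variable {d : ℕ}

/-- on every window `σ` can be turned into `τ` by a finite flip of energy at most `t` -/
def Cheap (t : ℝ) (ω : Om d) : Prop :=
  ∀ W : Finset (Fin d → ℤ), ∃ S : Finset (Fin d → ℤ),
    (∀ x ∈ W, flip S ω.2.1 x = ω.2.2 x) ∧ cost ω.1 ω.2.1 S ≤ t

lemma cheap_mono {s t : ℝ} (h : s ≤ t) {ω : Om d} (hω : Cheap s ω) : Cheap t ω := fun W => by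
  obtain ⟨S, h1, h2⟩ := hω W
  exact ⟨S, h1, h2.trans h⟩

lemma measurable_flip (S : Finset (Fin d → ℤ)) (x : Fin d → ℤ) :
    Measurable fun σ : (Fin d → ℤ) → ℝ => flip S σ x := by
  unfold flip
  by_cases h : x ∈ S
  · simp only [if_pos h]; fun_prop
  · simp only [if_neg h]; fun_prop

lemma measurable_cost (S : Finset (Fin d → ℤ)) :
    Measurable fun p : (Bond d → ℝ) × ((Fin d → ℤ) → ℝ) => cost p.1 p.2 S := by
  simp only [cost_eq]
  unfold bp
  fun_prop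

lemma measurableSet_cheap (t : ℝ) : MeasurableSet {ω : Om d | Cheap t ω} := by
  have h : {ω : Om d | Cheap t ω} = ⋂ W : Finset (Fin d → ℤ), ⋃ S : Finset (Fin d → ℤ),
      ((⋂ x ∈ W, {ω : Om d | flip S ω.2.1 x = ω.2.2 x}) ∩ {ω : Om d | cost ω.1 ω.2.1 S ≤ t}) := by
    ext ω
    simp only [Cheap, Set.mem_ofPred_eq, Set.mem_iInter, Set.mem_iUnion, Set.mem_inter_iff]
  rw [h]
  refine MeasurableSet.iInter fun W => MeasurableSet.iUnion fun S => MeasurableSet.inter ?_ ?_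
  · refine MeasurableSet.biInter W.countable_toSet fun x _ => ?_
    exact measurableSet_eq_fun ((measurable_flip S x).comp (measurable_fst.comp measurable_snd))
      (by fun_prop)
  · exact measurableSet_le ((measurable_cost S).comp
      (f := fun ω : Om d => (ω.1, ω.2.1)) (by fun_prop)) measurable_const

lemma cheap_sh_aux (t : ℝ) (a : Fin d → ℤ) (ω : Om d) (h : Cheap t ω) : Cheap t (sh a ω) := by
  intro W
  obtain ⟨S, h1, h2⟩ := h (tS a W)
  have h3 : tS a (tS (-a) S) = S := by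
    ext x
    rw [mem_tS', mem_tS']
    simp
  refine ⟨tS (-a) S, fun x hx => ?_, ?_⟩
  · have h4 := h1 (x + a) (mem_tS.2 hx)
    change flip (tS (-a) S) (shS a ω.2.1) x = shS a ω.2.2 x
    rw [flip_shS, h3]
    exact h4
  · change cost (shJ a ω.1) (shS a ω.2.1) (tS (-a) S) ≤ t
    rw [cost_sh, h3]
    exact h2

lemma sh_sh (a : Fin d → ℤ) (ω : Om d) : sh (-a) (sh a ω) = ω := by
  unfold sh shJ shS
  refine Prod.ext ?_ (Prod.ext ?_ ?_)
  · funext e; simp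
  · funext e; simp
  · funext e; simp

lemma cheap_sh (t : ℝ) (a : Fin d → ℤ) (ω : Om d) : Cheap t (sh a ω) ↔ Cheap t ω := by
  refine ⟨fun h => ?_, cheap_sh_aux t a ω⟩
  have := cheap_sh_aux t (-a) _ h
  rwa [sh_sh] at this

lemma cheap_upd {t : ℝ} {ω : Om d} {g : Bond d} (hg : bp ω.2.1 g ≠ bp ω.2.2 g) {x : ℝ}
    (h : Cheap t ω) : Cheap (t + 2 * ((x - ω.1 g) * bp ω.2.1 g)) (upd g x ω) := by
  classical
  intro W
  obtain ⟨S, h1, h2⟩ := h (W ∪ {g.1, other g})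
  refine ⟨S, fun x hx => h1 x (Finset.mem_union_left _ hx), ?_⟩
  have h3 : g ∈ bd S := wall_mem hg
    (Finset.mem_union_right W (Finset.mem_insert_self _ _))
    (Finset.mem_union_right W (Finset.mem_insert_of_mem (Finset.mem_singleton_self _))) h1
  change cost (Function.update ω.1 g x) ω.2.1 S ≤ _
  rw [cost_update _ _ _ h3]
  linarith

lemma upd_upd (g : Bond d) (x : ℝ) (ω : Om d) : upd g (ω.1 g) (upd g x ω) = ω := by
  unfold upd
  refine Prod.ext ?_ rfl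
  simp

lemma cheap_upd' {t : ℝ} {ω : Om d} {g : Bond d} (hg : bp ω.2.1 g ≠ bp ω.2.2 g) {x : ℝ}
    (h : Cheap t (upd g x ω)) : Cheap (t - 2 * ((x - ω.1 g) * bp ω.2.1 g)) ω := by
  have h1 := cheap_upd (ω := upd g x ω) (g := g) hg (x := ω.1 g) h
  rw [upd_upd] at h1
  have h2 : (upd g x ω).1 g = x := Function.update_self _ _ _
  rw [h2] at h1
  refine cheap_mono (le_of_eq ?_) h1
  change t + 2 * ((ω.1 g - x) * bp ω.2.1 g) = _
  ring

/-- the barrier from `σ` to `τ` is infinite -/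
def InfiniteBarrier (J : Bond d → ℝ) (σ τ : (Fin d → ℤ) → ℝ) : Prop :=
  ∀ K : ℝ, ∃ W : Finset (Fin d → ℤ), ∀ S : Finset (Fin d → ℤ),
    (∀ x ∈ W, flip S σ x = τ x) → K ≤ cost J σ S

/-- **Infinite barriers for invariant laws.** -/
theorem law_barrier (μ : Measure ℝ) (hatom : ∀ x, μ {x} = 0) (M : Measure (Om d))
    [IsFiniteMeasure M] (hM : ∀ a, MeasurePreserving (sh a) M M)
    (hsupp : ∀ g : Bond d, ∀ᵐ ω ∂M, ∀ r : ℝ, 0 < r → μ {x | |x - ω.1 g| < r} ≠ 0)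
    (hgs : ∀ᵐ ω ∂M, IsGroundState ω.1 ω.2.1 ∧ ∀ x, ω.2.2 x = 1 ∨ ω.2.2 x = -1)
    (hflex : ∀ (g : Bond d) (N : Set (Om d)), M N = 0 → ∀ᵐ ω ∂M, ∃ r : ℝ, 0 < r ∧
      ∀ᵐ x ∂μ, |x - ω.1 g| < r → upd g x ω ∉ N) :
    ∀ᵐ ω ∂M, ω.2.2 = ω.2.1 ∨ ω.2.2 = -ω.2.1 ∨ InfiniteBarrier ω.1 ω.2.1 ω.2.2 := by
  have hH : ∀ (g : Bond d) (t : ℚ), ∃ H : ℕ → Om d → ℝ, (∀ k x ω, H k (upd g x ω) = H k ω) ∧
      ∀ᵐ ω ∂M, Tendsto (fun k => H k ω) atTop
        (𝓝 ({ω : Om d | Cheap (t : ℝ) ω}.indicator (fun _ => (1 : ℝ)) ω)) := fun g t =>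
    invariant_limit M hM g (measurableSet_cheap _) fun a ω => cheap_sh _ a ω
  choose H hH1 hH2 using hH
  have hN : ∀ g : Bond d, ∀ᵐ ω ∂M, ∀ t : ℚ, Tendsto (fun k => H g t k ω) atTop
        (𝓝 ({ω : Om d | Cheap (t : ℝ) ω}.indicator (fun _ => (1 : ℝ)) ω)) := fun g =>
    ae_all_iff.2 fun t => hH2 g t
  have hF : ∀ᵐ ω ∂M, ∀ g : Bond d, ∃ r : ℝ, 0 < r ∧ ∀ᵐ x ∂μ, |x - ω.1 g| < r →
      ∀ t : ℚ, Tendsto (fun k => H g t k (upd g x ω)) atTop
        (𝓝 ({ω : Om d | Cheap (t : ℝ) ω}.indicator (fun _ => (1 : ℝ)) (upd g x ω))) := by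
    refine ae_all_iff.2 fun g => ?_
    filter_upwards [hflex g _ (ae_iff.1 (hN g))] with ω hω
    obtain ⟨r, hr, h⟩ := hω
    refine ⟨r, hr, ?_⟩
    filter_upwards [h] with x hx hxr
    exact not_not.1 (hx hxr)
  filter_upwards [hF, ae_all_iff.2 hN, hgs, ae_all_iff.2 hsupp] with ω h1 h2 h3 h4
  by_cases h5 : ω.2.2 = ω.2.1 ∨ ω.2.2 = -ω.2.1
  · rcases h5 with h5 | h5
    · exact Or.inl h5
    · exact Or.inr (Or.inl h5)
  right; right
  obtain ⟨g, hg⟩ : ∃ g, bp ω.2.1 g ≠ bp ω.2.2 g := by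
    by_contra hc
    push Not at hc
    exact h5 (eq_or_neg h3.1.1 h3.2 hc)
  by_contra hc
  unfold InfiniteBarrier at hc
  push Not at hc
  obtain ⟨K, hK⟩ := hc
  have hCK : Cheap K ω := fun W => by
    obtain ⟨S, hS1, hS2⟩ := hK W
    exact ⟨S, hS1, hS2.le⟩
  -- a change of the coupling of `g`
  obtain ⟨r, hr, hx⟩ := h1 g
  have hpos : μ {x | |x - ω.1 g| < r ∧ x ≠ ω.1 g} ≠ 0 := by
    intro h0
    apply h4 g r hr
    have hsub : {x | |x - ω.1 g| < r} ⊆ {x | |x - ω.1 g| < r ∧ x ≠ ω.1 g} ∪ {ω.1 g} := by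
      intro x hx
      by_cases hxe : x = ω.1 g
      · exact Or.inr hxe
      · exact Or.inl ⟨hx, hxe⟩
    exact measure_mono_null hsub (measure_union_null h0 (hatom _))
  obtain ⟨x, hxm, hxg⟩ : ∃ x, (|x - ω.1 g| < r ∧ x ≠ ω.1 g) ∧ (|x - ω.1 g| < r →
      ∀ t : ℚ, Tendsto (fun k => H g t k (upd g x ω)) atTop
        (𝓝 ({ω : Om d | Cheap (t : ℝ) ω}.indicator (fun _ => (1 : ℝ)) (upd g x ω)))) := by
    by_contra hcon
    push Not at hcon
    apply hpos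
    refine measure_mono_null ?_ (ae_iff.1 hx)
    intro x hx' hx2
    obtain ⟨t, ht⟩ := (hcon x hx').2
    exact ht (hx2 hx'.1 t)
  have hxg2 := hxg hxm.1
  have key : ∀ t : ℚ, (Cheap (t : ℝ) (upd g x ω) ↔ Cheap (t : ℝ) ω) := by
    intro t
    have e1 := hxg2 t
    have e2 := h2 g t
    simp only [hH1] at e1
    have e3 := tendsto_nhds_unique e1 e2
    by_cases c1 : Cheap (t : ℝ) (upd g x ω) <;> by_cases c2 : Cheap (t : ℝ) ω
    · exact ⟨fun _ => c2, fun _ => c1⟩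
    · rw [Set.indicator_of_mem (by exact c1), Set.indicator_of_notMem (by exact c2)] at e3
      exact absurd e3 one_ne_zero
    · rw [Set.indicator_of_notMem (by exact c1), Set.indicator_of_mem (by exact c2)] at e3
      exact absurd e3 zero_ne_one
    · exact ⟨fun h => absurd h c1, fun h => absurd h c2⟩
  set δ : ℝ := 2 * ((x - ω.1 g) * bp ω.2.1 g) with hδ
  have hbp : bp ω.2.1 g = 1 ∨ bp ω.2.1 g = -1 := by
    unfold bp
    rcases h3.1.1 g.1 with a | a <;> rcases h3.1.1 (other g) with b | b <;> rw [a, b] <;> norm_num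
  have hδ0 : δ ≠ 0 := by
    rw [hδ]
    have : x - ω.1 g ≠ 0 := sub_ne_zero.2 hxm.2
    rcases hbp with h | h <;> rw [h] <;> intro h0 <;> exact this (by linarith)
  -- the value decreases
  have hdec : ∀ t t' : ℚ, Cheap (t : ℝ) ω → (t : ℝ) - |δ| ≤ t' → Cheap (t' : ℝ) ω := by
    intro t t' ht ht'
    rcases lt_or_gt_of_ne hδ0 with hneg | hpos'
    · rw [abs_of_neg hneg] at ht'
      rw [← key]
      exact cheap_mono (by linarith) (cheap_upd hg ht)
    · rw [abs_of_pos hpos'] at ht'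
      exact cheap_mono (by linarith) (cheap_upd' hg ((key t).2 ht))
  obtain ⟨q, hq0, hq⟩ := exists_rat_btwn (abs_pos.2 hδ0)
  obtain ⟨t0, ht0⟩ := exists_rat_gt K
  have hC0 : Cheap (t0 : ℝ) ω := cheap_mono ht0.le hCK
  have hall : ∀ n : ℕ, Cheap ((t0 - n * q : ℚ) : ℝ) ω := by
    intro n
    induction n with
    | zero => simpa using hC0
    | succ n ih =>
      refine hdec _ _ ih ?_
      push_cast
      linarith
  obtain ⟨n, hn⟩ := exists_nat_gt ((t0 : ℝ) / q)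
  have hn' : (t0 : ℝ) < n * q := by
    rwa [div_lt_iff₀ hq0] at hn
  obtain ⟨S, -, hS⟩ := hall n ∅
  have h6 := cost_nonneg h3.1 S
  push_cast at hS
  linarith

end Pool.Agent.Helper38.EB
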