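import Mathlib

/-!
# The counting kernel of a closed relation with finite sections
-/

set_option autoImplicit false
set_option linter.unusedSectionVars false

open MeasureTheory Filter Topology ProbabilityTheory

namespace Pool.Agent.Helper38.EB

section cylinders

variable {ι : Type*}

/-- the cylinder of the configurations which are true on `T` and false on `W \ T` -/
def cyl (c : Finset ι × Finset ι) : Set (ι → Bool) := {y | ∀ i ∈ c.1, (y i = true ↔ i ∈ c.2)}

lemma isClopen_cyl (c : Finset ι × Finset ι) : IsClopen (cyl c) := by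
  have h : cyl c = ⋂ i ∈ c.1, {y : ι → Bool | (y i = true ↔ i ∈ c.2)} := by
    ext y
    simp only [cyl, Set.mem_iInter]
    rfl
  rw [h]
  refine Set.Finite.isClopen_biInter c.1.finite_toSet fun i _ => ?_
  have h2 : {y : ι → Bool | (y i = true ↔ i ∈ c.2)} =
      (fun y : ι → Bool => y i) ⁻¹' {b | (b = true ↔ i ∈ c.2)} := rfl
  rw [h2]
  exact (isClopen_discrete _).preimage (continuous_apply i)

lemma measurableSet_cyl [Countable ι] (c : Finset ι × Finset ι) : MeasurableSet (cyl c) :=
  (isClopen_cyl c).isOpen.measurableSet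

lemma le_encard_iff (F : Set (ι → Bool)) (m : ℕ) :
    (m : ℕ∞) ≤ F.encard ↔ ∃ c : Fin m → Finset ι × Finset ι,
      (∀ i j, i ≠ j → Disjoint (cyl (c i)) (cyl (c j))) ∧ ∀ i, ∃ y ∈ cyl (c i), y ∈ F := by
  classical
  constructor
  · intro h
    obtain ⟨t, ht, htc⟩ := Set.exists_subset_encard_eq h
    have hfin : t.Finite := Set.finite_of_encard_eq_coe htc
    have hcard : hfin.toFinset.card = m := by
      rw [hfin.encard_eq_coe_toFinset_card] at htc
      exact_mod_cast htc
    obtain ⟨e⟩ : Nonempty (Fin m ≃ hfin.toFinset) := by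
      refine ⟨(Fintype.equivFinOfCardEq ?_).symm⟩
      simpa using hcard
    have hsep : ∀ i j : Fin m, i ≠ j →
        ∃ w, (e i : ι → Bool) w ≠ (e j : ι → Bool) w := by
      intro i j hij
      by_contra hc
      push Not at hc
      exact hij (e.injective (Subtype.ext (funext hc)))
    choose w hw using hsep
    set W : Finset ι := Finset.univ.image fun p : {p : Fin m × Fin m // p.1 ≠ p.2} =>
      w p.1.1 p.1.2 p.2 with hW
    refine ⟨fun i => (W, W.filter fun x => (e i : ι → Bool) x = true), fun i j hij => ?_,
      fun i => ⟨(e i : ι → Bool), ?_, ?_⟩⟩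
    · rw [Set.disjoint_left]
      intro y hy hy'
      have hmem : w i j hij ∈ W := by
        rw [hW, Finset.mem_image]
        exact ⟨⟨(i, j), hij⟩, Finset.mem_univ _, rfl⟩
      have h1 := hy _ hmem
      have h2 := hy' _ hmem
      simp only [Finset.mem_filter, hmem, true_and] at h1 h2
      apply hw i j hij
      rw [Bool.eq_iff_iff]
      exact h1.symm.trans h2
    · intro x hx
      simp only at hx ⊢
      rw [Finset.mem_filter]
      exact ⟨fun h => ⟨hx, h⟩, fun h => h.2⟩
    · apply ht
      have := (e i).2
      rwa [Set.Finite.mem_toFinset] at this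
  · rintro ⟨c, hc, hy⟩
    choose y hy1 hy2 using hy
    have hinj : Function.Injective y := by
      intro i j hij
      by_contra hne
      exact Set.disjoint_left.1 (hc i j hne) (hy1 i) (hij ▸ hy1 j)
    have h1 : Set.range y ⊆ F := by
      rintro _ ⟨i, rfl⟩
      exact hy2 i
    refine le_trans ?_ (Set.encard_le_encard h1)
    rw [← Set.image_univ, hinj.encard_image, Set.encard_univ]
    simp

lemma generateFrom_cyl [Countable ι] :
    (MeasurableSpace.pi : MeasurableSpace (ι → Bool)) =
      MeasurableSpace.generateFrom (Set.range (cyl (ι := ι))) := by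
  refine le_antisymm ?_ ?_
  · have h1 : Measurable[MeasurableSpace.generateFrom (Set.range (cyl (ι := ι)))]
        (fun y : ι → Bool => y) := by
      refine (@measurable_pi_iff _ _ _ (MeasurableSpace.generateFrom (Set.range (cyl (ι := ι))))
        _ _).2 fun i => ?_
      refine @measurable_to_bool _ (MeasurableSpace.generateFrom (Set.range (cyl (ι := ι)))) _ ?_
      refine MeasurableSpace.measurableSet_generateFrom ⟨({i}, {i}), ?_⟩
      ext y
      simp [cyl]
    have h2 := h1.comap_le
    have h3 : (fun y : ι → Bool => y) = id := rfl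
    rw [h3, MeasurableSpace.comap_id] at h2
    exact h2
  · refine MeasurableSpace.generateFrom_le ?_
    rintro _ ⟨c, rfl⟩
    exact measurableSet_cyl c

lemma isPiSystem_cyl : IsPiSystem (Set.range (cyl (ι := ι))) := by
  classical
  rintro _ ⟨c, rfl⟩ _ ⟨c', rfl⟩ ⟨y, hy, hy'⟩
  refine ⟨(c.1 ∪ c'.1, (c.1 ∪ c'.1).filter fun i => y i = true), ?_⟩
  ext z
  constructor
  · intro hz
    refine ⟨fun i hi => ?_, fun i hi => ?_⟩
    · have h1 := hz i (Finset.mem_union_left _ hi)
      simp only [Finset.mem_filter, Finset.mem_union, hi, true_or, true_and] at h1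
      rw [h1]
      exact hy i hi
    · have h1 := hz i (Finset.mem_union_right _ hi)
      simp only [Finset.mem_filter, Finset.mem_union, hi, or_true, true_and] at h1
      rw [h1]
      exact hy' i hi
  · rintro ⟨hz, hz'⟩ i hi
    simp only at hi ⊢
    rw [Finset.mem_filter]
    simp only [hi, true_and]
    rcases Finset.mem_union.1 hi with h | h
    · rw [hz i h, hy i h]
    · rw [hz' i h, hy' i h]

end cylinders

section kernel

variable {X : Type*} [TopologicalSpace X] [MeasurableSpace X] [OpensMeasurableSpace X]
  {ι : Type*} [Countable ι]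

/-- the section of a relation -/
def sec (R : Set (X × (ι → Bool))) (x : X) : Set (ι → Bool) := {y | (x, y) ∈ R}

lemma isClosed_proj {R : Set (X × (ι → Bool))} (hR : IsClosed R) (c : Finset ι × Finset ι) :
    IsClosed {x | ∃ y ∈ cyl c, y ∈ sec R x} := by
  have h : {x | ∃ y ∈ cyl c, y ∈ sec R x} =
      Prod.fst '' (R ∩ (Prod.snd ⁻¹' (cyl c) : Set (X × (ι → Bool)))) := by
    ext x
    constructor
    · rintro ⟨y, hy, hy'⟩
      exact ⟨(x, y), ⟨hy', hy⟩, rfl⟩
    · rintro ⟨⟨x', y⟩, ⟨h1, h2⟩, rfl⟩
      exact ⟨y, h2, h1⟩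
  rw [h]
  exact isClosedMap_fst_of_compactSpace _
    (hR.inter ((isClopen_cyl c).isClosed.preimage continuous_snd))

lemma measurable_encard {R : Set (X × (ι → Bool))} (hR : IsClosed R) :
    Measurable fun x => (sec R x).encard := by
  have h1 : ∀ m : ℕ, MeasurableSet {x | (m : ℕ∞) ≤ (sec R x).encard} := by
    intro m
    have h2 : {x | (m : ℕ∞) ≤ (sec R x).encard} =
        ⋃ c : Fin m → Finset ι × Finset ι,
          ⋃ _ : ∀ i j, i ≠ j → Disjoint (cyl (c i)) (cyl (c j)),
            ⋂ i, {x | ∃ y ∈ cyl (c i), y ∈ sec R x} := by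
      ext x
      simp only [Set.mem_iUnion, Set.mem_iInter]
      refine (le_encard_iff (sec R x) m).trans ?_
      constructor
      · rintro ⟨c, h, h'⟩
        exact ⟨c, h, h'⟩
      · rintro ⟨c, h, h'⟩
        exact ⟨c, h, h'⟩
    rw [h2]
    exact MeasurableSet.iUnion fun c => MeasurableSet.iUnion fun _ =>
      MeasurableSet.iInter fun i => (isClosed_proj hR _).measurableSet
  refine measurable_to_countable' fun v => ?_
  induction v using ENat.recTopCoe with
  | top =>
    have h3 : (fun x => (sec R x).encard) ⁻¹' {⊤} =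
        ⋂ m : ℕ, {x | (m : ℕ∞) ≤ (sec R x).encard} := by
      ext x
      simp only [Set.mem_preimage, Set.mem_singleton_iff, Set.mem_iInter]
      constructor
      · intro h m
        change (m : ℕ∞) ≤ (sec R x).encard
        rw [h]
        exact le_top
      · intro h
        exact ENat.eq_top_iff_forall_ge.2 h
    rw [h3]
    exact MeasurableSet.iInter h1
  | coe m =>
    have h3 : (fun x => (sec R x).encard) ⁻¹' {(m : ℕ∞)} =
        {x | (m : ℕ∞) ≤ (sec R x).encard} \ {x | ((m + 1 : ℕ) : ℕ∞) ≤ (sec R x).encard} := by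
      ext x
      simp only [Set.mem_preimage, Set.mem_singleton_iff, Set.mem_sdiff]
      constructor
      · intro h
        refine ⟨h.ge, fun hc => ?_⟩
        have hc' : ((m + 1 : ℕ) : ℕ∞) ≤ (sec R x).encard := hc
        rw [h] at hc'
        have : m + 1 ≤ m := by exact_mod_cast hc'
        omega
      · rintro ⟨h4, h5⟩
        refine le_antisymm ?_ h4
        by_contra hc
        push Not at hc
        apply h5
        change ((m + 1 : ℕ) : ℕ∞) ≤ (sec R x).encard
        push_cast
        exact Order.add_one_le_of_lt hc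
    rw [h3]
    exact (h1 _).diff (h1 _)

open Classical in
/-- the counting measure of the section, if it has `k` elements -/
noncomputable def cm (R : Set (X × (ι → Bool))) (k : ℕ) (x : X) : Measure (ι → Bool) :=
  if (sec R x).encard = k then Measure.count.restrict (sec R x) else 0

lemma cm_apply {R : Set (X × (ι → Bool))} (k : ℕ) {x : X}
    (h : (sec R x).encard = k) {A : Set (ι → Bool)} (hA : MeasurableSet A) :
    cm R k x A = ((sec R x ∩ A).encard : ENNReal) := by
  unfold cm
  rw [if_pos h, Measure.restrict_apply hA, Set.inter_comm A]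
  have hf : (sec R x ∩ A).Finite := (Set.finite_of_encard_eq_coe h).subset Set.inter_subset_left
  exact Measure.count_apply hf.measurableSet

lemma cm_zero {R : Set (X × (ι → Bool))} (k : ℕ) {x : X}
    (h : (sec R x).encard ≠ k) : cm R k x = 0 := by
  unfold cm
  rw [if_neg h]

lemma cm_univ (R : Set (X × (ι → Bool))) (k : ℕ) (x : X) : cm R k x Set.univ ≤ k := by
  by_cases h : (sec R x).encard = k
  · rw [cm_apply k h MeasurableSet.univ, Set.inter_univ, h]
    simp
  · rw [cm_zero k h]
    simp

instance (R : Set (X × (ι → Bool))) (k : ℕ) (x : X) : IsFiniteMeasure (cm R k x) :=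
  ⟨(cm_univ R k x).trans_lt (ENNReal.natCast_lt_top k)⟩

lemma ae_cm {R : Set (X × (ι → Bool))} (k : ℕ) {x : X} {p : (ι → Bool) → Prop} :
    (∀ᵐ y ∂(cm R k x), p y) ↔ ((sec R x).encard = k → ∀ y ∈ sec R x, p y) := by
  by_cases h : (sec R x).encard = k
  · have hf : (sec R x).Finite := Set.finite_of_encard_eq_coe h
    unfold cm
    rw [if_pos h, ae_restrict_iff' hf.measurableSet]
    rw [Measure.ae_count_iff]
    exact ⟨fun h' _ => h', fun h' => h' h⟩
  · rw [cm_zero k h]
    simp [h]

lemma measurable_cm {R : Set (X × (ι → Bool))} (hR : IsClosed R) (k : ℕ) :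
    Measurable (cm R k) := by
  have hN : MeasurableSet {x | (sec R x).encard = k} :=
    measurable_encard hR (measurableSet_singleton _)
  refine Measurable.measure_of_isPiSystem (generateFrom_cyl (ι := ι)) isPiSystem_cyl ?_ ?_
  · rintro _ ⟨c, rfl⟩
    have h1 : IsClosed (R ∩ (Prod.snd ⁻¹' (cyl c) : Set (X × (ι → Bool)))) :=
      hR.inter ((isClopen_cyl c).isClosed.preimage continuous_snd)
    have h2 : (fun x => cm R k x (cyl c)) = fun x => Set.indicator {x | (sec R x).encard = k}
        (fun x => ((sec (R ∩ (Prod.snd ⁻¹' (cyl c) : Set (X × (ι → Bool)))) x).encard : ENNReal))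
          x := by
      funext x
      by_cases h : (sec R x).encard = k
      · rw [cm_apply k h (measurableSet_cyl c), Set.indicator_of_mem (by exact h)]
        rfl
      · rw [cm_zero k h, Set.indicator_of_notMem (by exact h)]
        rfl
    rw [h2]
    exact Measurable.indicator ((measurable_from_top (f := fun v : ℕ∞ => (v : ENNReal))).comp
      (measurable_encard h1)) hN
  · have h2 : (fun x => cm R k x Set.univ) = fun x => Set.indicator {x | (sec R x).encard = k}
        (fun x => ((sec R x).encard : ENNReal)) x := by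
      funext x
      by_cases h : (sec R x).encard = k
      · rw [cm_apply k h MeasurableSet.univ, Set.indicator_of_mem (by exact h), Set.inter_univ]
      · rw [cm_zero k h, Set.indicator_of_notMem (by exact h)]
        rfl
    rw [h2]
    exact Measurable.indicator ((measurable_from_top (f := fun v : ℕ∞ => (v : ENNReal))).comp
      (measurable_encard hR)) hN

end kernel

end Pool.Agent.Helper38.EB
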