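import Pool.Agent.Helper38.EB.A3
import Pool.Agent.Helper38.EB.A4

/-!
# Independent couplings: change of one coupling, translations, no ties
-/

set_option autoImplicit false
set_option linter.unusedSectionVars false

open MeasureTheory Filter Topology ProbabilityTheory

namespace Pool.Agent.Helper38.EB

section update

variable {ι : Type*} [DecidableEq ι] (μ : Measure ℝ) [IsProbabilityMeasure μ]

lemma measurable_upd (g : ι) :
    Measurable fun p : (ι → ℝ) × ℝ => (Function.update p.1 g p.2 : ι → ℝ) := by
  refine measurable_pi_lambda _ fun e => ?_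
  by_cases h : e = g
  · subst h
    simp only [Function.update_self]
    fun_prop
  · simp only [Function.update_of_ne h]
    fun_prop

lemma upd_law (g : ι) : ((Measure.infinitePi fun _ : ι => μ).prod μ).map
    (fun p => (Function.update p.1 g p.2 : ι → ℝ)) = Measure.infinitePi fun _ : ι => μ := by
  refine Measure.eq_infinitePi (X := fun _ : ι => ℝ) _ fun s t ht => ?_
  rw [Measure.map_apply (measurable_upd g) (.pi s.countable_toSet fun i _ => ht i)]
  have h2 : (fun p : (ι → ℝ) × ℝ => (Function.update p.1 g p.2 : ι → ℝ)) ⁻¹'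
      ((s : Set ι).pi t) =
      ((s.erase g : Finset ι) : Set ι).pi t ×ˢ (if g ∈ s then t g else Set.univ) := by
    ext p
    simp only [Set.mem_preimage, Set.mem_pi, Finset.mem_coe, Set.mem_prod, Finset.mem_erase]
    constructor
    · intro h
      refine ⟨fun i hi => ?_, ?_⟩
      · have := h i hi.2
        rwa [Function.update_of_ne hi.1] at this
      · split_ifs with hg
        · have := h g hg
          rwa [Function.update_self] at this
        · trivial
    · rintro ⟨h, h'⟩ i hi
      by_cases hig : i = g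
      · subst hig
        rw [Function.update_self]
        rwa [if_pos hi] at h'
      · rw [Function.update_of_ne hig]
        exact h i ⟨hig, hi⟩
  rw [h2, Measure.prod_prod, Measure.infinitePi_pi _ (fun i _ => ht i)]
  by_cases hg : g ∈ s
  · rw [if_pos hg, Finset.prod_erase_mul _ _ hg]
  · rw [if_neg hg, measure_univ, mul_one, Finset.erase_eq_of_notMem hg]

lemma ae_upd {g : ι} {p : (ι → ℝ) → Prop} (h : ∀ᵐ J ∂(Measure.infinitePi fun _ : ι => μ), p J) :
    ∀ᵐ J ∂(Measure.infinitePi fun _ : ι => μ), ∀ᵐ x ∂μ, p (Function.update J g x) := by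
  rw [← upd_law μ g] at h
  exact Measure.ae_ae_of_ae_prod (ae_of_ae_map (measurable_upd g).aemeasurable h)

lemma null_of_sections {g : ι} {Q : Set (ι → ℝ)} (hQ : MeasurableSet Q)
    (h : ∀ J, μ {x | Function.update J g x ∈ Q} = 0) :
    (Measure.infinitePi fun _ : ι => μ) Q = 0 := by
  rw [← upd_law μ g, Measure.map_apply (measurable_upd g) hQ,
    Measure.prod_apply (measurable_upd g hQ)]
  simp only [lintegral_eq_zero_iff' (measurable_measure_prodMk_left
    (measurable_upd g hQ)).aemeasurable]
  exact Eventually.of_forall fun J => h J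

end update

variable {d : ℕ}

lemma measurable_shJ (a : Fin d → ℤ) : Measurable (shJ (d := d) a) := by
  unfold shJ; fun_prop

lemma shJ_law (μ : Measure ℝ) [IsProbabilityMeasure μ] (a : Fin d → ℤ) :
    (Measure.infinitePi fun _ : Bond d => μ).map (shJ a) =
      Measure.infinitePi fun _ : Bond d => μ := by
  classical
  refine Measure.eq_infinitePi (X := fun _ : Bond d => ℝ) _ fun s t ht => ?_
  rw [Measure.map_apply (measurable_shJ a) (.pi s.countable_toSet fun i _ => ht i)]
  have h2 : shJ a ⁻¹' ((s : Set (Bond d)).pi t) =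
      ((s.map (tb a).toEmbedding : Finset (Bond d)) : Set (Bond d)).pi
        fun e => t ((tb a).symm e) := by
    ext J
    simp only [Set.mem_preimage, Set.mem_pi, Finset.mem_coe, Finset.mem_map]
    constructor
    · rintro h _ ⟨e, he, rfl⟩
      have := h e he
      simp only [Equiv.coe_toEmbedding, Equiv.symm_apply_apply]
      exact this
    · intro h e he
      have := h (tb a e) ⟨e, he, rfl⟩
      rwa [Equiv.symm_apply_apply] at this
  rw [h2, Measure.infinitePi_pi _ (fun i _ => ht _), Finset.prod_map]
  simp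

lemma shJ_mp (μ : Measure ℝ) [IsProbabilityMeasure μ] (a : Fin d → ℤ) :
    MeasurePreserving (shJ a) (Measure.infinitePi fun _ : Bond d => μ)
      (Measure.infinitePi fun _ : Bond d => μ) := ⟨measurable_shJ a, shJ_law μ a⟩

/-- the configuration with values `1` and `-1` -/
noncomputable def spin (b : (Fin d → ℤ) → Bool) : (Fin d → ℤ) → ℝ :=
  fun x => if b x = true then 1 else -1

lemma spin_val (b : (Fin d → ℤ) → Bool) (x : Fin d → ℤ) : spin b x = 1 ∨ spin b x = -1 := by
  unfold spin
  split_ifs
  · exact Or.inl rfl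
  · exact Or.inr rfl

lemma continuous_spin : Continuous (spin (d := d)) := by
  refine continuous_pi fun x => ?_
  have h : (fun b : (Fin d → ℤ) → Bool => spin b x) =
      (fun v : Bool => if v = true then (1 : ℝ) else -1) ∘ fun b => b x := rfl
  rw [h]
  exact continuous_of_discreteTopology.comp (continuous_apply x)

lemma spin_inj : Function.Injective (spin (d := d)) := by
  intro b b' h
  funext x
  have h1 := congrFun h x
  unfold spin at h1
  rcases hb : b x with _ | _ <;> rcases hb' : b' x with _ | _ <;> rw [hb, hb'] at h1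
  · norm_num at h1
  · norm_num at h1

lemma exists_spin {σ : (Fin d → ℤ) → ℝ} (h : ∀ x, σ x = 1 ∨ σ x = -1) : ∃ b, spin b = σ := by
  classical
  refine ⟨fun x => decide (σ x = 1), ?_⟩
  funext x
  unfold spin
  rcases h x with h | h
  · rw [if_pos (decide_eq_true h), h]
  · rw [if_neg, h]
    rw [decide_eq_true_eq, h]
    norm_num

lemma bp_spin (b : (Fin d → ℤ) → Bool) (e : Bond d) : bp (spin b) e = 1 ∨ bp (spin b) e = -1 := by
  unfold bp
  rcases spin_val b e.1 with h | h <;> rcases spin_val b (other e) with h' | h' <;>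
    rw [h, h'] <;> norm_num

/-- the closed relation: no finite flip lowers the energy -/
def Rel (d : ℕ) : Set ((Bond d → ℝ) × ((Fin d → ℤ) → Bool)) :=
  {p | ∀ S : Finset (Fin d → ℤ), 0 ≤ cost p.1 (spin p.2) S}

lemma isClosed_rel : IsClosed (Rel d) := by
  have h : Rel d = ⋂ S : Finset (Fin d → ℤ),
      {p : (Bond d → ℝ) × ((Fin d → ℤ) → Bool) | 0 ≤ cost p.1 (spin p.2) S} := by
    ext p
    simp only [Rel, Set.mem_iInter]
    rfl
  rw [h]
  refine isClosed_iInter fun S => isClosed_le continuous_const ?_
  simp only [cost_eq]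
  unfold bp
  refine continuous_finsetSum _ fun e _ => ?_
  have h1 : ∀ x, Continuous fun p : (Bond d → ℝ) × ((Fin d → ℤ) → Bool) => spin p.2 x := fun x =>
    (continuous_apply x).comp (continuous_spin.comp continuous_snd)
  have h2 : Continuous fun p : (Bond d → ℝ) × ((Fin d → ℤ) → Bool) => p.1 e :=
    (continuous_apply e).comp continuous_fst
  exact continuous_const.mul (h2.mul ((h1 _).mul (h1 _)))

lemma bd_nonempty (hd : 1 ≤ d) {S : Finset (Fin d → ℤ)} (hS : S.Nonempty) : (bd S).Nonempty := by
  obtain ⟨x, hx, hmax⟩ := S.exists_max_image (fun x => x ⟨0, hd⟩) hS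
  refine ⟨(x, ⟨0, hd⟩), mem_bd.2 fun hc => ?_⟩
  have h1 := hmax _ (hc.1 hx)
  unfold other at h1
  simp at h1

/-- almost surely there are no ties -/
lemma no_ties (hd : 1 ≤ d) (μ : Measure ℝ) [IsProbabilityMeasure μ] (hatom : ∀ x, μ {x} = 0) :
    ∀ᵐ J ∂(Measure.infinitePi fun _ : Bond d => μ), ∀ (b : (Fin d → ℤ) → Bool)
      (S : Finset (Fin d → ℤ)), S.Nonempty → cost J (spin b) S ≠ 0 := by
  classical
  have h1 : ∀ᵐ J ∂(Measure.infinitePi fun _ : Bond d => μ), ∀ (A T : Finset (Bond d)),
      A.Nonempty → ∑ e ∈ A, 2 * (J e * (if e ∈ T then (1 : ℝ) else -1)) ≠ 0 := by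
    refine ae_all_iff.2 fun A => ae_all_iff.2 fun T => ?_
    by_cases hA : A.Nonempty
    · obtain ⟨g, hg⟩ := hA
      have hm : MeasurableSet {J : Bond d → ℝ |
          ∑ e ∈ A, 2 * (J e * (if e ∈ T then (1 : ℝ) else -1)) = 0} :=
        measurableSet_eq_fun (by fun_prop) measurable_const
      have h2 := null_of_sections μ (g := g) hm (fun J => by
        refine measure_mono_null (t := {-(∑ e ∈ A.erase g,
          2 * (J e * (if e ∈ T then (1 : ℝ) else -1))) /
            (2 * (if g ∈ T then (1 : ℝ) else -1))}) ?_ (hatom _)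
        intro x hx
        have hx' : ∑ e ∈ A, 2 * (Function.update J g x e * (if e ∈ T then (1 : ℝ) else -1)) = 0 :=
          hx
        rw [← Finset.add_sum_erase _ _ hg, Function.update_self] at hx'
        have h3 : ∑ e ∈ A.erase g, 2 * (Function.update J g x e * (if e ∈ T then (1 : ℝ) else -1)) =
            ∑ e ∈ A.erase g, 2 * (J e * (if e ∈ T then (1 : ℝ) else -1)) :=
          Finset.sum_congr rfl fun e he => by
            rw [Function.update_of_ne (Finset.ne_of_mem_erase he)]
        rw [h3] at hx'
        rw [Set.mem_singleton_iff, eq_div_iff (by split_ifs <;> norm_num)]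
        linarith)
      filter_upwards [measure_eq_zero_iff_ae_notMem.1 h2] with J hJ _
      exact hJ
    · exact Eventually.of_forall fun J h => absurd h hA
  filter_upwards [h1] with J hJ b S hS
  rw [cost_eq]
  have h2 := hJ (bd S) ((bd S).filter fun e => bp (spin b) e = 1) (bd_nonempty hd hS)
  have h3 : ∑ e ∈ bd S, 2 * (J e * bp (spin b) e) = ∑ e ∈ bd S, 2 * (J e *
      (if e ∈ (bd S).filter fun e => bp (spin b) e = 1 then (1 : ℝ) else -1)) := by
    refine Finset.sum_congr rfl fun e he => ?_
    rcases bp_spin b e with h | h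
    · rw [if_pos (Finset.mem_filter.2 ⟨he, h⟩), h]
    · rw [if_neg (fun hc => by
        have := (Finset.mem_filter.1 hc).2
        rw [h] at this
        norm_num at this), h]
  rw [h3]
  exact h2

end Pool.Agent.Helper38.EB
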