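import Pool.Agent.Helper38.EB.A5

/-!
# Finitely many ground states
-/

set_option autoImplicit false
set_option linter.unusedSectionVars false

open MeasureTheory Filter Topology ProbabilityTheory

namespace Pool.Agent.Helper38.EB

variable {d : ℕ}

/-- the set of (weak) ground states -/
abbrev F (J : Bond d → ℝ) : Set ((Fin d → ℤ) → Bool) := sec (Rel d) J

lemma mem_F {J : Bond d → ℝ} {b : (Fin d → ℤ) → Bool} :
    b ∈ F J ↔ ∀ S : Finset (Fin d → ℤ), 0 ≤ cost J (spin b) S := Iff.rfl

/-- the translation of Boolean configurations -/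
def shB (a : Fin d → ℤ) : ((Fin d → ℤ) → Bool) ≃ᵐ ((Fin d → ℤ) → Bool) where
  toFun b := fun x => b (x + a)
  invFun b := fun x => b (x - a)
  left_inv b := by funext x; simp
  right_inv b := by funext x; simp
  measurable_toFun := by
    change Measurable fun b : (Fin d → ℤ) → Bool => fun x => b (x + a)
    fun_prop
  measurable_invFun := by
    change Measurable fun b : (Fin d → ℤ) → Bool => fun x => b (x - a)
    fun_prop

lemma spin_shB (a : Fin d → ℤ) (b : (Fin d → ℤ) → Bool) : spin (shB a b) = shS a (spin b) := rfl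

lemma tS_neg (a : Fin d → ℤ) (S : Finset (Fin d → ℤ)) : tS a (tS (-a) S) = S := by
  ext x
  rw [mem_tS', mem_tS']
  simp

lemma mem_F_sh (a : Fin d → ℤ) (J : Bond d → ℝ) (b : (Fin d → ℤ) → Bool) :
    shB a b ∈ F (shJ a J) ↔ b ∈ F J := by
  rw [mem_F, mem_F]
  constructor
  · intro h S
    have h1 := h (tS (-a) S)
    rwa [spin_shB, cost_sh, tS_neg] at h1
  · intro h S
    rw [spin_shB, cost_sh]
    exact h _

lemma F_sh (a : Fin d → ℤ) (J : Bond d → ℝ) : F (shJ a J) = shB a '' F J := by
  ext b
  constructor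
  · intro h
    refine ⟨(shB a).symm b, ?_, (shB a).apply_symm_apply b⟩
    rw [← mem_F_sh a]
    rwa [(shB a).apply_symm_apply]
  · rintro ⟨b', hb', rfl⟩
    exact (mem_F_sh a J b').2 hb'

lemma encard_sh (a : Fin d → ℤ) (J : Bond d → ℝ) : (F (shJ a J)).encard = (F J).encard := by
  rw [F_sh]
  exact (shB a).injective.encard_image _

lemma cm_sh (k : ℕ) (a : Fin d → ℤ) (J : Bond d → ℝ) :
    cm (Rel d) k (shJ a J) = (cm (Rel d) k J).map (shB a) := by
  by_cases h : (F J).encard = k
  · have h' : (F (shJ a J)).encard = k := (encard_sh a J).trans h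
    ext A hA
    rw [Measure.map_apply (shB a).measurable hA, cm_apply k h' hA,
      cm_apply k h ((shB a).measurable hA)]
    congr 1
    have h2 : sec (Rel d) (shJ a J) ∩ A = shB a '' (sec (Rel d) J ∩ (shB a) ⁻¹' A) := by
      ext b
      constructor
      · rintro ⟨h3, h4⟩
        have h5 : b ∈ shB a '' F J := by rw [← F_sh]; exact h3
        obtain ⟨b', hb', rfl⟩ := h5
        exact ⟨b', ⟨hb', h4⟩, rfl⟩
      · rintro ⟨b', ⟨h3, h4⟩, rfl⟩
        exact ⟨(mem_F_sh a J b').2 h3, h4⟩
    rw [h2]
    exact (shB a).injective.encard_image _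
  · have h' : (F (shJ a J)).encard ≠ k := fun hc => h ((encard_sh a J).symm.trans hc)
    rw [cm_zero k h', cm_zero k h]
    simp

/-- the counting kernel -/
noncomputable def ker (d k : ℕ) : Kernel (Bond d → ℝ) ((Fin d → ℤ) → Bool) :=
  ⟨cm (Rel d) k, measurable_cm isClosed_rel k⟩

lemma ker_apply (k : ℕ) (J : Bond d → ℝ) : ker d k J = cm (Rel d) k J := rfl

instance (d k : ℕ) : IsFiniteKernel (ker d k) :=
  ⟨⟨k, ENNReal.natCast_lt_top k, fun _ => cm_univ _ _ _⟩⟩

/-- Boolean data -/
abbrev OB (d : ℕ) : Type := (Bond d → ℝ) × (((Fin d → ℤ) → Bool) × ((Fin d → ℤ) → Bool))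

/-- the law of the couplings and two ground states, weighted by counting measure -/
noncomputable def MB (μ : Measure ℝ) [IsProbabilityMeasure μ] (d k : ℕ) : Measure (OB d) :=
  (Measure.infinitePi fun _ : Bond d => μ) ⊗ₘ (ker d k ×ₖ ker d k)

instance (μ : Measure ℝ) [IsProbabilityMeasure μ] (d k : ℕ) : IsFiniteMeasure (MB μ d k) := by
  unfold MB; infer_instance

/-- the translation of Boolean data -/
def shO (a : Fin d → ℤ) (q : OB d) : OB d := (shJ a q.1, (shB a q.2.1, shB a q.2.2))

lemma measurable_shO (a : Fin d → ℤ) : Measurable (shO (d := d) a) :=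
  ((measurable_shJ a).comp measurable_fst).prodMk
    (((shB a).measurable.comp (measurable_fst.comp measurable_snd)).prodMk
      ((shB a).measurable.comp (measurable_snd.comp measurable_snd)))

lemma shO_law (μ : Measure ℝ) [IsProbabilityMeasure μ] (k : ℕ) (a : Fin d → ℤ) :
    (MB μ d k).map (shO a) = MB μ d k := by
  ext A hA
  unfold MB
  rw [Measure.map_apply (measurable_shO a) hA, Measure.compProd_apply (measurable_shO a hA),
    Measure.compProd_apply hA, ← (shJ_mp μ a).lintegral_comp
      (Kernel.measurable_kernel_prodMk_left hA)]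
  refine lintegral_congr fun J => ?_
  rw [Kernel.prod_apply, Kernel.prod_apply, ker_apply, ker_apply, cm_sh,
    Measure.map_prod_map _ _ (shB a).measurable (shB a).measurable,
    Measure.map_apply ((shB a).measurable.prodMap (shB a).measurable) (measurable_prodMk_left hA)]
  rfl

/-- the embedding of the Boolean data -/
noncomputable def emb (q : OB d) : Om d := (q.1, (spin q.2.1, spin q.2.2))

lemma emb_me : MeasurableEmbedding (emb (d := d)) := by
  refine Measurable.measurableEmbedding ?_ ?_
  · exact measurable_fst.prodMk ((continuous_spin.measurable.comp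
      (measurable_fst.comp measurable_snd)).prodMk
        (continuous_spin.measurable.comp (measurable_snd.comp measurable_snd)))
  · rintro ⟨J, b, b'⟩ ⟨J', c, c'⟩ h
    unfold emb at h
    simp only [Prod.mk.injEq] at h
    obtain ⟨h1, h2, h3⟩ := h
    rw [h1, spin_inj h2, spin_inj h3]

/-- the law of the couplings and two ground states -/
noncomputable def MR (μ : Measure ℝ) [IsProbabilityMeasure μ] (d k : ℕ) : Measure (Om d) :=
  (MB μ d k).map emb

instance (μ : Measure ℝ) [IsProbabilityMeasure μ] (d k : ℕ) : IsFiniteMeasure (MR μ d k) := by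
  unfold MR; infer_instance

lemma measurable_sh (a : Fin d → ℤ) : Measurable (sh (d := d) a) := by
  unfold sh shJ shS
  fun_prop

lemma sh_mp (μ : Measure ℝ) [IsProbabilityMeasure μ] (k : ℕ) (a : Fin d → ℤ) :
    MeasurePreserving (sh a) (MR μ d k) (MR μ d k) := by
  refine ⟨measurable_sh a, ?_⟩
  unfold MR
  rw [Measure.map_map (measurable_sh a) emb_me.measurable]
  have h : sh a ∘ (emb (d := d)) = emb ∘ shO a := rfl
  rw [h, ← Measure.map_map emb_me.measurable (measurable_shO a), shO_law]

/-- almost sure statements -/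
lemma ae_MB_of {μ : Measure ℝ} [IsProbabilityMeasure μ] {k : ℕ} {p : OB d → Prop}
    (hp : MeasurableSet {q | p q})
    (h : ∀ᵐ J ∂(Measure.infinitePi fun _ : Bond d => μ), (F J).encard = k →
      ∀ b ∈ F J, ∀ b' ∈ F J, p (J, (b, b'))) : ∀ᵐ q ∂(MB μ d k), p q := by
  unfold MB
  rw [Measure.ae_compProd_iff hp]
  filter_upwards [h] with J hJ
  rw [Kernel.prod_apply, ker_apply, Measure.ae_prod_iff_ae_ae (by exact measurable_prodMk_left hp),
    ae_cm]
  intro h1 b hb
  rw [ae_cm]
  intro _ b' hb'
  exact hJ h1 b hb b' hb'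

lemma of_ae_MB {μ : Measure ℝ} [IsProbabilityMeasure μ] {k : ℕ} {p : OB d → Prop}
    (h : ∀ᵐ q ∂(MB μ d k), p q) :
    ∀ᵐ J ∂(Measure.infinitePi fun _ : Bond d => μ), (F J).encard = k →
      ∀ b ∈ F J, ∀ b' ∈ F J, p (J, (b, b')) := by
  unfold MB at h
  filter_upwards [Measure.ae_ae_of_ae_compProd h] with J hJ hk b hb b' hb'
  rw [Kernel.prod_apply, ker_apply] at hJ
  have h2 := Measure.ae_ae_of_ae_prod hJ
  rw [ae_cm] at h2
  have h3 := h2 hk b hb
  rw [ae_cm] at h3
  exact h3 hk b' hb'

/-- `F` on the line of the coupling of `g` is an interval -/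
lemma F_interval {J : Bond d → ℝ} {g : Bond d} {b : (Fin d → ℤ) → Bool} {x y z : ℝ}
    (hxy : x ≤ y) (hyz : y ≤ z) (hx : b ∈ F (Function.update J g x))
    (hz : b ∈ F (Function.update J g z)) : b ∈ F (Function.update J g y) := by
  intro S
  have h1 := hx S
  have h3 := hz S
  simp only at h1 h3 ⊢
  by_cases hg : g ∈ bd S
  · rw [cost_update _ _ _ hg] at h1 h3 ⊢
    rcases bp_spin b g with h | h <;> rw [h] at h1 h3 ⊢ <;> linarith
  · rw [cost_update' _ _ _ hg] at h1 h3 ⊢
    exact h1

/-- `F` on the line of the coupling of `g` is a half line -/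
lemma F_half {J : Bond d → ℝ} {g : Bond d} {b : (Fin d → ℤ) → Bool} {x y : ℝ}
    (hxy : bp (spin b) g * x ≤ bp (spin b) g * y) (hx : b ∈ F (Function.update J g x)) :
    b ∈ F (Function.update J g y) := by
  intro S
  have h1 := hx S
  simp only at h1 ⊢
  by_cases hg : g ∈ bd S
  · rw [cost_update _ _ _ hg] at h1 ⊢
    linarith
  · rw [cost_update' _ _ _ hg] at h1 ⊢
    exact h1

/-- stability under small changes of the coupling of `g` -/
def St (g : Bond d) : Set ((Bond d → ℝ) × ((Fin d → ℤ) → Bool)) :=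
  {p | ∃ n : ℕ, (Function.update p.1 g (p.1 g - 1 / ((n : ℝ) + 1)), p.2) ∈ Rel d ∧
    (Function.update p.1 g (p.1 g + 1 / ((n : ℝ) + 1)), p.2) ∈ Rel d}

lemma measurableSet_rel : MeasurableSet (Rel d) := by
  have h : Rel d = ⋂ S : Finset (Fin d → ℤ),
      {p : (Bond d → ℝ) × ((Fin d → ℤ) → Bool) | 0 ≤ cost p.1 (spin p.2) S} := by
    ext p
    simp only [Rel, Set.mem_iInter]
    rfl
  rw [h]
  refine MeasurableSet.iInter fun S => measurableSet_le measurable_const ?_
  exact (measurable_cost S).comp (f := fun p : (Bond d → ℝ) × ((Fin d → ℤ) → Bool) =>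
    (p.1, spin p.2)) (measurable_fst.prodMk (continuous_spin.measurable.comp measurable_snd))

lemma measurableSet_st (g : Bond d) : MeasurableSet (St g) := by
  have h : St g = ⋃ n : ℕ, ((fun p : (Bond d → ℝ) × ((Fin d → ℤ) → Bool) =>
      ((Function.update p.1 g (p.1 g - 1 / ((n : ℝ) + 1)) : Bond d → ℝ), p.2)) ⁻¹' Rel d ∩
      (fun p : (Bond d → ℝ) × ((Fin d → ℤ) → Bool) =>
      ((Function.update p.1 g (p.1 g + 1 / ((n : ℝ) + 1)) : Bond d → ℝ), p.2)) ⁻¹' Rel d) := by
    ext p
    simp only [St, Set.mem_iUnion]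
    rfl
  rw [h]
  refine MeasurableSet.iUnion fun n => MeasurableSet.inter ?_ ?_
  · refine measurableSet_rel.preimage (Measurable.prodMk ?_ measurable_snd)
    exact (measurable_upd g).comp (f := fun p : (Bond d → ℝ) × ((Fin d → ℤ) → Bool) =>
      (p.1, p.1 g - 1 / ((n : ℝ) + 1))) (by fun_prop)
  · refine measurableSet_rel.preimage (Measurable.prodMk ?_ measurable_snd)
    exact (measurable_upd g).comp (f := fun p : (Bond d → ℝ) × ((Fin d → ℤ) → Bool) =>
      (p.1, p.1 g + 1 / ((n : ℝ) + 1))) (by fun_prop)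

/-- the exceptional values of the coupling of `g`, with the given sign -/
def Ex (k : ℕ) (J : Bond d → ℝ) (g : Bond d) (s : ℝ) : Set ℝ :=
  {x | (F (Function.update J g x)).encard = k ∧ ∃ b ∈ F (Function.update J g x),
    bp (spin b) g = s ∧ ∀ r : ℝ, 0 < r → b ∉ F (Function.update J g (x - s * r))}

lemma Ex_finite (k : ℕ) (J : Bond d → ℝ) (g : Bond d) {s : ℝ} (hs : s = 1 ∨ s = -1) :
    (Ex k J g s).Finite := by
  classical
  by_contra hinf
  obtain ⟨T, hT, hTc⟩ := (Set.not_finite.1 hinf : (Ex k J g s).Infinite).exists_subset_card_eq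
    (k + 1)
  have hTne : T.Nonempty := by
    rw [← Finset.card_pos, hTc]; omega
  obtain ⟨z, hz, hmax⟩ := T.exists_max_image (fun x => s * x) hTne
  have hs2 : s * s = 1 := by rcases hs with h | h <;> rw [h] <;> norm_num
  have hex : ∀ x : T, ∃ b, b ∈ F (Function.update J g (x : ℝ)) ∧ bp (spin b) g = s ∧
      ∀ r : ℝ, 0 < r → b ∉ F (Function.update J g ((x : ℝ) - s * r)) := fun x => by
    obtain ⟨-, b, h1, h2, h3⟩ := hT x.2
    exact ⟨b, h1, h2, h3⟩
  choose b hb1 hb2 hb3 using hex
  have hinj : Function.Injective b := by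
    intro x y hxy
    by_contra hne
    have hne' : (x : ℝ) ≠ y := fun h => hne (Subtype.ext h)
    have hsne : s * (x : ℝ) ≠ s * y := fun h => hne' (by
      have := congrArg (fun t => s * t) h
      simp only [← mul_assoc, hs2, one_mul] at this
      exact this)
    rcases lt_or_gt_of_ne hsne with h | h
    · have h1 := hb3 y (s * (y - x)) (by linarith)
      rw [← mul_assoc, hs2, one_mul, sub_sub_cancel, ← hxy] at h1
      exact h1 (hb1 x)
    · have h1 := hb3 x (s * (x - y)) (by linarith)
      rw [← mul_assoc, hs2, one_mul, sub_sub_cancel, hxy] at h1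
      exact h1 (hb1 y)
  have hsub : Set.range b ⊆ F (Function.update J g z) := by
    rintro _ ⟨x, rfl⟩
    refine F_half (x := x) ?_ (hb1 x)
    rw [hb2 x]
    exact hmax x x.2
  have h1 := Set.encard_le_encard hsub
  have h2 : (F (Function.update J g z)).encard = k := (hT hz).1
  rw [h2, ← Set.image_univ, hinj.encard_image, Set.encard_univ] at h1
  have h3 : ENat.card T = (k + 1 : ℕ) := by
    rw [ENat.card_eq_coe_fintype_card, Fintype.card_coe, hTc]
  rw [h3] at h1
  have : k + 1 ≤ k := by exact_mod_cast h1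
  omega

/-- almost surely all ground states are stable, if they are finitely many -/
lemma stable (μ : Measure ℝ) [IsProbabilityMeasure μ] (hatom : ∀ x, μ {x} = 0) (k : ℕ)
    (g : Bond d) : ∀ᵐ J ∂(Measure.infinitePi fun _ : Bond d => μ), (F J).encard = k →
      ∀ b ∈ F J, (J, b) ∈ St g := by
  have hm : MeasurableSet {J : Bond d → ℝ | ker d k J (Prod.mk J ⁻¹' (St g)ᶜ) = 0}ᶜ :=
    (Kernel.measurable_kernel_prodMk_left (κ := ker d k)
      (measurableSet_st g).compl (measurableSet_singleton 0)).compl
  have : NullSingletonClass μ := ⟨hatom⟩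
  have h1 := null_of_sections μ (g := g) hm (fun J => by
    refine measure_mono_null (t := Ex k J g 1 ∪ Ex k J g (-1)) ?_
      (((Ex_finite k J g (Or.inl rfl)).union (Ex_finite k J g (Or.inr rfl))).countable.measure_zero
        μ)
    intro x hx
    have hx1 : ¬ (ker d k (Function.update J g x)
        (Prod.mk (Function.update J g x) ⁻¹' (St g)ᶜ) = 0) := hx
    have hx2 : ¬ ∀ᵐ b ∂(cm (Rel d) k (Function.update J g x)),
        (Function.update J g x, b) ∈ St g := by
      intro hc
      apply hx1
      exact hc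
    rw [ae_cm] at hx2
    push Not at hx2
    obtain ⟨hk, b, hb, hbs⟩ := hx2
    have hup : ∀ y : ℝ, Function.update (Function.update J g x) g y = Function.update J g y :=
      fun y => Function.update_idem _ _ _
    have hself : (Function.update J g x) g = x := Function.update_self _ _ _
    have hcl : ∀ r : ℝ, 0 < r → ¬ (b ∈ F (Function.update J g (x - r)) ∧
        b ∈ F (Function.update J g (x + r))) := by
      rintro r hr ⟨h1, h2⟩
      apply hbs
      obtain ⟨n, hn⟩ := exists_nat_one_div_lt hr
      refine ⟨n, ?_, ?_⟩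
      · change (Function.update (Function.update J g x) g ((Function.update J g x) g - _), b) ∈ _
        rw [hup, hself]
        exact F_interval (x := x - r) (z := x) (by linarith) (by
          have : (0 : ℝ) < 1 / ((n : ℝ) + 1) := by positivity
          linarith) h1 hb
      · change (Function.update (Function.update J g x) g ((Function.update J g x) g + _), b) ∈ _
        rw [hup, hself]
        exact F_interval (x := x) (z := x + r) (by
          have : (0 : ℝ) < 1 / ((n : ℝ) + 1) := by positivity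
          linarith) (by linarith) hb h2
    rcases bp_spin b g with h | h
    · left
      refine ⟨hk, b, hb, h, fun r hr hc => ?_⟩
      rw [one_mul] at hc
      refine hcl r hr ⟨hc, F_half (x := x) ?_ hb⟩
      rw [h]; linarith
    · right
      refine ⟨hk, b, hb, h, fun r hr hc => ?_⟩
      have e1 : x - -1 * r = x + r := by ring
      rw [e1] at hc
      refine hcl r hr ⟨F_half (x := x) ?_ hb, hc⟩
      rw [h]; linarith)
  filter_upwards [measure_eq_zero_iff_ae_notMem.1 h1] with J hJ
  have h2 : ker d k J (Prod.mk J ⁻¹' (St g)ᶜ) = 0 := by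
    by_contra hc
    exact hJ hc
  have h3 : ∀ᵐ b ∂(cm (Rel d) k J), (J, b) ∈ St g := h2
  rwa [ae_cm] at h3

end Pool.Agent.Helper38.EB
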