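import Pool.Agent.Helper38.EB.A6

/-!
# Infinite barriers if there are finitely many ground states
-/

set_option autoImplicit false
set_option linter.unusedSectionVars false

open MeasureTheory Filter Topology ProbabilityTheory

namespace Pool.Agent.Helper38.EB

variable {d : ℕ}

/-- a translation invariant set of couplings is not changed by a change of one coupling -/
lemma ae_invariant (μ : Measure ℝ) [IsProbabilityMeasure μ] (g : Bond d)
    {B : Set (Bond d → ℝ)} (hB : MeasurableSet B) (hinv : ∀ a J, shJ a J ∈ B ↔ J ∈ B) :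
    ∀ᵐ J ∂(Measure.infinitePi fun _ : Bond d => μ), ∀ᵐ x ∂μ,
      (Function.update J g x ∈ B ↔ J ∈ B) := by
  set P := Measure.infinitePi fun _ : Bond d => μ with hP
  set j0 : (Bond d → ℝ) → Om d := fun J => (J, ((fun _ => 1), (fun _ => 1))) with hj0
  have hj0m : Measurable j0 := measurable_id.prodMk measurable_const
  have hfin : IsFiniteMeasure (P.map j0) := inferInstance
  have hmp : ∀ a, MeasurePreserving (sh a) (P.map j0) (P.map j0) := by
    intro a
    refine ⟨measurable_sh a, ?_⟩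
    rw [Measure.map_map (measurable_sh a) hj0m]
    have h : sh a ∘ j0 = j0 ∘ shJ a := rfl
    rw [h, ← Measure.map_map hj0m (measurable_shJ a), shJ_law]
  obtain ⟨H, hH1, hH2⟩ := invariant_limit (P.map j0) hmp g
    (A := {ω : Om d | ω.1 ∈ B}) (hB.preimage measurable_fst) (fun a ω => hinv a ω.1)
  have h1 := ae_of_ae_map hj0m.aemeasurable hH2
  filter_upwards [h1, ae_upd μ (g := g) h1] with J h2 h3
  filter_upwards [h3] with x h4
  have h5 : j0 (Function.update J g x) = upd g x (j0 J) := rfl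
  simp only [h5, hH1] at h4
  have h6 := tendsto_nhds_unique h4 h2
  by_cases c1 : Function.update J g x ∈ B <;> by_cases c2 : J ∈ B
  · exact ⟨fun _ => c2, fun _ => c1⟩
  · rw [Set.indicator_of_mem (by exact c1), Set.indicator_of_notMem (by exact c2)] at h6
    exact absurd h6 one_ne_zero
  · rw [Set.indicator_of_notMem (by exact c1), Set.indicator_of_mem (by exact c2)] at h6
    exact absurd h6 zero_ne_one
  · exact ⟨fun h => absurd h c1, fun h => absurd h c2⟩

lemma measurable_encF : Measurable fun J : Bond d → ℝ => (F J).encard :=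
  measurable_encard isClosed_rel

lemma measurableSet_encF (k : ℕ) : MeasurableSet {J : Bond d → ℝ | (F J).encard = k} :=
  measurable_encF (measurableSet_singleton _)

lemma flex_MR (μ : Measure ℝ) [IsProbabilityMeasure μ] (hatom : ∀ x, μ {x} = 0) (k : ℕ)
    (g : Bond d) (N : Set (Om d)) (hN : MR μ d k N = 0) :
    ∀ᵐ ω ∂(MR μ d k), ∃ r : ℝ, 0 < r ∧ ∀ᵐ x ∂μ, |x - ω.1 g| < r → upd g x ω ∉ N := by
  unfold MR at hN ⊢
  rw [emb_me.ae_map_iff]
  have h0 : ∀ᵐ q ∂(MB μ d k), emb q ∉ N :=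
    (emb_me.ae_map_iff (p := fun ω => ω ∉ N)).1 (measure_eq_zero_iff_ae_notMem.1 hN)
  have h1 := of_ae_MB h0
  have h2 := ae_upd μ (g := g) h1
  have h3 := ae_invariant μ g (measurableSet_encF (d := d) k) fun a J => by
    change (F (shJ a J)).encard = k ↔ (F J).encard = k
    rw [encard_sh]
  have h4 := stable μ hatom k g
  have h5 : ∀ᵐ J ∂(Measure.infinitePi fun _ : Bond d => μ), (∀ᵐ x ∂μ,
      ((F (Function.update J g x)).encard = k → ∀ b ∈ F (Function.update J g x),
        ∀ b' ∈ F (Function.update J g x), emb (Function.update J g x, (b, b')) ∉ N) ∧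
      ((F (Function.update J g x)).encard = k ↔ (F J).encard = k)) := by
    filter_upwards [h2, h3] with J a1 a2
    filter_upwards [a1, a2] with x b1 b2
    exact ⟨b1, b2⟩
  obtain ⟨t, ht1, ht2, ht3⟩ := exists_measurable_superset_of_null (ae_iff.1 h5)
  have hp : MeasurableSet {q : OB d | ((q.1 ∉ t ∧ (F q.1).encard = k) ∧
      ((q.1, q.2.1) ∈ St g ∧ (q.1, q.2.2) ∈ St g)) ∧
      ((q.1, q.2.1) ∈ Rel d ∧ (q.1, q.2.2) ∈ Rel d)} := by
    refine MeasurableSet.inter (MeasurableSet.inter (MeasurableSet.inter ?_ ?_)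
      (MeasurableSet.inter ?_ ?_)) (MeasurableSet.inter ?_ ?_)
    · exact ht2.compl.preimage measurable_fst
    · exact (measurableSet_encF k).preimage measurable_fst
    · exact (measurableSet_st g).preimage (f := fun q : OB d => (q.1, q.2.1)) (by fun_prop)
    · exact (measurableSet_st g).preimage (f := fun q : OB d => (q.1, q.2.2)) (by fun_prop)
    · exact measurableSet_rel.preimage (f := fun q : OB d => (q.1, q.2.1)) (by fun_prop)
    · exact measurableSet_rel.preimage (f := fun q : OB d => (q.1, q.2.2)) (by fun_prop)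
  have h6 := ae_MB_of (μ := μ) (k := k) hp (by
    filter_upwards [measure_eq_zero_iff_ae_notMem.1 ht3, h4] with J a1 a2 hk b hb b' hb'
    exact ⟨⟨⟨a1, hk⟩, ⟨a2 hk b hb, a2 hk b' hb'⟩⟩, ⟨hb, hb'⟩⟩)
  filter_upwards [h6] with q hq
  obtain ⟨⟨⟨c1, c2⟩, ⟨⟨n, n1, n2⟩, ⟨m, m1, m2⟩⟩⟩, ⟨c5, c6⟩⟩ := hq
  have c7 := not_not.1 (fun hc => c1 (ht1 hc))
  have hn : (0 : ℝ) < 1 / ((n : ℝ) + 1) := by positivity
  have hm : (0 : ℝ) < 1 / ((m : ℝ) + 1) := by positivity
  refine ⟨min (1 / ((n : ℝ) + 1)) (1 / ((m : ℝ) + 1)), lt_min hn hm, ?_⟩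
  filter_upwards [c7] with x hx hxr
  have e1 : |x - q.1 g| < min (1 / ((n : ℝ) + 1)) (1 / ((m : ℝ) + 1)) := hxr
  have e2 := abs_lt.1 (e1.trans_le (min_le_left _ _))
  have e3 := abs_lt.1 (e1.trans_le (min_le_right _ _))
  have b1 : q.2.1 ∈ F (Function.update q.1 g x) :=
    F_interval (x := q.1 g - 1 / ((n : ℝ) + 1)) (z := q.1 g + 1 / ((n : ℝ) + 1))
      (by linarith) (by linarith) n1 n2
  have b2 : q.2.2 ∈ F (Function.update q.1 g x) :=
    F_interval (x := q.1 g - 1 / ((m : ℝ) + 1)) (z := q.1 g + 1 / ((m : ℝ) + 1))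
      (by linarith) (by linarith) m1 m2
  exact hx.1 (hx.2.2 c2) _ b1 _ b2

lemma supp_MR (μ : Measure ℝ) [IsProbabilityMeasure μ] (k : ℕ) (g : Bond d) :
    ∀ᵐ ω ∂(MR μ d k), ∀ r : ℝ, 0 < r → μ {x | |x - ω.1 g| < r} ≠ 0 := by
  unfold MR
  rw [emb_me.ae_map_iff]
  have h1 : ∀ᵐ y ∂μ, ∀ r : ℝ, 0 < r → μ {x | |x - y| < r} ≠ 0 := by
    filter_upwards [Measure.support_mem_ae (μ := μ)] with y hy r hr
    have h2 : {x : ℝ | |x - y| < r} ∈ 𝓝 y := by
      have : {x : ℝ | |x - y| < r} = Metric.ball y r := by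
        ext x; rw [Metric.mem_ball, Real.dist_eq]; rfl
      rw [this]
      exact Metric.ball_mem_nhds y hr
    exact ((Measure.mem_support_iff_forall _).1 hy _ h2).ne'
  obtain ⟨t, ht1, ht2, ht3⟩ := exists_measurable_superset_of_null (ae_iff.1 h1)
  have h3 := null_of_sections μ (g := g) (Q := {J : Bond d → ℝ | J g ∈ t})
    (ht2.preimage (measurable_pi_apply g)) (fun J => by
      refine measure_mono_null ?_ ht3
      intro x hx
      have hx' : Function.update J g x g ∈ t := hx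
      rwa [Function.update_self] at hx')
  have h4 := ae_MB_of (μ := μ) (k := k) (p := fun q : OB d => q.1 g ∉ t)
    (ht2.compl.preimage (f := fun q : OB d => q.1 g) (by fun_prop)) (by
    filter_upwards [measure_eq_zero_iff_ae_notMem.1 h3] with J hJ _ _ _ _ _
    exact hJ)
  filter_upwards [h4] with q hq
  by_contra hc
  exact hq (ht1 hc)

lemma gs_of_mem {J : Bond d → ℝ}
    (h : ∀ (b : (Fin d → ℤ) → Bool) (S : Finset (Fin d → ℤ)), S.Nonempty →
      cost J (spin b) S ≠ 0) {b : (Fin d → ℤ) → Bool} (hb : b ∈ F J) :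
    IsGroundState J (spin b) :=
  gs_iff.2 ⟨spin_val b, fun S hS => lt_of_le_of_ne (hb S) (h b S hS).symm⟩

lemma gs_MR (hd : 1 ≤ d) (μ : Measure ℝ) [IsProbabilityMeasure μ] (hatom : ∀ x, μ {x} = 0)
    (k : ℕ) :
    ∀ᵐ ω ∂(MR μ d k), IsGroundState ω.1 ω.2.1 ∧ ∀ x, ω.2.2 x = 1 ∨ ω.2.2 x = -1 := by
  unfold MR
  rw [emb_me.ae_map_iff]
  have h1 := no_ties hd μ hatom
  obtain ⟨t, ht1, ht2, ht3⟩ := exists_measurable_superset_of_null (ae_iff.1 h1)
  have hp : MeasurableSet {q : OB d | q.1 ∉ t ∧ (q.1, q.2.1) ∈ Rel d} :=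
    (ht2.compl.preimage measurable_fst).inter
      (measurableSet_rel.preimage (f := fun q : OB d => (q.1, q.2.1)) (by fun_prop))
  have h4 := ae_MB_of (μ := μ) (k := k) hp (by
    filter_upwards [measure_eq_zero_iff_ae_notMem.1 ht3] with J hJ _ b hb _ _
    exact ⟨hJ, hb⟩)
  filter_upwards [h4] with q hq
  have c7 := not_not.1 (fun hc => hq.1 (ht1 hc))
  exact ⟨gs_of_mem c7 hq.2, fun x => spin_val _ x⟩

/-- **Infinite barriers.** -/
theorem finite_barrier (hd : 1 ≤ d) (μ : Measure ℝ) [IsProbabilityMeasure μ]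
    (hatom : ∀ x, μ {x} = 0) :
    ∀ᵐ J ∂(Measure.infinitePi fun _ : Bond d => μ), {σ | IsGroundState J σ}.Finite →
      ∀ σ τ : (Fin d → ℤ) → ℝ, IsGroundState J σ → IsGroundState J τ → τ ≠ σ → τ ≠ -σ →
        InfiniteBarrier J σ τ := by
  have h1 : ∀ k : ℕ, ∀ᵐ J ∂(Measure.infinitePi fun _ : Bond d => μ), (F J).encard = k →
      ∀ b ∈ F J, ∀ b' ∈ F J, spin b' = spin b ∨ spin b' = -spin b ∨
        InfiniteBarrier J (spin b) (spin b') := by
    intro k
    have h2 := law_barrier μ hatom (MR μ d k) (sh_mp μ k) (supp_MR μ k) (gs_MR hd μ hatom k)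
      (flex_MR μ hatom k)
    unfold MR at h2
    rw [emb_me.ae_map_iff] at h2
    exact of_ae_MB h2
  filter_upwards [ae_all_iff.2 h1, no_ties hd μ hatom] with J h2 h3 hfin σ τ hσ hτ hne hne'
  have h4 : (F J).Finite := by
    have h5 : spin '' F J ⊆ {σ | IsGroundState J σ} := by
      rintro _ ⟨b, hb, rfl⟩
      exact gs_of_mem h3 hb
    exact (hfin.subset h5).of_finite_image spin_inj.injOn
  obtain ⟨b, rfl⟩ := exists_spin hσ.1
  obtain ⟨b', rfl⟩ := exists_spin hτ.1
  have h6 := h2 _ h4.encard_eq_coe_toFinset_card b (fun S => cost_nonneg hσ S) b'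
    (fun S => cost_nonneg hτ S)
  rcases h6 with h | h | h
  · exact absurd h hne
  · exact absurd h hne'
  · exact h

end Pool.Agent.Helper38.EB
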