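import Pool.Agent.Helper38.EB.A7

/-!
# Ground states in boxes and their critical values
-/

set_option autoImplicit false
set_option linter.unusedSectionVars false

open MeasureTheory Filter Topology ProbabilityTheory

namespace Pool.Agent.Helper38.EB

/-- the box `[0, n]^d` -/
def box (d n : ℕ) : Set (Fin d → ℤ) := {x | ∀ i, 0 ≤ x i ∧ x i ≤ n}

/-- bonds with both ends in the box -/
def InBox {d : ℕ} (n : ℕ) (e : Bond d) : Prop := e.1 ∈ box d n ∧ other e ∈ box d n

/-- boundary terms -/
structure IsBoundaryTerm {d : ℕ} (n : ℕ) (w : (Bond d → ℝ) → ((Fin d → ℤ) → ℝ) → ℝ) : Prop where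
  /-- it does not depend on the couplings in the box -/
  couplings : ∀ J J' s, (∀ e, ¬ InBox n e → J e = J' e) → w J s = w J' s
  /-- it depends on the spins at the boundary of the box only -/
  spins : ∀ J s s', (∀ x ∈ box d n, (∃ i, x i = 0 ∨ x i = n) → s x = s' x) → w J s = w J s'
  /-- measurability -/
  measurable : ∀ s, Measurable fun J => w J s

/-- the energy in the box -/
noncomputable def boxEnergy {d : ℕ} (n : ℕ) (w : (Bond d → ℝ) → ((Fin d → ℤ) → ℝ) → ℝ)
    (J : Bond d → ℝ) (s : (Fin d → ℤ) → ℝ) : ℝ :=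
  w J s - ∑ᶠ (e : Bond d) (_ : InBox n e), J e * (s e.1 * s (other e))

/-- ground states in the box -/
def IsBoxGroundState {d : ℕ} (n : ℕ) (w : (Bond d → ℝ) → ((Fin d → ℤ) → ℝ) → ℝ)
    (J : Bond d → ℝ) (s : (Fin d → ℤ) → ℝ) : Prop :=
  (∀ x, s x = 1 ∨ s x = -1) ∧
  ∀ s' : (Fin d → ℤ) → ℝ, (∀ x, s' x = 1 ∨ s' x = -1) → boxEnergy n w J s ≤ boxEnergy n w J s'

variable {d : ℕ} {n : ℕ} {w : (Bond d → ℝ) → ((Fin d → ℤ) → ℝ) → ℝ}

/-- the box as a finite set -/
noncomputable def boxF (d n : ℕ) : Finset (Fin d → ℤ) :=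
  Fintype.piFinset fun _ => Finset.Icc (0 : ℤ) n

lemma mem_boxF {x : Fin d → ℤ} : x ∈ boxF d n ↔ x ∈ box d n := by
  unfold boxF box
  rw [Fintype.mem_piFinset]
  simp only [Finset.mem_Icc]
  rfl

open Classical in
/-- the bonds of the box -/
noncomputable def bx (d n : ℕ) : Finset (Bond d) :=
  (boxF d n ×ˢ Finset.univ).filter fun e => InBox n e

lemma mem_bx {e : Bond d} : e ∈ bx d n ↔ InBox n e := by
  classical
  unfold bx
  rw [Finset.mem_filter, Finset.mem_product, mem_boxF]
  exact ⟨fun h => h.2, fun h => ⟨⟨h.1, Finset.mem_univ _⟩, h⟩⟩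

lemma boxEnergy_eq (w : (Bond d → ℝ) → ((Fin d → ℤ) → ℝ) → ℝ)
    (J : Bond d → ℝ) (s : (Fin d → ℤ) → ℝ) :
    boxEnergy n w J s = w J s - ∑ e ∈ bx d n, J e * bp s e := by
  unfold boxEnergy
  congr 1
  have h : ∀ e : Bond d, InBox n e ↔ e ∈ bx d n := fun e => mem_bx.symm
  simp only [h]
  rw [finsum_mem_finset_eq_sum]
  rfl

/-- a configuration described by the finite set of its minus spins -/
def cfg (T : Finset (Fin d → ℤ)) : (Fin d → ℤ) → ℝ := fun x => if x ∈ T then -1 else 1

lemma cfg_val (T : Finset (Fin d → ℤ)) (x : Fin d → ℤ) : cfg T x = 1 ∨ cfg T x = -1 := by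
  unfold cfg
  split_ifs
  · exact Or.inr rfl
  · exact Or.inl rfl

/-- the finite set of the minus spins in the box -/
noncomputable def rep (n : ℕ) (s : (Fin d → ℤ) → ℝ) : Finset (Fin d → ℤ) :=
  (boxF d n).filter fun x => s x = -1

lemma cfg_rep {s : (Fin d → ℤ) → ℝ} (hs : ∀ x, s x = 1 ∨ s x = -1) {x : Fin d → ℤ}
    (hx : x ∈ box d n) : cfg (rep n s) x = s x := by
  unfold cfg rep
  rcases hs x with h | h
  · rw [if_neg, h]
    rw [Finset.mem_filter, h]
    rintro ⟨-, h2⟩
    norm_num at h2
  · rw [if_pos, h]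
    rw [Finset.mem_filter]
    exact ⟨mem_boxF.2 hx, h⟩

lemma bp_cfg_rep {s : (Fin d → ℤ) → ℝ} (hs : ∀ x, s x = 1 ∨ s x = -1) {e : Bond d}
    (he : InBox n e) : bp (cfg (rep n s)) e = bp s e := by
  unfold bp
  rw [cfg_rep hs he.1, cfg_rep hs he.2]

lemma energy_cfg_rep (hw : IsBoundaryTerm n w) {s : (Fin d → ℤ) → ℝ}
    (hs : ∀ x, s x = 1 ∨ s x = -1) (J : Bond d → ℝ) :
    boxEnergy n w J (cfg (rep n s)) = boxEnergy n w J s := by
  rw [boxEnergy_eq, boxEnergy_eq, hw.spins J _ s fun x hx _ => cfg_rep hs hx]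
  congr 1
  exact Finset.sum_congr rfl fun e he => by rw [bp_cfg_rep hs (mem_bx.1 he)]

lemma energy_upd (hw : IsBoundaryTerm n w) {g : Bond d} (hg : InBox n g) (J : Bond d → ℝ)
    (x : ℝ) (s : (Fin d → ℤ) → ℝ) :
    boxEnergy n w (Function.update J g x) s =
      boxEnergy n w (Function.update J g 0) s - x * bp s g := by
  rw [boxEnergy_eq, boxEnergy_eq, hw.couplings (Function.update J g x) (Function.update J g 0) s
    (fun e he => by
      have : e ≠ g := fun h => he (h ▸ hg)
      rw [Function.update_of_ne this, Function.update_of_ne this]),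
    ← Finset.add_sum_erase _ _ (mem_bx.2 hg), ← Finset.add_sum_erase _ _ (mem_bx.2 hg),
    Function.update_self, Function.update_self]
  have : ∑ e ∈ (bx d n).erase g, Function.update J g x e * bp s e =
      ∑ e ∈ (bx d n).erase g, Function.update J g 0 e * bp s e :=
    Finset.sum_congr rfl fun e he => by
      rw [Function.update_of_ne (Finset.ne_of_mem_erase he),
        Function.update_of_ne (Finset.ne_of_mem_erase he)]
  rw [this]
  ring

lemma ne_other (g : Bond d) : g.1 ≠ other g := by
  intro h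
  unfold other at h
  have h1 := congrFun h g.2
  simp at h1

/-- the configurations in the box with a given product at `g` -/
noncomputable def cls (n : ℕ) (g : Bond d) (ε : ℝ) : Finset (Finset (Fin d → ℤ)) :=
  (boxF d n).powerset.filter fun T => bp (cfg T) g = ε

lemma cls_pos (n : ℕ) (g : Bond d) : (cls n g 1).Nonempty := by
  refine ⟨∅, ?_⟩
  unfold cls
  rw [Finset.mem_filter]
  refine ⟨Finset.empty_mem_powerset _, ?_⟩
  simp [bp, cfg]

lemma cls_neg {g : Bond d} (hg : InBox n g) : (cls n g (-1)).Nonempty := by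
  refine ⟨{g.1}, ?_⟩
  unfold cls
  rw [Finset.mem_filter, Finset.mem_powerset, Finset.singleton_subset_iff, mem_boxF]
  refine ⟨hg.1, ?_⟩
  unfold bp cfg
  rw [if_pos (Finset.mem_singleton_self _), if_neg]
  · norm_num
  · rw [Finset.mem_singleton]
    exact (ne_other g).symm

open Classical in
/-- the least energy of the configurations with a given product at `g`, without the bond `g` -/
noncomputable def mE (n : ℕ) (w : (Bond d → ℝ) → ((Fin d → ℤ) → ℝ) → ℝ) (g : Bond d) (ε : ℝ)
    (J : Bond d → ℝ) : ℝ :=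
  if h : (cls n g ε).Nonempty then
    (cls n g ε).inf' h fun T => boxEnergy n w (Function.update J g 0) (cfg T) else 0

/-- the critical value of the coupling of `g` -/
noncomputable def crit (n : ℕ) (w : (Bond d → ℝ) → ((Fin d → ℤ) → ℝ) → ℝ) (g : Bond d)
    (J : Bond d → ℝ) : ℝ :=
  (mE n w g 1 J - mE n w g (-1) J) / 2

lemma crit_upd (g : Bond d) (J : Bond d → ℝ) (x : ℝ) :
    crit n w g (Function.update J g x) = crit n w g J := by
  unfold crit mE
  simp only [Function.update_idem]

lemma measurable_boxEnergy (hw : IsBoundaryTerm n w) (s : (Fin d → ℤ) → ℝ) :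
    Measurable fun J => boxEnergy n w J s := by
  simp only [boxEnergy_eq]
  exact (hw.measurable s).sub (by fun_prop)

lemma measurable_finset_inf' {ι X : Type*} [MeasurableSpace X] (f : ι → X → ℝ)
    {S : Finset ι} (h : S.Nonempty) (hf : ∀ i ∈ S, Measurable (f i)) :
    Measurable fun x => S.inf' h fun i => f i x := by
  induction h using Finset.Nonempty.cons_induction with
  | singleton a =>
    simp only [Finset.inf'_singleton]
    exact hf a (Finset.mem_singleton_self a)
  | cons a S ha hS ih =>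
    simp only [Finset.inf'_cons hS]
    exact (hf a (Finset.mem_cons_self a S)).inf
      (ih fun i hi => hf i (Finset.mem_cons_of_mem hi))

lemma measurable_mE (hw : IsBoundaryTerm n w) (g : Bond d) (ε : ℝ) :
    Measurable (mE n w g ε) := by
  unfold mE
  by_cases h : (cls n g ε).Nonempty
  · simp only [dif_pos h]
    exact measurable_finset_inf' (fun T => fun J : Bond d → ℝ =>
      boxEnergy n w (Function.update J g 0) (cfg T)) h
      (fun T _ => (measurable_boxEnergy hw (cfg T)).comp
        ((measurable_upd g).comp (f := fun J : Bond d → ℝ => (J, (0 : ℝ))) (by fun_prop)))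
  · simp only [dif_neg h]
    exact measurable_const

lemma measurable_crit (hw : IsBoundaryTerm n w) (g : Bond d) : Measurable (crit n w g) := by
  unfold crit
  exact ((measurable_mE hw g _).sub (measurable_mE hw g _)).div_const 2

lemma mE_le (hw : IsBoundaryTerm n w) {g : Bond d} (hg : InBox n g) (J : Bond d → ℝ)
    {s : (Fin d → ℤ) → ℝ} (hs : ∀ x, s x = 1 ∨ s x = -1) {ε : ℝ} (hε : bp s g = ε) :
    mE n w g ε J ≤ boxEnergy n w (Function.update J g 0) s := by
  classical
  have hmem : rep n s ∈ cls n g ε := by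
    unfold cls
    rw [Finset.mem_filter, Finset.mem_powerset]
    refine ⟨Finset.filter_subset _ _, ?_⟩
    rw [bp_cfg_rep hs hg, hε]
  have hne : (cls n g ε).Nonempty := ⟨_, hmem⟩
  unfold mE
  rw [dif_pos hne, ← energy_cfg_rep hw hs]
  exact Finset.inf'_le (fun T => boxEnergy n w (Function.update J g 0) (cfg T)) hmem

lemma exists_mE {g : Bond d} (J : Bond d → ℝ) {ε : ℝ} (hne : (cls n g ε).Nonempty) :
    ∃ T, bp (cfg T) g = ε ∧ boxEnergy n w (Function.update J g 0) (cfg T) = mE n w g ε J := by
  classical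
  obtain ⟨T, hT, hT2⟩ := Finset.exists_mem_eq_inf' hne
    (fun T => boxEnergy n w (Function.update J g 0) (cfg T))
  refine ⟨T, ?_, ?_⟩
  · unfold cls at hT
    exact (Finset.mem_filter.1 hT).2
  · unfold mE
    rw [dif_pos hne, hT2]

lemma gs_above (hw : IsBoundaryTerm n w) {g : Bond d} (hg : InBox n g) {J : Bond d → ℝ} {x : ℝ}
    {s : (Fin d → ℤ) → ℝ} (hs : IsBoxGroundState n w (Function.update J g x) s)
    (hx : crit n w g J < x) :
    bp s g = 1 ∧ boxEnergy n w (Function.update J g 0) s = mE n w g 1 J := by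
  have h1 : mE n w g 1 J - x < mE n w g (-1) J + x := by
    unfold crit at hx
    linarith
  obtain ⟨T, hT1, hT2⟩ := exists_mE (w := w) J (cls_pos n g)
  have h2 := hs.2 (cfg T) (cfg_val T)
  rw [energy_upd hw hg J x s, energy_upd hw hg J x (cfg T), hT1, hT2] at h2
  have hbp : bp s g = 1 ∨ bp s g = -1 := by
    unfold bp
    rcases hs.1 g.1 with a | a <;> rcases hs.1 (other g) with b | b <;> rw [a, b] <;> norm_num
  rcases hbp with hb | hb
  · refine ⟨hb, le_antisymm ?_ (mE_le hw hg J hs.1 hb)⟩
    rw [hb] at h2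
    linarith
  · exfalso
    have h3 := mE_le hw hg J hs.1 hb
    rw [hb] at h2
    linarith

lemma gs_below (hw : IsBoundaryTerm n w) {g : Bond d} (hg : InBox n g) {J : Bond d → ℝ} {x : ℝ}
    {s : (Fin d → ℤ) → ℝ} (hs : IsBoxGroundState n w (Function.update J g x) s)
    (hx : x < crit n w g J) :
    bp s g = -1 ∧ boxEnergy n w (Function.update J g 0) s = mE n w g (-1) J := by
  have h1 : mE n w g (-1) J + x < mE n w g 1 J - x := by
    unfold crit at hx
    linarith
  obtain ⟨T, hT1, hT2⟩ := exists_mE (w := w) J (cls_neg hg)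
  have h2 := hs.2 (cfg T) (cfg_val T)
  rw [energy_upd hw hg J x s, energy_upd hw hg J x (cfg T), hT1, hT2] at h2
  have hbp : bp s g = 1 ∨ bp s g = -1 := by
    unfold bp
    rcases hs.1 g.1 with a | a <;> rcases hs.1 (other g) with b | b <;> rw [a, b] <;> norm_num
  rcases hbp with hb | hb
  · exfalso
    have h3 := mE_le hw hg J hs.1 hb
    rw [hb] at h2
    linarith
  · refine ⟨hb, le_antisymm ?_ (mE_le hw hg J hs.1 hb)⟩
    rw [hb] at h2
    linarith

/-- almost surely no two configurations in the box have the same energy, unless they agree up to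
a flip of parts -/
lemma no_box_ties (μ : Measure ℝ) [IsProbabilityMeasure μ] (hatom : ∀ x, μ {x} = 0)
    (hw : IsBoundaryTerm n w) :
    ∀ᵐ J ∂(Measure.infinitePi fun _ : Bond d => μ), ∀ T T' : Finset (Fin d → ℤ),
      (∃ e, InBox n e ∧ bp (cfg T) e ≠ bp (cfg T') e) →
        boxEnergy n w J (cfg T) ≠ boxEnergy n w J (cfg T') := by
  refine ae_all_iff.2 fun T => ae_all_iff.2 fun T' => ?_
  by_cases hex : ∃ e, InBox n e ∧ bp (cfg T) e ≠ bp (cfg T') e
  · obtain ⟨g, hg, hgne⟩ := hex
    have hm : MeasurableSet {J : Bond d → ℝ |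
        boxEnergy n w J (cfg T) = boxEnergy n w J (cfg T')} :=
      measurableSet_eq_fun (measurable_boxEnergy hw _) (measurable_boxEnergy hw _)
    have h2 := null_of_sections μ (g := g) hm (fun J => by
      refine measure_mono_null (t := {(boxEnergy n w (Function.update J g 0) (cfg T) -
        boxEnergy n w (Function.update J g 0) (cfg T')) / (bp (cfg T) g - bp (cfg T') g)}) ?_
        (hatom _)
      intro x hx
      have hx' : boxEnergy n w (Function.update J g x) (cfg T) =
        boxEnergy n w (Function.update J g x) (cfg T') := hx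
      rw [energy_upd hw hg J x, energy_upd hw hg J x] at hx'
      rw [Set.mem_singleton_iff, eq_div_iff (sub_ne_zero.2 hgne)]
      linarith)
    filter_upwards [measure_eq_zero_iff_ae_notMem.1 h2] with J hJ _
    exact hJ
  · exact Eventually.of_forall fun J h => absurd h hex

/-- stability of the ground states on both sides of the critical value -/
lemma box_stable (μ : Measure ℝ) [IsProbabilityMeasure μ] (hatom : ∀ x, μ {x} = 0)
    (hw : IsBoundaryTerm n w) {g : Bond d} (hg : InBox n g) :
    ∀ᵐ J ∂(Measure.infinitePi fun _ : Bond d => μ), ∀ (x : ℝ) (s s' : (Fin d → ℤ) → ℝ),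
      IsBoxGroundState n w J s → IsBoxGroundState n w (Function.update J g x) s' →
      ((crit n w g J < J g ∧ crit n w g J < x) ∨ (J g < crit n w g J ∧ x < crit n w g J)) →
      ∀ e, InBox n e → bp s e = bp s' e := by
  filter_upwards [no_box_ties μ hatom hw] with J hJ x s s' hs hs' hx e he
  have hs0 : IsBoxGroundState n w (Function.update J g (J g)) s := by
    rwa [Function.update_eq_self]
  have key : boxEnergy n w J s = boxEnergy n w J s' := by
    have e1 := energy_upd hw hg J (J g) s
    have e2 := energy_upd hw hg J (J g) s'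
    rw [Function.update_eq_self] at e1 e2
    rcases hx with ⟨h1, h2⟩ | ⟨h1, h2⟩
    · obtain ⟨a1, a2⟩ := gs_above hw hg hs0 h1
      obtain ⟨b1, b2⟩ := gs_above hw hg hs' h2
      rw [e1, e2, a1, a2, b1, b2]
    · obtain ⟨a1, a2⟩ := gs_below hw hg hs0 h1
      obtain ⟨b1, b2⟩ := gs_below hw hg hs' h2
      rw [e1, e2, a1, a2, b1, b2]
  by_contra hne
  refine hJ (rep n s) (rep n s') ⟨e, he, ?_⟩ ?_
  · rwa [bp_cfg_rep hs.1 he, bp_cfg_rep hs'.1 he]
  · rw [energy_cfg_rep hw hs.1, energy_cfg_rep hw hs'.1, key]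

/-- ground states in a box do not lose energy by flips in the interior -/
lemma box_cost (hw : IsBoundaryTerm n w) {J : Bond d → ℝ} {s : (Fin d → ℤ) → ℝ}
    (hs : IsBoxGroundState n w J s) {S : Finset (Fin d → ℤ)}
    (hS : ∀ x ∈ S, ∀ i, 1 ≤ x i ∧ x i + 1 ≤ n) : 0 ≤ cost J s S := by
  have hfl : ∀ x, flip S s x = 1 ∨ flip S s x = -1 := by
    intro x
    unfold flip
    split_ifs
    · rcases hs.1 x with h | h <;> rw [h] <;> norm_num
    · exact hs.1 x
  have h1 := hs.2 (flip S s) hfl
  have h2 : w J (flip S s) = w J s := by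
    refine hw.spins J _ _ fun x _ hxb => ?_
    unfold flip
    rw [if_neg]
    intro hxS
    obtain ⟨i, hi⟩ := hxb
    have := hS x hxS i
    rcases hi with h | h <;> rw [h] at this <;> omega
  rw [boxEnergy_eq, boxEnergy_eq, h2] at h1
  have hsub : bd S ⊆ bx d n := by
    intro e he
    rw [mem_bx]
    rw [mem_bd] at he
    have hstep : ∀ x : Fin d → ℤ, ∀ j i : Fin d, (x + (Pi.single j (1 : ℤ) : Fin d → ℤ)) i = x i ∨
        (x + (Pi.single j (1 : ℤ) : Fin d → ℤ)) i = x i + 1 := by
      intro x j i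
      rw [Pi.add_apply]
      by_cases h : i = j
      · subst h; right; rw [Pi.single_eq_same]
      · left; rw [Pi.single_eq_of_ne h, add_zero]
    rcases Classical.em (e.1 ∈ S) with h | h
    · refine ⟨fun i => ?_, fun i => ?_⟩
      · have := hS _ h i
        constructor <;> omega
      · have := hS _ h i
        have h3 := hstep e.1 e.2 i
        unfold other
        constructor <;> rcases h3 with h3 | h3 <;> rw [h3] <;> omega
    · have h4 : other e ∈ S := by
        by_contra hc
        exact he ⟨fun hx => absurd hx h, fun hx => absurd hx hc⟩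
      refine ⟨fun i => ?_, fun i => ?_⟩
      · have := hS _ h4 i
        have h3 := hstep e.1 e.2 i
        unfold other at this
        constructor <;> rcases h3 with h3 | h3 <;> rw [h3] at this <;> omega
      · have := hS _ h4 i
        constructor <;> omega
  have h3 : ∑ e ∈ bx d n, J e * bp (flip S s) e = ∑ e ∈ bx d n, J e * bp s e -
      ∑ e ∈ bd S, 2 * (J e * bp s e) := by
    have h4 : ∑ e ∈ bd S, 2 * (J e * bp s e) =
        ∑ e ∈ bx d n, if e ∈ bd S then 2 * (J e * bp s e) else 0 := by
      rw [← Finset.sum_filter]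
      congr 1
      ext e
      rw [Finset.mem_filter]
      exact ⟨fun h => ⟨hsub h, h⟩, fun h => h.2⟩
    rw [h4, ← Finset.sum_sub_distrib]
    refine Finset.sum_congr rfl fun e _ => ?_
    rw [bp_flip]
    split_ifs <;> ring
  rw [h3] at h1
  rw [cost_eq]
  linarith

end Pool.Agent.Helper38.EB
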