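import Pool.Agent.Helper38.EB.B9

/-!
# Limit laws along subsequences of boxes
-/

set_option autoImplicit false
set_option linter.unusedSectionVars false
set_option synthInstance.maxSize 2000

open MeasureTheory Filter Topology ProbabilityTheory BoundedContinuousFunction

open scoped ENNReal

namespace Pool.Agent.Helper38.EB

variable {d : ℕ}

/-- the mean of a function over the translations of the box -/
noncomputable def bav (μ : Measure ℝ) [IsProbabilityMeasure μ]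
    (s t : (Bond d → ℝ) → (Fin d → ℤ) → ℝ) (n : ℕ) (f : Om d → ℝ) : ℝ :=
  (∑ a ∈ Fintype.piFinset fun _ : Fin d => Finset.Ico (0 : ℤ) n,
    ∫ J, f (sh a (J, (s J, t J))) ∂(Measure.infinitePi fun _ : Bond d => μ)) / (n : ℝ) ^ d

/-- limit laws -/
def IsLim (μ : Measure ℝ) [IsProbabilityMeasure μ] (σ τ : ℕ → (Bond d → ℝ) → (Fin d → ℤ) → ℝ)
    (m : ℕ → ℕ) (M : Measure (Om d)) : Prop :=
  IsProbabilityMeasure M ∧ ∀ f : Om d →ᵇ ℝ,
    Tendsto (fun k => bav μ (σ (m k)) (τ (m k)) (m k) f) atTop (𝓝 (∫ ω, f ω ∂M))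

variable (μ : Measure ℝ) [IsProbabilityMeasure μ]
  {w w' : ℕ → (Bond d → ℝ) → ((Fin d → ℤ) → ℝ) → ℝ}
  {σ τ : ℕ → (Bond d → ℝ) → (Fin d → ℤ) → ℝ}

lemma bav_eq (hσ : IsFamily μ w σ) (hτ : IsFamily μ w' τ) (n : ℕ) (f : Om d →ᵇ ℝ) :
    bav μ (σ n) (τ n) n f = ∫ ω, f ω ∂(MM μ σ τ n) := by
  have hdm : ∀ a, Measurable (dat a (σ n) (τ n)) := fun a =>
    measurable_dat a (hσ.measurable n) (hτ.measurable n)
  have hpr : ∀ a, IsProbabilityMeasure ((PP μ d).map (dat a (σ n) (τ n))) := fun a =>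
    Measure.isProbabilityMeasure_map (hdm a).aemeasurable
  unfold MM
  rw [avg_integral fun a _ => f.integrable _]
  unfold bav
  congr 1
  refine Finset.sum_congr rfl fun a _ => ?_
  rw [integral_map (hdm a).aemeasurable f.continuous.aestronglyMeasurable]
  rfl

lemma exists_limit (hσ : IsFamily μ w σ) (hτ : IsFamily μ w' τ) {m : ℕ → ℕ} (hm : StrictMono m) :
    ∃ φ : ℕ → ℕ, StrictMono φ ∧ ∃ M : Measure (Om d), IsLim μ σ τ (m ∘ φ) M := by
  have hn : ∀ k, 1 ≤ m (k + 1) := fun k => by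
    have h : m k < m (k + 1) := hm (Nat.lt_succ_self k)
    omega
  obtain ⟨M, φ, hφ, hM⟩ := MP_sub μ hσ hτ (fun k => m (k + 1)) hn
  refine ⟨fun k => φ k + 1, fun a b h => by
    have := hφ h
    simpa using this, (M : Measure (Om d)), inferInstance, fun f => ?_⟩
  have h1 := ProbabilityMeasure.tendsto_iff_forall_integral_tendsto.1 hM f
  refine h1.congr fun k => ?_
  exact (bav_eq μ hσ hτ (m (φ k + 1)) f).symm

theorem limit_main (hd : 1 ≤ d) (hatom : ∀ x, μ {x} = 0) (hσ : IsFamily μ w σ)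
    (hτ : IsFamily μ w' τ) {m : ℕ → ℕ} (hm : StrictMono m) {M : Measure (Om d)}
    (hM : IsLim μ σ τ m M) :
    M.map Prod.fst = (Measure.infinitePi fun _ : Bond d => μ) ∧
    ∀ᵐ ω ∂M, IsGroundState ω.1 ω.2.1 ∧ IsGroundState ω.1 ω.2.2 ∧
      (ω.2.2 = ω.2.1 ∨ ω.2.2 = -ω.2.1 ∨
        (InfiniteBarrier ω.1 ω.2.1 ω.2.2 ∧ InfiniteBarrier ω.1 ω.2.2 ω.2.1)) := by
  obtain ⟨hprob, hlim⟩ := hM
  have hn : ∀ k, 1 ≤ m (k + 1) := fun k => by
    have h : m k < m (k + 1) := hm (Nat.lt_succ_self k)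
    omega
  have hM' : Tendsto (MP μ hσ hτ (fun k => m (k + 1)) hn) atTop
      (𝓝 (⟨M, hprob⟩ : ProbabilityMeasure (Om d))) := by
    refine ProbabilityMeasure.tendsto_iff_forall_integral_tendsto.2 fun f => ?_
    have h1 := (tendsto_add_atTop_iff_nat 1).2 (hlim f)
    refine h1.congr fun k => ?_
    exact bav_eq μ hσ hτ (m (k + 1)) f
  have ht : Tendsto (fun k => m (k + 1)) atTop atTop :=
    hm.tendsto_atTop.comp (tendsto_add_atTop_nat 1)
  exact ⟨limit_fst μ hσ hτ _ hn _ hM', limit_all μ hd hatom hσ hτ _ hn ht _ hM'⟩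

end Pool.Agent.Helper38.EB
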