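import Pool.Agent.Helper38.EB.B1

/-!
# Flexibility of a law from a joint law
-/

set_option autoImplicit false
set_option linter.unusedSectionVars false

open MeasureTheory Filter Topology ProbabilityTheory

namespace Pool.Agent.Helper38.EB

variable {d : ℕ}

/-- global flip -/
def gf (b : Bool) (σ : (Fin d → ℤ) → ℝ) : (Fin d → ℤ) → ℝ := if b = true then -σ else σ

/-- global flips of both configurations -/
def fl (p : Bool × Bool) (ω : Om d) : Om d := (ω.1, (gf p.1 ω.2.1, gf p.2 ω.2.2))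

lemma gf_gf (a b : Bool) (σ : (Fin d → ℤ) → ℝ) : gf a (gf b σ) = gf (xor a b) σ := by
  unfold gf
  cases a <;> cases b <;> simp

lemma fl_fl (p q : Bool × Bool) (ω : Om d) : fl p (fl q ω) = fl (xor p.1 q.1, xor p.2 q.2) ω := by
  unfold fl
  simp only [gf_gf]

lemma measurable_gf (a : Bool) : Measurable (gf (d := d) a) := by
  unfold gf
  cases a
  · simp only [Bool.false_eq_true, if_false]; exact measurable_id
  · simp only [if_true]; exact measurable_neg

lemma measurable_fl (p : Bool × Bool) : Measurable (fl (d := d) p) :=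
  measurable_fst.prodMk (((measurable_gf p.1).comp (measurable_fst.comp measurable_snd)).prodMk
    ((measurable_gf p.2).comp (measurable_snd.comp measurable_snd)))

lemma upd_fl (p : Bool × Bool) (g : Bond d) (x : ℝ) (ω : Om d) :
    upd g x (fl p ω) = fl p (upd g x ω) := rfl

lemma sh_fl (p : Bool × Bool) (a : Fin d → ℤ) (ω : Om d) : sh a (fl p ω) = fl p (sh a ω) := by
  unfold sh fl shS gf
  obtain ⟨p1, p2⟩ := p
  cases p1 <;> cases p2 <;> rfl

/-- symmetrisation under global flips -/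
noncomputable def Msym (M : Measure (Om d)) : Measure (Om d) :=
  ∑ p : Bool × Bool, M.map (fl p)

instance (M : Measure (Om d)) [IsFiniteMeasure M] : IsFiniteMeasure (Msym M) := by
  unfold Msym
  infer_instance

lemma Msym_zero {M : Measure (Om d)} {N : Set (Om d)} (hN : MeasurableSet N) :
    Msym M N = 0 ↔ ∀ p, M (fl p ⁻¹' N) = 0 := by
  unfold Msym
  rw [Measure.finsetSum_apply, Finset.sum_eq_zero_iff]
  refine ⟨fun h p => ?_, fun h p _ => ?_⟩
  · have := h p (Finset.mem_univ _)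
    rwa [Measure.map_apply (measurable_fl p) hN] at this
  · rw [Measure.map_apply (measurable_fl p) hN]
    exact h p

lemma ae_Msym {M : Measure (Om d)} {p : Om d → Prop}
    (h : ∀ᵐ ω ∂M, ∀ q, p (fl q ω)) (hp : MeasurableSet {ω | p ω}) : ∀ᵐ ω ∂(Msym M), p ω := by
  change Msym M {ω | p ω}ᶜ = 0
  rw [Msym_zero hp.compl]
  intro q
  refine measure_mono_null ?_ (ae_iff.1 h)
  intro ω hω hc
  exact hω (hc q)

lemma of_ae_Msym {M : Measure (Om d)} {p : Om d → Prop}
    (h : ∀ᵐ ω ∂(Msym M), p ω) : ∀ᵐ ω ∂M, p ω := by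
  obtain ⟨t, ht1, ht2, ht3⟩ := exists_measurable_superset_of_null (ae_iff.1 h)
  rw [Msym_zero ht2] at ht3
  have h1 := ht3 (false, false)
  have h2 : fl (false, false) ⁻¹' t = t := by
    ext ω
    have : fl (false, false) ω = ω := by
      unfold fl gf
      simp
    rw [Set.mem_preimage, this]
  rw [h2] at h1
  exact measure_mono_null ht1 h1

/-- the joint space: couplings, a value, two pairs of configurations, two critical values -/
abbrev Z (d : ℕ) : Type := ((Bond d → ℝ) × ℝ) × (((((Fin d → ℤ) → ℝ) × ((Fin d → ℤ) → ℝ)) ×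
  (((Fin d → ℤ) → ℝ) × ((Fin d → ℤ) → ℝ))) × (ℝ × ℝ))

/-- the data before the change -/
def om (z : Z d) : Om d := (z.1.1, z.2.1.1)

/-- the data after the change -/
def om' (g : Bond d) (z : Z d) : Om d := (Function.update z.1.1 g z.1.2, z.2.1.2)

/-- the data before the change, with the critical values -/
def oc (z : Z d) : Om d × (ℝ × ℝ) := (om z, z.2.2)

lemma measurable_om : Measurable (om (d := d)) :=
  (measurable_fst.comp measurable_fst).prodMk (measurable_fst.comp (measurable_fst.comp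
    measurable_snd))

lemma measurable_om' (g : Bond d) : Measurable (om' (d := d) g) :=
  ((measurable_upd g).comp measurable_fst).prodMk (measurable_snd.comp (measurable_fst.comp
    measurable_snd))

lemma measurable_oc : Measurable (oc (d := d)) :=
  measurable_om.prodMk (measurable_snd.comp measurable_snd)

/-- both numbers are on the same side of `u` -/
def Same (a b u : ℝ) : Prop := (u < a ∧ u < b) ∨ (a < u ∧ b < u)

lemma same_near {y u : ℝ} (h : Real.arctan y ≠ u) :
    ∃ r : ℝ, 0 < r ∧ ∀ x, |x - y| < r → Same (Real.arctan y) (Real.arctan x) u := by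
  rcases lt_or_gt_of_ne h with h | h
  · obtain ⟨r, hr, hr2⟩ := Metric.continuousAt_iff.1 Real.continuous_arctan.continuousAt
      (u - Real.arctan y) (sub_pos.2 h)
    refine ⟨r, hr, fun x hx => Or.inr ⟨h, ?_⟩⟩
    have := hr2 (x := x) (by rw [Real.dist_eq]; exact hx)
    rw [Real.dist_eq] at this
    have := (abs_lt.1 this).2
    linarith
  · obtain ⟨r, hr, hr2⟩ := Metric.continuousAt_iff.1 Real.continuous_arctan.continuousAt
      (Real.arctan y - u) (sub_pos.2 h)
    refine ⟨r, hr, fun x hx => Or.inl ⟨h, ?_⟩⟩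
    have := hr2 (x := x) (by rw [Real.dist_eq]; exact hx)
    rw [Real.dist_eq] at this
    have := (abs_lt.1 this).1
    linarith

lemma measurableSet_same {X : Type*} [MeasurableSpace X] {a b u : X → ℝ} (ha : Measurable a)
    (hb : Measurable b) (hu : Measurable u) : MeasurableSet {x | Same (a x) (b x) (u x)} :=
  ((measurableSet_lt hu ha).inter (measurableSet_lt hu hb)).union
    ((measurableSet_lt ha hu).inter (measurableSet_lt hb hu))

/-- **Flexibility.** -/
theorem flex_of_joint (μ : Measure ℝ) [IsProbabilityMeasure μ] (g : Bond d) (M : Measure (Om d))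
    (Q : Measure (Z d)) [IsProbabilityMeasure Q]
    (h1 : Q.map om = M) (h2 : Q.map (om' g) = M)
    (hval : ∀ᵐ z ∂Q, (∀ x, z.2.1.1.1 x = 1 ∨ z.2.1.1.1 x = -1) ∧
      (∀ x, z.2.1.1.2 x = 1 ∨ z.2.1.1.2 x = -1) ∧
      (∀ x, z.2.1.2.1 x = 1 ∨ z.2.1.2.1 x = -1) ∧ ∀ x, z.2.1.2.2 x = 1 ∨ z.2.1.2.2 x = -1)
    (hind : Q.map (fun z => (oc z, z.1.2)) = (Q.map oc).prod μ)
    (hne : ∀ᵐ z ∂Q, Real.arctan (z.1.1 g) ≠ z.2.2.1 ∧ Real.arctan (z.1.1 g) ≠ z.2.2.2)
    (hst : ∀ᵐ z ∂Q, (Same (Real.arctan (z.1.1 g)) (Real.arctan z.1.2) z.2.2.1 →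
        ∀ e, bp z.2.1.1.1 e = bp z.2.1.2.1 e) ∧
      (Same (Real.arctan (z.1.1 g)) (Real.arctan z.1.2) z.2.2.2 →
        ∀ e, bp z.2.1.1.2 e = bp z.2.1.2.2 e))
    (N : Set (Om d)) (hN : Msym M N = 0) :
    ∀ᵐ ω ∂(Msym M), ∃ r : ℝ, 0 < r ∧ ∀ᵐ x ∂μ, |x - ω.1 g| < r → upd g x ω ∉ N := by
  obtain ⟨N1, hN1, hN1m, hN10⟩ := exists_measurable_superset_of_null hN
  rw [Msym_zero hN1m] at hN10
  set N2 : Set (Om d) := ⋃ p : Bool × Bool, fl p ⁻¹' N1 with hN2
  have hN2m : MeasurableSet N2 := MeasurableSet.iUnion fun p => measurable_fl p hN1m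
  have hN20 : M N2 = 0 := measure_iUnion_null hN10
  have hN2f : ∀ (p : Bool × Bool) (ω : Om d), ω ∈ N2 → fl p ω ∈ N2 := by
    intro p ω hω
    rw [hN2, Set.mem_iUnion] at hω ⊢
    obtain ⟨q, hq⟩ := hω
    refine ⟨(xor q.1 p.1, xor q.2 p.2), ?_⟩
    rw [Set.mem_preimage, fl_fl]
    simp only [Bool.xor_assoc, Bool.xor_self, Bool.xor_false]
    exact hq
  -- the bad set
  set Bad : Set ((Om d × (ℝ × ℝ)) × ℝ) :=
    {y | (Same (Real.arctan (y.1.1.1 g)) (Real.arctan y.2) y.1.2.1 ∧
      Same (Real.arctan (y.1.1.1 g)) (Real.arctan y.2) y.1.2.2) ∧ upd g y.2 y.1.1 ∈ N2} with hBad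
  have hBm : MeasurableSet Bad := by
    refine MeasurableSet.inter (MeasurableSet.inter ?_ ?_) ?_
    · exact measurableSet_same (Real.measurable_arctan.comp (by fun_prop))
        (Real.measurable_arctan.comp measurable_snd) (by fun_prop)
    · exact measurableSet_same (Real.measurable_arctan.comp (by fun_prop))
        (Real.measurable_arctan.comp measurable_snd) (by fun_prop)
    · refine hN2m.preimage (f := fun y : (Om d × (ℝ × ℝ)) × ℝ => upd g y.2 y.1.1) ?_
      exact ((measurable_upd g).comp (f := fun y : (Om d × (ℝ × ℝ)) × ℝ => (y.1.1.1, y.2))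
        (by fun_prop)).prodMk (by fun_prop)
  have hmeas : Measurable (fun z : Z d => (oc z, z.1.2)) :=
    measurable_oc.prodMk (by fun_prop)
  have hQ' : ∀ᵐ z ∂Q, om' g z ∉ N2 := by
    have h3 : Q.map (om' g) N2 = 0 := by rw [h2]; exact hN20
    rw [Measure.map_apply (measurable_om' g) hN2m] at h3
    exact measure_eq_zero_iff_ae_notMem.1 h3
  have hB0 : ((Q.map oc).prod μ) Bad = 0 := by
    rw [← hind, Measure.map_apply hmeas hBm]
    refine measure_mono_null ?_ (ae_iff.1 ((hval.and hst).and hQ'))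
    rintro z ⟨⟨hs1, hs2⟩, hz⟩ ⟨⟨⟨v1, v2, v3, v4⟩, s1, s2⟩, hc⟩
    apply hc
    have e1 := eq_or_neg v1 v3 (s1 hs1)
    have e2 := eq_or_neg v2 v4 (s2 hs2)
    have e3 : ∃ p : Bool × Bool, om' g z = fl p (upd g z.1.2 (om z)) := by
      rcases e1 with e1 | e1 <;> rcases e2 with e2 | e2
      · refine ⟨(false, false), ?_⟩
        unfold om' fl upd om gf
        simp only [Bool.false_eq_true, if_false]
        exact Prod.ext rfl (Prod.ext e1 e2)
      · refine ⟨(false, true), ?_⟩
        unfold om' fl upd om gf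
        simp only [Bool.false_eq_true, if_false, if_true]
        exact Prod.ext rfl (Prod.ext e1 e2)
      · refine ⟨(true, false), ?_⟩
        unfold om' fl upd om gf
        simp only [Bool.false_eq_true, if_false, if_true]
        exact Prod.ext rfl (Prod.ext e1 e2)
      · refine ⟨(true, true), ?_⟩
        unfold om' fl upd om gf
        simp only [if_true]
        exact Prod.ext rfl (Prod.ext e1 e2)
    obtain ⟨p, hp⟩ := e3
    rw [hp]
    exact hN2f p _ hz
  have hB1 : ∀ᵐ y ∂(Q.map oc), ∀ᵐ x ∂μ, (y, x) ∉ Bad :=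
    Measure.ae_ae_of_ae_prod (measure_eq_zero_iff_ae_notMem.1 hB0)
  have hB2 := ae_of_ae_map measurable_oc.aemeasurable hB1
  -- the good set
  set G : Set (Om d) := {ω | ∃ n : ℕ, μ {x | |x - ω.1 g| < 1 / ((n : ℝ) + 1) ∧
    upd g x ω ∈ N2} = 0} with hG
  have hGm : MeasurableSet G := by
    have hGe : G = ⋃ n : ℕ, {ω : Om d | μ {x | |x - ω.1 g| < 1 / ((n : ℝ) + 1) ∧
        upd g x ω ∈ N2} = 0} := by
      ext ω
      rw [Set.mem_iUnion]
      rfl
    rw [hGe]
    refine MeasurableSet.iUnion fun n => ?_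
    have h4 : MeasurableSet {y : Om d × ℝ | |y.2 - y.1.1 g| < 1 / ((n : ℝ) + 1) ∧
        upd g y.2 y.1 ∈ N2} := by
      refine MeasurableSet.inter ?_ ?_
      · exact measurableSet_lt (f := fun y : Om d × ℝ => |y.2 - y.1.1 g|) (by fun_prop)
          measurable_const
      · refine hN2m.preimage (f := fun y : Om d × ℝ => upd g y.2 y.1) ?_
        exact ((measurable_upd g).comp (f := fun y : Om d × ℝ => (y.1.1, y.2))
          (by fun_prop)).prodMk (by fun_prop)
    exact (measurable_measure_prodMk_left (ν := μ) h4) (measurableSet_singleton 0)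
  have hG1 : ∀ᵐ ω ∂M, ω ∈ G := by
    rw [← h1]
    refine (ae_map_iff (p := fun ω => ω ∈ G) measurable_om.aemeasurable hGm).2 ?_
    filter_upwards [hB2, hne] with z hz1 hz2
    obtain ⟨r1, hr1, hs1⟩ := same_near hz2.1
    obtain ⟨r2, hr2, hs2⟩ := same_near hz2.2
    obtain ⟨n, hn⟩ := exists_nat_one_div_lt (lt_min hr1 hr2)
    refine ⟨n, measure_mono_null ?_ (ae_iff.1 hz1)⟩
    rintro x ⟨hx1, hx2⟩ hc
    exact hc ⟨⟨hs1 x ((hx1.trans hn).trans_le (min_le_left _ _)),
      hs2 x ((hx1.trans hn).trans_le (min_le_right _ _))⟩, hx2⟩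
  have hGf : ∀ (ω : Om d) (p : Bool × Bool), ω ∈ G → fl p ω ∈ G := by
    rintro ω p ⟨n, hn⟩
    refine ⟨n, measure_mono_null ?_ hn⟩
    rintro x ⟨hx1, hx2⟩
    refine ⟨hx1, ?_⟩
    have h5 := hN2f p _ hx2
    rw [upd_fl, fl_fl] at h5
    simp only [Bool.xor_self] at h5
    have h6 : fl (false, false) (upd g x ω) = upd g x ω := by
      unfold fl gf
      simp
    rwa [h6] at h5
  have hG2 : ∀ᵐ ω ∂(Msym M), ω ∈ G := by
    refine ae_Msym ?_ hGm
    filter_upwards [hG1] with ω hω p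
    exact hGf ω p hω
  filter_upwards [hG2] with ω hω
  obtain ⟨n, hn⟩ := hω
  refine ⟨1 / ((n : ℝ) + 1), by positivity, ?_⟩
  have h7 : ∀ᵐ x ∂μ, ¬ (|x - ω.1 g| < 1 / ((n : ℝ) + 1) ∧ upd g x ω ∈ N2) :=
    measure_eq_zero_iff_ae_notMem.1 hn
  filter_upwards [h7] with x hx hxr hxN
  refine hx ⟨hxr, ?_⟩
  rw [hN2, Set.mem_iUnion]
  refine ⟨(false, false), ?_⟩
  have h6 : fl (false, false) (upd g x ω) = upd g x ω := by
    unfold fl gf
    simp
  rw [Set.mem_preimage, h6]
  exact hN1 hxN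

end Pool.Agent.Helper38.EB
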