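import Pool.Agent.Helper38.EB.B2

/-!
# Averages over the translations
-/

set_option autoImplicit false
set_option linter.unusedSectionVars false

open MeasureTheory Filter Topology ProbabilityTheory

open scoped ENNReal

namespace Pool.Agent.Helper38.EB

/-- the translations -/
noncomputable def An (d n : ℕ) : Finset (Fin d → ℤ) :=
  Fintype.piFinset fun _ : Fin d => Finset.Ico (0 : ℤ) n

lemma card_An (d n : ℕ) : (An d n).card = n ^ d := by
  unfold An
  rw [Fintype.card_piFinset]
  simp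

/-- the good translations, far from the boundary of the box -/
noncomputable def Gd (d R n : ℕ) : Finset (Fin d → ℤ) :=
  Fintype.piFinset fun _ : Fin d => Finset.Ico (R : ℤ) (n - R : ℤ)

lemma mem_Gd {d R n : ℕ} {a : Fin d → ℤ} : a ∈ Gd d R n ↔ ∀ i, (R : ℤ) ≤ a i ∧ a i < n - R := by
  unfold Gd
  rw [Fintype.mem_piFinset]
  simp only [Finset.mem_Ico]

lemma Gd_sub (d R n : ℕ) : Gd d R n ⊆ An d n := by
  intro a ha
  rw [mem_Gd] at ha
  unfold An
  rw [Fintype.mem_piFinset]
  intro i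
  rw [Finset.mem_Ico]
  have := ha i
  constructor <;> omega

open Classical in
/-- the fraction of the bad translations -/
noncomputable def bf (d R n : ℕ) : ℝ := ((An d n \ Gd d R n).card : ℝ) / (n : ℝ) ^ d

lemma bf_tendsto (d R : ℕ) : Tendsto (bf d R) atTop (𝓝 0) := by
  classical
  have h1 : ∀ᶠ n : ℕ in atTop, bf d R n = 1 - ((1 : ℝ) - 2 * R * (1 / (n : ℝ))) ^ d := by
    filter_upwards [eventually_ge_atTop (2 * R + 1)] with n hn
    unfold bf
    rw [Finset.card_sdiff_of_subset (Gd_sub d R n), Nat.cast_sub (Finset.card_le_card (Gd_sub d R n)),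
      card_An]
    have h2 : (Gd d R n).card = (n - 2 * R) ^ d := by
      unfold Gd
      rw [Fintype.card_piFinset]
      simp only [Int.card_Ico, Finset.prod_const, Finset.card_univ, Fintype.card_fin]
      congr 1
      omega
    have hn0 : (0 : ℝ) < n := by
      have : 0 < n := by omega
      exact_mod_cast this
    rw [h2]
    push_cast
    rw [Nat.cast_sub (by omega), sub_div, div_self (by positivity), ← div_pow]
    push_cast
    congr 2
    field_simp
  have h3 : Tendsto (fun n : ℕ => 1 - ((1 : ℝ) - 2 * R * (1 / (n : ℝ))) ^ d) atTop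
      (𝓝 (1 - ((1 : ℝ) - 2 * R * 0) ^ d)) :=
    tendsto_const_nhds.sub ((tendsto_const_nhds.sub
      (tendsto_const_nhds.mul tendsto_one_div_atTop_nhds_zero_nat)).pow d)
  have h4 : (1 : ℝ) - ((1 : ℝ) - 2 * R * 0) ^ d = 0 := by simp
  rw [h4] at h3
  exact h3.congr' (h1.mono fun n hn => hn.symm)

/-- the average of measures over the translations -/
noncomputable def avg (d n : ℕ) {X : Type*} [MeasurableSpace X] (ν : (Fin d → ℤ) → Measure X) :
    Measure X :=
  ((An d n).card : ℝ≥0∞)⁻¹ • ∑ a ∈ An d n, ν a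

section avg

variable {d n : ℕ} {X Y : Type*} [MeasurableSpace X] [MeasurableSpace Y]

lemma card_ne (hn : 1 ≤ n) : ((An d n).card : ℝ≥0∞) ≠ 0 := by
  rw [card_An]
  have : n ^ d ≠ 0 := pow_ne_zero _ (by omega)
  exact_mod_cast this

lemma avg_const (hn : 1 ≤ n) {ν : (Fin d → ℤ) → Measure X} {ρ : Measure X}
    (h : ∀ a ∈ An d n, ν a = ρ) : avg d n ν = ρ := by
  unfold avg
  rw [Finset.sum_congr rfl h, Finset.sum_const, ← Nat.cast_smul_eq_nsmul ℝ≥0∞, smul_smul,
    ENNReal.inv_mul_cancel (card_ne hn) (ENNReal.natCast_ne_top _), one_smul]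

lemma avg_map {ν : (Fin d → ℤ) → Measure X} {f : X → Y} (hf : Measurable f) :
    (avg d n ν).map f = avg d n fun a => (ν a).map f := by
  unfold avg
  rw [Measure.map_smul, Measure.map_finset_sum hf.aemeasurable]

lemma avg_apply (ν : (Fin d → ℤ) → Measure X) (B : Set X) :
    avg d n ν B = ((An d n).card : ℝ≥0∞)⁻¹ * ∑ a ∈ An d n, ν a B := by
  unfold avg
  rw [Measure.smul_apply, Measure.finsetSum_apply, smul_eq_mul]

lemma avg_prob (hn : 1 ≤ n) {ν : (Fin d → ℤ) → Measure X}
    (h : ∀ a ∈ An d n, IsProbabilityMeasure (ν a)) : IsProbabilityMeasure (avg d n ν) := by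
  refine ⟨?_⟩
  rw [avg_apply]
  have : ∑ a ∈ An d n, ν a Set.univ = (An d n).card := by
    rw [Finset.sum_congr rfl fun a ha => (h a ha).measure_univ]
    simp
  rw [this, ENNReal.inv_mul_cancel (card_ne hn) (ENNReal.natCast_ne_top _)]

lemma avg_prod {ν : (Fin d → ℤ) → Measure X} [∀ a, IsFiniteMeasure (ν a)] (ρ : Measure Y)
    [IsProbabilityMeasure ρ] :
    (avg d n ν).prod ρ = avg d n fun a => (ν a).prod ρ := by
  ext B hB
  rw [avg_apply, Measure.prod_apply hB]
  unfold avg
  rw [lintegral_smul_measure, lintegral_finsetSum_measure]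
  simp only [smul_eq_mul]
  congr 1
  exact Finset.sum_congr rfl fun a _ => (Measure.prod_apply hB).symm

lemma prod_avg {ν : (Fin d → ℤ) → Measure X} [∀ a, IsFiniteMeasure (ν a)] (ρ : Measure Y)
    [IsProbabilityMeasure ρ] :
    ρ.prod (avg d n ν) = avg d n fun a => ρ.prod (ν a) := by
  by_cases hA : ((An d n).card : ℝ≥0∞) = 0
  · have hA' : An d n = ∅ := by
      rw [← Finset.card_eq_zero]; exact_mod_cast hA
    unfold avg
    rw [hA']
    simp
  have hfin : IsFiniteMeasure (avg d n ν) := by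
    refine ⟨?_⟩
    rw [avg_apply]
    refine ENNReal.mul_lt_top (ENNReal.inv_lt_top.2 (pos_iff_ne_zero.2 hA)) ?_
    exact ENNReal.sum_lt_top.2 fun a _ => measure_lt_top _ _
  rw [← Measure.prod_swap, avg_prod, avg_map measurable_swap]
  congr 1
  funext a
  exact Measure.prod_swap

lemma ae_avg {ν : (Fin d → ℤ) → Measure X} {p : X → Prop}
    (h : ∀ a ∈ An d n, ∀ᵐ x ∂(ν a), p x) : ∀ᵐ x ∂(avg d n ν), p x := by
  rw [ae_iff, avg_apply]
  rw [Finset.sum_eq_zero fun a ha => ae_iff.1 (h a ha), mul_zero]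

lemma avg_bad (hn : 1 ≤ n) {ν : (Fin d → ℤ) → Measure X} [∀ a, IsProbabilityMeasure (ν a)]
    {B : Set X} (R : ℕ) (h : ∀ a ∈ Gd d R n, ν a B = 0) :
    avg d n ν B ≤ ENNReal.ofReal (bf d R n) := by
  classical
  rw [avg_apply]
  have h1 : ∑ a ∈ An d n, ν a B ≤ (An d n \ Gd d R n).card := by
    rw [← Finset.sum_sdiff (Gd_sub d R n), Finset.sum_eq_zero h, add_zero]
    refine (Finset.sum_le_sum fun a _ => prob_le_one).trans ?_
    simp
  have hn0 : (0 : ℝ) < (n : ℝ) ^ d := by
    have : (0 : ℝ) < n := by exact_mod_cast (by omega : 0 < n)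
    positivity
  calc ((An d n).card : ℝ≥0∞)⁻¹ * ∑ a ∈ An d n, ν a B
      ≤ ((An d n).card : ℝ≥0∞)⁻¹ * (An d n \ Gd d R n).card := by gcongr
    _ = ENNReal.ofReal (bf d R n) := by
      unfold bf
      rw [ENNReal.ofReal_div_of_pos hn0, ENNReal.ofReal_natCast, card_An, div_eq_mul_inv, mul_comm]
      congr 2
      rw [← ENNReal.ofReal_natCast]
      push_cast
      rfl

lemma avg_integral {ν : (Fin d → ℤ) → Measure X} {f : X → ℝ}
    (hf : ∀ a ∈ An d n, Integrable f (ν a)) :
    ∫ x, f x ∂(avg d n ν) = (∑ a ∈ An d n, ∫ x, f x ∂(ν a)) / (n : ℝ) ^ d := by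
  unfold avg
  rw [integral_smul_measure, integral_finsetSum_measure hf, card_An, ENNReal.toReal_inv]
  simp only [ENNReal.toReal_natCast, smul_eq_mul]
  push_cast
  rw [div_eq_mul_inv, mul_comm]

end avg

end Pool.Agent.Helper38.EB
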