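import Pool.Agent.Helper38.EB.B3

/-!
# The joint laws in finite volume
-/

set_option autoImplicit false
set_option linter.unusedSectionVars false

open MeasureTheory Filter Topology ProbabilityTheory

open scoped ENNReal

namespace Pool.Agent.Helper38.EB

variable {d : ℕ}

/-- a family of ground states in boxes, with boundary terms which do not depend on the couplings -/
structure IsFamily {d : ℕ} (μ : Measure ℝ) [IsProbabilityMeasure μ]
    (w : ℕ → (Bond d → ℝ) → ((Fin d → ℤ) → ℝ) → ℝ)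
    (σ : ℕ → (Bond d → ℝ) → (Fin d → ℤ) → ℝ) : Prop where
  /-- boundary terms -/
  boundary : ∀ n, IsBoundaryTerm n (w n)
  /-- measurability -/
  measurable : ∀ n, Measurable (σ n)
  /-- ground states -/
  ground : ∀ n, ∀ᵐ J ∂(Measure.infinitePi fun _ : Bond d => μ), IsBoxGroundState n (w n) J (σ n J)

/-- the joint data -/
noncomputable def psi (a : Fin d → ℤ) (g : Bond d) (s t : (Bond d → ℝ) → (Fin d → ℤ) → ℝ)
    (c c' : (Bond d → ℝ) → ℝ) (p : (Bond d → ℝ) × ℝ) : Z d :=
  ((shJ a p.1, p.2), (((shS a (s p.1), shS a (t p.1)),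
    (shS a (s (Function.update p.1 (tb a g) p.2)), shS a (t (Function.update p.1 (tb a g) p.2)))),
    (c p.1, c' p.1)))

lemma measurable_shS (a : Fin d → ℤ) : Measurable (shS (d := d) a) := by
  unfold shS; fun_prop

lemma measurable_psi (a : Fin d → ℤ) (g : Bond d) {s t : (Bond d → ℝ) → (Fin d → ℤ) → ℝ}
    {c c' : (Bond d → ℝ) → ℝ} (hs : Measurable s) (ht : Measurable t) (hc : Measurable c)
    (hc' : Measurable c') : Measurable (psi a g s t c c') := by
  unfold psi
  refine Measurable.prodMk (((measurable_shJ a).comp measurable_fst).prodMk measurable_snd)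
    (Measurable.prodMk (Measurable.prodMk ?_ ?_) ((hc.comp measurable_fst).prodMk
      (hc'.comp measurable_fst)))
  · exact ((measurable_shS a).comp (hs.comp measurable_fst)).prodMk
      ((measurable_shS a).comp (ht.comp measurable_fst))
  · exact ((measurable_shS a).comp (hs.comp (measurable_upd _))).prodMk
      ((measurable_shS a).comp (ht.comp (measurable_upd _)))

/-- the translated data of two configurations -/
def dat (a : Fin d → ℤ) (s t : (Bond d → ℝ) → (Fin d → ℤ) → ℝ) (J : Bond d → ℝ) : Om d :=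
  sh a (J, (s J, t J))

lemma measurable_dat (a : Fin d → ℤ) {s t : (Bond d → ℝ) → (Fin d → ℤ) → ℝ} (hs : Measurable s)
    (ht : Measurable t) : Measurable (dat a s t) :=
  (measurable_sh a).comp (measurable_id.prodMk (hs.prodMk ht))

lemma upd_shJ (a : Fin d → ℤ) (g : Bond d) (J : Bond d → ℝ) (x : ℝ) :
    Function.update (shJ a J) g x = shJ a (Function.update J (tb a g) x) := by
  funext e
  by_cases h : e = g
  · subst h
    rw [Function.update_self]
    change x = Function.update J (tb a e) x (tb a e)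
    rw [Function.update_self]
  · rw [Function.update_of_ne h]
    change J (tb a e) = Function.update J (tb a g) x (tb a e)
    rw [Function.update_of_ne]
    exact fun hc => h ((tb a).injective hc)

section laws

variable (μ : Measure ℝ) [IsProbabilityMeasure μ]

/-- the law of the couplings -/
noncomputable abbrev PP (d : ℕ) : Measure (Bond d → ℝ) := Measure.infinitePi fun _ : Bond d => μ

lemma map_fst_pp {Y : Type*} [MeasurableSpace Y] {f : (Bond d → ℝ) → Y} (hf : Measurable f) :
    ((PP μ d).prod μ).map (fun p => f p.1) = (PP μ d).map f := by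
  have h : (fun p : (Bond d → ℝ) × ℝ => f p.1) = f ∘ Prod.fst := rfl
  rw [h, ← Measure.map_map hf measurable_fst, Measure.map_fst_prod, measure_univ, one_smul]

lemma map_upd_pp {Y : Type*} [MeasurableSpace Y] {f : (Bond d → ℝ) → Y} (hf : Measurable f)
    (h : Bond d) :
    ((PP μ d).prod μ).map (fun p => f (Function.update p.1 h p.2)) = (PP μ d).map f := by
  have e : (fun p : (Bond d → ℝ) × ℝ => f (Function.update p.1 h p.2)) =
    f ∘ fun p => Function.update p.1 h p.2 := rfl
  rw [e, ← Measure.map_map hf (measurable_upd h), upd_law]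

lemma ind_pp {Y : Type*} [MeasurableSpace Y] {f : (Bond d → ℝ) → Y} (hf : Measurable f)
    (h : Bond d) (hfh : ∀ J x, f (Function.update J h x) = f J) :
    (PP μ d).map (fun J => (J h, f J)) = μ.prod ((PP μ d).map f) := by
  have h1 := map_upd_pp μ (f := fun J : Bond d → ℝ => (J h, f J))
    ((measurable_pi_apply h).prodMk hf) h
  rw [← h1]
  have e : (fun p : (Bond d → ℝ) × ℝ => ((Function.update p.1 h p.2) h,
      f (Function.update p.1 h p.2))) = Prod.swap ∘ Prod.map f id := by
    funext p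
    rw [hfh, Function.update_self]
    rfl
  rw [e, ← Measure.map_map measurable_swap (hf.prodMap measurable_id)]
  have h2 := Measure.map_prod_map (PP μ d) μ hf measurable_id
  rw [← h2, Measure.map_id, Measure.prod_swap]

lemma map_pair_pp {Y : Type*} [MeasurableSpace Y] {f : (Bond d → ℝ) → Y} (hf : Measurable f) :
    ((PP μ d).prod μ).map (fun p => (f p.1, p.2)) = ((PP μ d).map f).prod μ := by
  have h2 := Measure.map_prod_map (PP μ d) μ hf measurable_id
  rw [Measure.map_id] at h2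
  rw [h2]
  rfl

variable {w w' : ℕ → (Bond d → ℝ) → ((Fin d → ℤ) → ℝ) → ℝ}
  {σ τ : ℕ → (Bond d → ℝ) → (Fin d → ℤ) → ℝ}

/-- the bounded critical value -/
noncomputable def ac (w : ℕ → (Bond d → ℝ) → ((Fin d → ℤ) → ℝ) → ℝ) (n : ℕ) (g : Bond d)
    (J : Bond d → ℝ) : ℝ := Real.arctan (crit n (w n) g J)

lemma measurable_ac (hw : ∀ n, IsBoundaryTerm n (w n)) (n : ℕ) (g : Bond d) :
    Measurable (ac w n g) := Real.measurable_arctan.comp (measurable_crit (hw n) g)

/-- the joint law in the box -/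
noncomputable def QQ (w w' : ℕ → (Bond d → ℝ) → ((Fin d → ℤ) → ℝ) → ℝ)
    (σ τ : ℕ → (Bond d → ℝ) → (Fin d → ℤ) → ℝ) (g : Bond d) (n : ℕ) : Measure (Z d) :=
  avg d n fun a => ((PP μ d).prod μ).map
    (psi a g (σ n) (τ n) (ac w n (tb a g)) (ac w' n (tb a g)))

/-- the averaged law in the box -/
noncomputable def MM (σ τ : ℕ → (Bond d → ℝ) → (Fin d → ℤ) → ℝ) (n : ℕ) : Measure (Om d) :=
  avg d n fun a => (PP μ d).map (dat a (σ n) (τ n))

lemma QQ_prob (hσ : IsFamily μ w σ) (hτ : IsFamily μ w' τ) (g : Bond d) {n : ℕ} (hn : 1 ≤ n) :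
    IsProbabilityMeasure (QQ μ w w' σ τ g n) :=
  avg_prob hn fun a _ => Measure.isProbabilityMeasure_map
    (measurable_psi a g (hσ.measurable n) (hτ.measurable n) (measurable_ac hσ.boundary _ _)
      (measurable_ac hτ.boundary _ _)).aemeasurable

lemma MM_prob (hσ : IsFamily μ w σ) (hτ : IsFamily μ w' τ) {n : ℕ} (hn : 1 ≤ n) :
    IsProbabilityMeasure (MM μ σ τ n) :=
  avg_prob hn fun a _ => Measure.isProbabilityMeasure_map
    (measurable_dat a (hσ.measurable n) (hτ.measurable n)).aemeasurable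

lemma QQ_om (hσ : IsFamily μ w σ) (hτ : IsFamily μ w' τ) (g : Bond d) (n : ℕ) :
    (QQ μ w w' σ τ g n).map om = MM μ σ τ n := by
  unfold QQ MM
  rw [avg_map measurable_om]
  congr 1
  funext a
  rw [Measure.map_map measurable_om (measurable_psi a g (hσ.measurable n) (hτ.measurable n)
    (measurable_ac hσ.boundary _ _) (measurable_ac hτ.boundary _ _))]
  exact map_fst_pp μ (f := dat a (σ n) (τ n))
    (measurable_dat a (hσ.measurable n) (hτ.measurable n))

lemma QQ_om' (hσ : IsFamily μ w σ) (hτ : IsFamily μ w' τ) (g : Bond d) (n : ℕ) :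
    (QQ μ w w' σ τ g n).map (om' g) = MM μ σ τ n := by
  unfold QQ MM
  rw [avg_map (measurable_om' g)]
  congr 1
  funext a
  rw [Measure.map_map (measurable_om' g) (measurable_psi a g (hσ.measurable n) (hτ.measurable n)
    (measurable_ac hσ.boundary _ _) (measurable_ac hτ.boundary _ _))]
  rw [← map_upd_pp μ (f := dat a (σ n) (τ n))
    (measurable_dat a (hσ.measurable n) (hτ.measurable n)) (tb a g)]
  congr 1
  funext p
  unfold om' psi dat sh
  simp only [Function.comp_apply]
  rw [upd_shJ]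

lemma QQ_ind (hσ : IsFamily μ w σ) (hτ : IsFamily μ w' τ) (g : Bond d) (n : ℕ) :
    (QQ μ w w' σ τ g n).map (fun z => (oc z, z.1.2)) = ((QQ μ w w' σ τ g n).map oc).prod μ := by
  unfold QQ
  have hm : Measurable (fun z : Z d => (oc z, z.1.2)) := measurable_oc.prodMk (by fun_prop)
  rw [avg_map hm, avg_map measurable_oc, avg_prod]
  congr 1
  funext a
  have hp := measurable_psi a g (hσ.measurable n) (hτ.measurable n)
    (measurable_ac hσ.boundary n (tb a g)) (measurable_ac hτ.boundary n (tb a g))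
  rw [Measure.map_map hm hp, Measure.map_map measurable_oc hp]
  have hf : Measurable fun J : Bond d → ℝ => (dat a (σ n) (τ n) J,
      (ac w n (tb a g) J, ac w' n (tb a g) J)) :=
    (measurable_dat a (hσ.measurable n) (hτ.measurable n)).prodMk
      ((measurable_ac hσ.boundary _ _).prodMk (measurable_ac hτ.boundary _ _))
  have e1 : oc ∘ psi a g (σ n) (τ n) (ac w n (tb a g)) (ac w' n (tb a g)) =
      fun p => (fun J : Bond d → ℝ => (dat a (σ n) (τ n) J,
      (ac w n (tb a g) J, ac w' n (tb a g) J))) p.1 := rfl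
  rw [e1, map_fst_pp μ hf, ← map_pair_pp μ hf]
  rfl

lemma QQ_crit (hσ : IsFamily μ w σ) (hτ : IsFamily μ w' τ) (g : Bond d) (n : ℕ) :
    (QQ μ w w' σ τ g n).map (fun z => (z.1.1 g, z.2.2)) =
      μ.prod ((QQ μ w w' σ τ g n).map fun z => z.2.2) := by
  unfold QQ
  have hm : Measurable (fun z : Z d => (z.1.1 g, z.2.2)) := by fun_prop
  have hm2 : Measurable (fun z : Z d => z.2.2) := by fun_prop
  rw [avg_map hm, avg_map hm2, prod_avg]
  congr 1
  funext a
  have hp := measurable_psi a g (hσ.measurable n) (hτ.measurable n)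
    (measurable_ac hσ.boundary n (tb a g)) (measurable_ac hτ.boundary n (tb a g))
  rw [Measure.map_map hm hp, Measure.map_map hm2 hp]
  have hf : Measurable fun J : Bond d → ℝ => (ac w n (tb a g) J, ac w' n (tb a g) J) :=
    (measurable_ac hσ.boundary _ _).prodMk (measurable_ac hτ.boundary _ _)
  have e1 : (fun z : Z d => z.2.2) ∘ psi a g (σ n) (τ n) (ac w n (tb a g)) (ac w' n (tb a g)) =
      fun p => (fun J : Bond d → ℝ => (ac w n (tb a g) J, ac w' n (tb a g) J)) p.1 := rfl
  have e2 : (fun z : Z d => (z.1.1 g, z.2.2)) ∘ psi a g (σ n) (τ n) (ac w n (tb a g))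
      (ac w' n (tb a g)) = fun p => (fun J : Bond d → ℝ => (J (tb a g),
        (ac w n (tb a g) J, ac w' n (tb a g) J))) p.1 := rfl
  rw [e1, e2, map_fst_pp μ hf, map_fst_pp μ ((measurable_pi_apply (tb a g)).prodMk hf)]
  refine ind_pp μ hf (tb a g) fun J x => ?_
  unfold ac
  rw [crit_upd, crit_upd]

lemma QQ_val (hσ : IsFamily μ w σ) (hτ : IsFamily μ w' τ) (g : Bond d) (n : ℕ) :
    ∀ᵐ z ∂(QQ μ w w' σ τ g n), (∀ x, z.2.1.1.1 x = 1 ∨ z.2.1.1.1 x = -1) ∧
      (∀ x, z.2.1.1.2 x = 1 ∨ z.2.1.1.2 x = -1) ∧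
      (∀ x, z.2.1.2.1 x = 1 ∨ z.2.1.2.1 x = -1) ∧ ∀ x, z.2.1.2.2 x = 1 ∨ z.2.1.2.2 x = -1 := by
  refine ae_avg fun a _ => ?_
  have hp := measurable_psi a g (hσ.measurable n) (hτ.measurable n)
    (measurable_ac hσ.boundary n (tb a g)) (measurable_ac hτ.boundary n (tb a g))
  have hset : ∀ {f : Z d → (Fin d → ℤ) → ℝ}, Measurable f →
      MeasurableSet {z | ∀ x, f z x = 1 ∨ f z x = -1} := by
    intro f hf
    have : {z | ∀ x, f z x = 1 ∨ f z x = -1} =
        ⋂ x, ({z | f z x = 1} ∪ {z | f z x = -1}) := by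
      ext z
      rw [Set.mem_iInter]
      rfl
    rw [this]
    refine MeasurableSet.iInter fun x => MeasurableSet.union ?_ ?_
    · exact measurableSet_eq_fun ((measurable_pi_apply x).comp hf) measurable_const
    · exact measurableSet_eq_fun ((measurable_pi_apply x).comp hf) measurable_const
  have hmeas : MeasurableSet {z : Z d | (∀ x, z.2.1.1.1 x = 1 ∨ z.2.1.1.1 x = -1) ∧
      (∀ x, z.2.1.1.2 x = 1 ∨ z.2.1.1.2 x = -1) ∧
      (∀ x, z.2.1.2.1 x = 1 ∨ z.2.1.2.1 x = -1) ∧ ∀ x, z.2.1.2.2 x = 1 ∨ z.2.1.2.2 x = -1} :=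
    (hset (f := fun z => z.2.1.1.1) (by fun_prop)).inter
      ((hset (f := fun z => z.2.1.1.2) (by fun_prop)).inter
        ((hset (f := fun z => z.2.1.2.1) (by fun_prop)).inter
          (hset (f := fun z => z.2.1.2.2) (by fun_prop))))
  refine (ae_map_iff hp.aemeasurable hmeas).2 ?_
  have h1 : ∀ᵐ p ∂((PP μ d).prod μ), IsBoxGroundState n (w n) p.1 (σ n p.1) ∧
      IsBoxGroundState n (w' n) p.1 (τ n p.1) := by
    have := ((hσ.ground n).and (hτ.ground n))
    have h2 : (PP μ d) = ((PP μ d).prod μ).map Prod.fst := by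
      rw [Measure.map_fst_prod, measure_univ, one_smul]
    change ∀ᵐ J ∂(PP μ d), _ at this
    rw [h2] at this
    exact ae_of_ae_map measurable_fst.aemeasurable this
  have h3 : ∀ᵐ p ∂((PP μ d).prod μ), IsBoxGroundState n (w n) (Function.update p.1 (tb a g) p.2)
        (σ n (Function.update p.1 (tb a g) p.2)) ∧
      IsBoxGroundState n (w' n) (Function.update p.1 (tb a g) p.2)
        (τ n (Function.update p.1 (tb a g) p.2)) := by
    have := ((hσ.ground n).and (hτ.ground n))
    rw [← upd_law μ (tb a g)] at this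
    exact ae_of_ae_map (measurable_upd _).aemeasurable this
  filter_upwards [h1, h3] with p h1 h3
  exact ⟨fun x => h1.1.1 _, fun x => h1.2.1 _, fun x => h3.1.1 _, fun x => h3.2.1 _⟩

lemma bp_shS (a : Fin d → ℤ) (s : (Fin d → ℤ) → ℝ) (e : Bond d) : bp (shS a s) e = bp s (tb a e) := by
  unfold bp
  rw [other_tb]
  rfl

lemma same_arctan {a b c : ℝ} : Same (Real.arctan a) (Real.arctan b) (Real.arctan c) ↔
    (c < a ∧ c < b) ∨ (a < c ∧ b < c) := by
  unfold Same
  rw [Real.arctan_strictMono.lt_iff_lt, Real.arctan_strictMono.lt_iff_lt,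
    Real.arctan_strictMono.lt_iff_lt, Real.arctan_strictMono.lt_iff_lt]

lemma gd_inBox {R n : ℕ} {e : Bond d} (he : ∀ i, |e.1 i| + 1 ≤ R) {a : Fin d → ℤ}
    (ha : a ∈ Gd d R n) : InBox n (tb a e) := by
  rw [mem_Gd] at ha
  have h1 : ∀ i, (0 : ℤ) ≤ e.1 i + a i ∧ e.1 i + a i + 1 ≤ n := by
    intro i
    have h2 := ha i
    have h3 := abs_le.1 (show |e.1 i| ≤ (R : ℤ) - 1 by have := he i; omega)
    constructor <;> omega
  refine ⟨fun i => ?_, fun i => ?_⟩
  · change 0 ≤ e.1 i + a i ∧ e.1 i + a i ≤ n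
    have := h1 i
    omega
  · rw [other_tb]
    unfold other
    have h4 : (Pi.single e.2 (1 : ℤ) : Fin d → ℤ) i = 0 ∨
        (Pi.single e.2 (1 : ℤ) : Fin d → ℤ) i = 1 := by
      by_cases h : i = e.2
      · subst h; right; rw [Pi.single_eq_same]
      · left; rw [Pi.single_eq_of_ne h]
    simp only [Pi.add_apply]
    have := h1 i
    rcases h4 with h4 | h4 <;> rw [h4] <;> omega

/-- for the first family -/
lemma QQ_stable (hatom : ∀ x, μ {x} = 0) (hσ : IsFamily μ w σ) (hτ : IsFamily μ w' τ)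
    (g e : Bond d) {R : ℕ} (hg : ∀ i, |g.1 i| + 1 ≤ R) (he : ∀ i, |e.1 i| + 1 ≤ R) {n : ℕ}
    (hn : 1 ≤ n) :
    QQ μ w w' σ τ g n {z | Same (Real.arctan (z.1.1 g)) (Real.arctan z.1.2) z.2.2.1 ∧
      bp z.2.1.1.1 e ≠ bp z.2.1.2.1 e} ≤ ENNReal.ofReal (bf d R n) := by
  unfold QQ
  have hpm : ∀ a, Measurable (psi a g (σ n) (τ n) (ac w n (tb a g)) (ac w' n (tb a g))) := fun a =>
    measurable_psi a g (hσ.measurable n) (hτ.measurable n)
    (measurable_ac hσ.boundary n (tb a g)) (measurable_ac hτ.boundary n (tb a g))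
  have : ∀ a, IsProbabilityMeasure (((PP μ d).prod μ).map
      (psi a g (σ n) (τ n) (ac w n (tb a g)) (ac w' n (tb a g)))) := fun a =>
    Measure.isProbabilityMeasure_map (hpm a).aemeasurable
  refine avg_bad hn R fun a ha => ?_
  have hm : MeasurableSet {z : Z d | Same (Real.arctan (z.1.1 g)) (Real.arctan z.1.2) z.2.2.1 ∧
      bp z.2.1.1.1 e ≠ bp z.2.1.2.1 e} := by
    refine MeasurableSet.inter ?_ ?_
    · exact measurableSet_same (Real.measurable_arctan.comp (by fun_prop))
        (Real.measurable_arctan.comp (by fun_prop)) (by fun_prop)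
    · refine MeasurableSet.compl (s := {z : Z d | bp z.2.1.1.1 e = bp z.2.1.2.1 e}) ?_
      unfold bp
      exact measurableSet_eq_fun (by fun_prop) (by fun_prop)
  rw [Measure.map_apply (hpm a) hm]
  have hst := box_stable μ hatom (hσ.boundary n) (gd_inBox hg ha)
  have h1 : ∀ᵐ p ∂((PP μ d).prod μ), (∀ (x : ℝ) (s s' : (Fin d → ℤ) → ℝ),
      IsBoxGroundState n (w n) p.1 s → IsBoxGroundState n (w n) (Function.update p.1 (tb a g) x) s' →
      ((crit n (w n) (tb a g) p.1 < p.1 (tb a g) ∧ crit n (w n) (tb a g) p.1 < x) ∨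
        (p.1 (tb a g) < crit n (w n) (tb a g) p.1 ∧ x < crit n (w n) (tb a g) p.1)) →
      ∀ e, InBox n e → bp s e = bp s' e) ∧ IsBoxGroundState n (w n) p.1 (σ n p.1) := by
    have := hst.and (hσ.ground n)
    have h2 : (PP μ d) = ((PP μ d).prod μ).map Prod.fst := by
      rw [Measure.map_fst_prod, measure_univ, one_smul]
    change ∀ᵐ J ∂(PP μ d), _ at this
    rw [h2] at this
    exact ae_of_ae_map measurable_fst.aemeasurable this
  have h3 : ∀ᵐ p ∂((PP μ d).prod μ), IsBoxGroundState n (w n) (Function.update p.1 (tb a g) p.2)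
        (σ n (Function.update p.1 (tb a g) p.2)) := by
    have := hσ.ground n
    rw [← upd_law μ (tb a g)] at this
    exact ae_of_ae_map (measurable_upd _).aemeasurable this
  refine measure_mono_null ?_ (ae_iff.1 (h1.and h3))
  rintro p ⟨hp1, hp2⟩ ⟨⟨hc1, hc2⟩, hc3⟩
  apply hp2
  change bp (shS a (σ n p.1)) e = bp (shS a (σ n (Function.update p.1 (tb a g) p.2))) e
  rw [bp_shS, bp_shS]
  refine hc1 p.2 _ _ hc2 hc3 ?_ _ (gd_inBox he ha)
  have h5 : Same (Real.arctan (p.1 (tb a g))) (Real.arctan p.2)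
    (Real.arctan (crit n (w n) (tb a g) p.1)) := hp1
  exact same_arctan.1 h5

/-- exchange of the two families -/
def ex (z : Z d) : Z d :=
  (z.1, (((z.2.1.1.2, z.2.1.1.1), (z.2.1.2.2, z.2.1.2.1)), (z.2.2.2, z.2.2.1)))

lemma measurable_ex : Measurable (ex (d := d)) := by
  unfold ex
  fun_prop

lemma QQ_ex (hσ : IsFamily μ w σ) (hτ : IsFamily μ w' τ) (g : Bond d) (n : ℕ) :
    (QQ μ w w' σ τ g n).map ex = QQ μ w' w τ σ g n := by
  unfold QQ
  rw [avg_map measurable_ex]
  congr 1
  funext a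
  rw [Measure.map_map measurable_ex (measurable_psi a g (hσ.measurable n) (hτ.measurable n)
    (measurable_ac hσ.boundary _ _) (measurable_ac hτ.boundary _ _))]
  rfl

/-- for the second family -/
lemma QQ_stable' (hatom : ∀ x, μ {x} = 0) (hσ : IsFamily μ w σ) (hτ : IsFamily μ w' τ)
    (g e : Bond d) {R : ℕ} (hg : ∀ i, |g.1 i| + 1 ≤ R) (he : ∀ i, |e.1 i| + 1 ≤ R) {n : ℕ}
    (hn : 1 ≤ n) :
    QQ μ w w' σ τ g n {z | Same (Real.arctan (z.1.1 g)) (Real.arctan z.1.2) z.2.2.2 ∧
      bp z.2.1.1.2 e ≠ bp z.2.1.2.2 e} ≤ ENNReal.ofReal (bf d R n) := by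
  have h1 := QQ_stable μ hatom hτ hσ g e hg he hn
  rw [← QQ_ex μ hσ hτ g n] at h1
  rw [Measure.map_apply measurable_ex] at h1
  · exact h1
  · refine MeasurableSet.inter ?_ ?_
    · exact measurableSet_same (Real.measurable_arctan.comp (by fun_prop))
        (Real.measurable_arctan.comp (by fun_prop)) (by fun_prop)
    · refine MeasurableSet.compl (s := {z : Z d | bp z.2.1.1.1 e = bp z.2.1.2.1 e}) ?_
      unfold bp
      exact measurableSet_eq_fun (by fun_prop) (by fun_prop)

end laws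

end Pool.Agent.Helper38.EB
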