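import Pool.Agent.Helper38.EB.B4

/-!
# Tightness and limits
-/

set_option autoImplicit false
set_option linter.unusedSectionVars false
set_option synthInstance.maxSize 2000

open MeasureTheory Filter Topology ProbabilityTheory

open scoped ENNReal

namespace Pool.Agent.Helper38.EB

section general

variable {X Y : Type*} [TopologicalSpace X] [MeasurableSpace X] [TopologicalSpace Y]
  [MeasurableSpace Y]

lemma tight_prod [TopologicalSpace.IsCompletelyPseudoMetrizableSpace X]
    [SecondCountableTopology X] [BorelSpace X] (ρ : Measure X) [IsFiniteMeasure ρ]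
    {K : Set Y} (hK : IsCompact K) (S : Set (Measure (X × Y)))
    (h1 : ∀ ν ∈ S, ν.fst = ρ) (h2 : ∀ ν ∈ S, ν.snd Kᶜ = 0) : IsTightMeasureSet S := by
  refine IsTightMeasureSet.prodMk ?_ ?_
  · have h : Measure.fst '' S ⊆ {ρ} := by
      rintro _ ⟨ν, hν, rfl⟩
      exact h1 ν hν
    exact (isTightMeasureSet_singleton (μ := ρ)).subset h
  · rw [isTightMeasureSet_iff_exists_isCompact_measure_compl_le]
    intro ε hε
    refine ⟨K, hK, ?_⟩
    rintro _ ⟨ν, hν, rfl⟩
    rw [h2 ν hν]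
    exact zero_le

lemma compact_prod [TopologicalSpace.IsCompletelyPseudoMetrizableSpace X]
    [SecondCountableTopology X] [BorelSpace X] [T2Space (X × Y)] [BorelSpace (X × Y)]
    (ρ : Measure X) [IsFiniteMeasure ρ] {K : Set Y} (hK : IsCompact K)
    (ν : ℕ → ProbabilityMeasure (X × Y)) (h1 : ∀ k, (ν k : Measure (X × Y)).fst = ρ)
    (h2 : ∀ k, (ν k : Measure (X × Y)).snd Kᶜ = 0) : IsCompact (closure (Set.range ν)) := by
  refine isCompact_closure_of_isTightMeasureSet (tight_prod ρ hK _ ?_ ?_)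
  · rintro _ ⟨_, ⟨k, rfl⟩, rfl⟩
    exact h1 k
  · rintro _ ⟨_, ⟨k, rfl⟩, rfl⟩
    exact h2 k

lemma exists_ultra [TopologicalSpace.IsCompletelyPseudoMetrizableSpace X]
    [SecondCountableTopology X] [BorelSpace X] [T2Space (X × Y)] [BorelSpace (X × Y)]
    (ρ : Measure X) [IsFiniteMeasure ρ] {K : Set Y} (hK : IsCompact K)
    (ν : ℕ → ProbabilityMeasure (X × Y)) (h1 : ∀ k, (ν k : Measure (X × Y)).fst = ρ)
    (h2 : ∀ k, (ν k : Measure (X × Y)).snd Kᶜ = 0) :
    ∃ ν' : ProbabilityMeasure (X × Y), Tendsto ν (hyperfilter ℕ) (𝓝 ν') := by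
  have hc := compact_prod ρ hK ν h1 h2
  obtain ⟨x, -, hx⟩ := hc.ultrafilter_le_nhds ((hyperfilter ℕ).map ν) (by
    rw [Ultrafilter.coe_map, le_principal_iff, mem_map]
    exact Filter.univ_mem' fun k => subset_closure ⟨k, rfl⟩)
  exact ⟨x, by rwa [Ultrafilter.coe_map] at hx⟩

lemma exists_sub [TopologicalSpace.IsCompletelyPseudoMetrizableSpace X]
    [SecondCountableTopology X] [BorelSpace X] [T2Space (X × Y)] [BorelSpace (X × Y)]
    [TopologicalSpace.PseudoMetrizableSpace (ProbabilityMeasure (X × Y))]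
    (ρ : Measure X) [IsFiniteMeasure ρ] {K : Set Y} (hK : IsCompact K)
    (ν : ℕ → ProbabilityMeasure (X × Y)) (h1 : ∀ k, (ν k : Measure (X × Y)).fst = ρ)
    (h2 : ∀ k, (ν k : Measure (X × Y)).snd Kᶜ = 0) :
    ∃ ν' : ProbabilityMeasure (X × Y), ∃ φ : ℕ → ℕ, StrictMono φ ∧
      Tendsto (ν ∘ φ) atTop (𝓝 ν') := by
  have hc := compact_prod ρ hK ν h1 h2
  obtain ⟨x, -, φ, hφ, hx⟩ := hc.tendsto_subseq fun k => subset_closure ⟨k, rfl⟩
  exact ⟨x, φ, hφ, hx⟩

end general

variable {d : ℕ}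

instance instBorelZ : BorelSpace (Z d) := inferInstance

instance instBorelOm : BorelSpace (Om d) := inferInstance

/-- the compact set of configurations -/
def KC (d : ℕ) : Set ((Fin d → ℤ) → ℝ) := Set.pi Set.univ fun _ => Set.Icc (-1 : ℝ) 1

lemma isCompact_KC : IsCompact (KC d) := isCompact_univ_pi fun _ => isCompact_Icc

lemma mem_KC {s : (Fin d → ℤ) → ℝ} (h : ∀ x, s x = 1 ∨ s x = -1) : s ∈ KC d := by
  intro x _
  rcases h x with h | h <;> rw [h] <;> constructor <;> norm_num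

lemma measurableSet_KC : MeasurableSet (KC d) := isCompact_KC.isClosed.measurableSet

end Pool.Agent.Helper38.EB
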