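import Pool.Agent.Helper38.EB.B5

/-!
# Passage to the limit
-/

set_option autoImplicit false
set_option linter.unusedSectionVars false
set_option synthInstance.maxSize 2000

open MeasureTheory Filter Topology ProbabilityTheory

open scoped ENNReal

namespace Pool.Agent.Helper38.EB

/-- an open set whose measures go to zero is null for the limit -/
lemma open_null {X : Type*} [TopologicalSpace X] [MeasurableSpace X] [OpensMeasurableSpace X]
    [HasOuterApproxClosed X] {L : Filter ℕ} [L.NeBot] {ν : ℕ → ProbabilityMeasure X}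
    {ν' : ProbabilityMeasure X} (h : Tendsto ν L (𝓝 ν')) {U : Set X} (hU : IsOpen U) {b : ℕ → ℝ}
    (hb : Tendsto b L (𝓝 0)) (hle : ∀ k, (ν k : Measure X) U ≤ ENNReal.ofReal (b k)) :
    (ν' : Measure X) U = 0 := by
  have h1 := ProbabilityMeasure.le_liminf_measure_open_of_tendsto h hU
  have h2 : Tendsto (fun k => ENNReal.ofReal (b k)) L (𝓝 0) := by
    have := (ENNReal.continuous_ofReal.tendsto 0).comp hb
    rwa [ENNReal.ofReal_zero] at this
  have h3 : Tendsto (fun k => (ν k : Measure X) U) L (𝓝 0) :=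
    tendsto_of_tendsto_of_tendsto_of_le_of_le tendsto_const_nhds h2 (fun _ => zero_le) hle
  rw [h3.liminf_eq] at h1
  exact le_antisymm h1 zero_le

variable {d : ℕ} (μ : Measure ℝ) [IsProbabilityMeasure μ]
  {w w' : ℕ → (Bond d → ℝ) → ((Fin d → ℤ) → ℝ) → ℝ}
  {σ τ : ℕ → (Bond d → ℝ) → (Fin d → ℤ) → ℝ}

/-- the joint laws as probability measures -/
noncomputable def QP (hσ : IsFamily μ w σ) (hτ : IsFamily μ w' τ) (g : Bond d) (n : ℕ → ℕ)
    (hn : ∀ k, 1 ≤ n k) (k : ℕ) : ProbabilityMeasure (Z d) :=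
  ⟨QQ μ w w' σ τ g (n k), QQ_prob μ hσ hτ g (hn k)⟩

/-- the averaged laws as probability measures -/
noncomputable def MP (hσ : IsFamily μ w σ) (hτ : IsFamily μ w' τ) (n : ℕ → ℕ)
    (hn : ∀ k, 1 ≤ n k) (k : ℕ) : ProbabilityMeasure (Om d) :=
  ⟨MM μ σ τ (n k), MM_prob μ hσ hτ (hn k)⟩

lemma QQ_fst (hσ : IsFamily μ w σ) (hτ : IsFamily μ w' τ) (g : Bond d) {n : ℕ} (hn : 1 ≤ n) :
    (QQ μ w w' σ τ g n).fst = (PP μ d).prod μ := by
  unfold Measure.fst QQ
  rw [avg_map measurable_fst]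
  refine avg_const hn fun a _ => ?_
  rw [Measure.map_map measurable_fst (measurable_psi a g (hσ.measurable n) (hτ.measurable n)
    (measurable_ac hσ.boundary _ _) (measurable_ac hτ.boundary _ _))]
  have h := map_pair_pp μ (f := shJ a) (measurable_shJ a)
  rw [shJ_law] at h
  exact h

lemma MM_fst (hσ : IsFamily μ w σ) (hτ : IsFamily μ w' τ) {n : ℕ} (hn : 1 ≤ n) :
    (MM μ σ τ n).fst = PP μ d := by
  unfold Measure.fst MM
  rw [avg_map measurable_fst]
  refine avg_const hn fun a _ => ?_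
  rw [Measure.map_map measurable_fst (measurable_dat a (hσ.measurable n) (hτ.measurable n))]
  exact shJ_law μ a

/-- the compact set of the joint space -/
def KZ (d : ℕ) : Set (((((Fin d → ℤ) → ℝ) × ((Fin d → ℤ) → ℝ)) ×
  (((Fin d → ℤ) → ℝ) × ((Fin d → ℤ) → ℝ))) × (ℝ × ℝ)) :=
  ((KC d ×ˢ KC d) ×ˢ (KC d ×ˢ KC d)) ×ˢ (Set.Icc (-2) 2 ×ˢ Set.Icc (-2) 2)

lemma isCompact_KZ : IsCompact (KZ d) :=
  ((isCompact_KC.prod isCompact_KC).prod (isCompact_KC.prod isCompact_KC)).prod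
    (isCompact_Icc.prod isCompact_Icc)

lemma arctan_mem (x : ℝ) : Real.arctan x ∈ Set.Icc (-2 : ℝ) 2 := by
  have h1 := Real.arctan_lt_pi_div_two x
  have h2 := Real.neg_pi_div_two_lt_arctan x
  have h3 := Real.pi_le_four
  constructor <;> linarith

lemma QQ_snd (hσ : IsFamily μ w σ) (hτ : IsFamily μ w' τ) (g : Bond d) (n : ℕ) :
    (QQ μ w w' σ τ g n).snd (KZ d)ᶜ = 0 := by
  rw [Measure.snd_apply isCompact_KZ.isClosed.measurableSet.compl]
  have h1 : ∀ᵐ z ∂(QQ μ w w' σ τ g n), z.2.2.1 ∈ Set.Icc (-2 : ℝ) 2 ∧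
      z.2.2.2 ∈ Set.Icc (-2 : ℝ) 2 := by
    unfold QQ
    refine ae_avg fun a _ => ?_
    have hp := measurable_psi a g (hσ.measurable n) (hτ.measurable n)
      (measurable_ac hσ.boundary n (tb a g)) (measurable_ac hτ.boundary n (tb a g))
    have hm : MeasurableSet {z : Z d | z.2.2.1 ∈ Set.Icc (-2 : ℝ) 2 ∧
        z.2.2.2 ∈ Set.Icc (-2 : ℝ) 2} :=
      (measurableSet_Icc.preimage (f := fun z : Z d => z.2.2.1) (by fun_prop)).inter
        (measurableSet_Icc.preimage (f := fun z : Z d => z.2.2.2) (by fun_prop))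
    refine (ae_map_iff hp.aemeasurable hm).2 (Filter.Eventually.of_forall fun p => ?_)
    exact ⟨arctan_mem _, arctan_mem _⟩
  refine measure_mono_null ?_ (ae_iff.1 ((QQ_val μ hσ hτ g n).and h1))
  rintro z hz ⟨⟨v1, v2, v3, v4⟩, c1, c2⟩
  exact hz ⟨⟨⟨mem_KC v1, mem_KC v2⟩, ⟨mem_KC v3, mem_KC v4⟩⟩, ⟨c1, c2⟩⟩

lemma MM_val (hσ : IsFamily μ w σ) (hτ : IsFamily μ w' τ) (n : ℕ) :
    ∀ᵐ ω ∂(MM μ σ τ n), (∀ x, ω.2.1 x = 1 ∨ ω.2.1 x = -1) ∧
      (∀ x, ω.2.2 x = 1 ∨ ω.2.2 x = -1) := by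
  unfold MM
  refine ae_avg fun a _ => ?_
  have hset : ∀ {f : Om d → (Fin d → ℤ) → ℝ}, Measurable f →
      MeasurableSet {z | ∀ x, f z x = 1 ∨ f z x = -1} := by
    intro f hf
    have : {z | ∀ x, f z x = 1 ∨ f z x = -1} =
        ⋂ x, ({z | f z x = 1} ∪ {z | f z x = -1}) := by
      ext z
      rw [Set.mem_iInter]
      rfl
    rw [this]
    refine MeasurableSet.iInter fun x => MeasurableSet.union ?_ ?_
    · exact measurableSet_eq_fun ((measurable_pi_apply x).comp hf) measurable_const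
    · exact measurableSet_eq_fun ((measurable_pi_apply x).comp hf) measurable_const
  have hmeas : MeasurableSet {z : Om d | (∀ x, z.2.1 x = 1 ∨ z.2.1 x = -1) ∧
      (∀ x, z.2.2 x = 1 ∨ z.2.2 x = -1)} :=
    (hset (f := fun z => z.2.1) (by fun_prop)).inter (hset (f := fun z => z.2.2) (by fun_prop))
  refine (ae_map_iff (measurable_dat a (hσ.measurable n) (hτ.measurable n)).aemeasurable hmeas).2 ?_
  filter_upwards [hσ.ground n, hτ.ground n] with J h1 h2
  exact ⟨fun x => h1.1 _, fun x => h2.1 _⟩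

lemma MM_snd (hσ : IsFamily μ w σ) (hτ : IsFamily μ w' τ) (n : ℕ) :
    (MM μ σ τ n).snd (KC d ×ˢ KC d)ᶜ = 0 := by
  rw [Measure.snd_apply (isCompact_KC.prod isCompact_KC).isClosed.measurableSet.compl]
  refine measure_mono_null ?_ (ae_iff.1 (MM_val μ hσ hτ n))
  rintro z hz ⟨v1, v2⟩
  exact hz ⟨mem_KC v1, mem_KC v2⟩

/-- ultrafilter limits of the joint laws -/
lemma QP_ultra (hσ : IsFamily μ w σ) (hτ : IsFamily μ w' τ) (g : Bond d) (n : ℕ → ℕ)
    (hn : ∀ k, 1 ≤ n k) :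
    ∃ Q : ProbabilityMeasure (Z d), Tendsto (QP μ hσ hτ g n hn) (hyperfilter ℕ) (𝓝 Q) :=
  exists_ultra ((PP μ d).prod μ) isCompact_KZ _ (fun k => QQ_fst μ hσ hτ g (hn k))
    (fun k => QQ_snd μ hσ hτ g (n k))

/-- subsequential limits of the averaged laws -/
lemma MP_sub (hσ : IsFamily μ w σ) (hτ : IsFamily μ w' τ) (n : ℕ → ℕ)
    (hn : ∀ k, 1 ≤ n k) :
    ∃ M : ProbabilityMeasure (Om d), ∃ φ : ℕ → ℕ, StrictMono φ ∧
      Tendsto (MP μ hσ hτ n hn ∘ φ) atTop (𝓝 M) :=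
  exists_sub (PP μ d) (isCompact_KC.prod isCompact_KC) _ (fun k => MM_fst μ hσ hτ (hn k))
    (fun k => MM_snd μ hσ hτ (n k))

end Pool.Agent.Helper38.EB
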