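import Pool.Agent.Helper38.EB.B6

/-!
# Flexibility of the limit
-/

set_option autoImplicit false
set_option linter.unusedSectionVars false
set_option synthInstance.maxSize 2000

open MeasureTheory Filter Topology ProbabilityTheory

open scoped ENNReal

namespace Pool.Agent.Helper38.EB

lemma continuous_upd {ι : Type*} [DecidableEq ι] (g : ι) :
    Continuous fun p : (ι → ℝ) × ℝ => Function.update p.1 g p.2 :=
  continuous_fst.update g continuous_snd

lemma isOpen_same {X : Type*} [TopologicalSpace X] {a b u : X → ℝ} (ha : Continuous a)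
    (hb : Continuous b) (hu : Continuous u) : IsOpen {x | Same (a x) (b x) (u x)} :=
  ((isOpen_lt hu ha).inter (isOpen_lt hu hb)).union ((isOpen_lt ha hu).inter (isOpen_lt hb hu))

/-- limits of equal maps -/
lemma map_unique {X Y : Type*} [TopologicalSpace X] [MeasurableSpace X] [OpensMeasurableSpace X]
    [TopologicalSpace Y] [MeasurableSpace Y] [BorelSpace Y] [HasOuterApproxClosed Y]
    {L : Filter ℕ} [L.NeBot] {ν : ℕ → ProbabilityMeasure X} {ν' : ProbabilityMeasure X}
    (h : Tendsto ν L (𝓝 ν')) {f : X → Y} (hf : Continuous f) {ρ : ℕ → ProbabilityMeasure Y}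
    {ρ' : ProbabilityMeasure Y} (h' : Tendsto ρ L (𝓝 ρ'))
    (he : ∀ k, (ν k : Measure X).map f = (ρ k : Measure Y)) :
    (ν' : Measure X).map f = (ρ' : Measure Y) := by
  have h1 := ProbabilityMeasure.tendsto_map_of_tendsto_of_continuous ν ν' h hf
  have h2 : (fun i => (ν i).map hf.measurable.aemeasurable) = ρ := by
    funext k
    exact Subtype.ext (he k)
  rw [h2] at h1
  have h3 := tendsto_nhds_unique h1 h'
  exact congrArg Subtype.val h3

variable {d : ℕ} (μ : Measure ℝ) [IsProbabilityMeasure μ]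
  {w w' : ℕ → (Bond d → ℝ) → ((Fin d → ℤ) → ℝ) → ℝ}
  {σ τ : ℕ → (Bond d → ℝ) → (Fin d → ℤ) → ℝ}

lemma continuous_om : Continuous (om (d := d)) := by
  unfold om; fun_prop

lemma continuous_om' (g : Bond d) : Continuous (om' (d := d) g) := by
  unfold om'
  exact ((continuous_upd g).comp continuous_fst).prodMk (by fun_prop)

lemma continuous_oc : Continuous (oc (d := d)) := by
  unfold oc
  exact continuous_om.prodMk (by fun_prop)

lemma continuous_bp (e : Bond d) : Continuous fun s : (Fin d → ℤ) → ℝ => bp s e := by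
  unfold bp; fun_prop

lemma exists_R (g e : Bond d) : ∃ R : ℕ, (∀ i, |g.1 i| + 1 ≤ (R : ℤ)) ∧
    ∀ i, |e.1 i| + 1 ≤ (R : ℤ) := by
  obtain ⟨a, ha⟩ := exists_box g.1
  obtain ⟨b, hb⟩ := exists_box e.1
  refine ⟨a + b + 1, fun i => ?_, fun i => ?_⟩
  · have := ha i; push_cast; omega
  · have := hb i; push_cast; omega

/-- the limit of the averaged laws is flexible -/
theorem limit_flex (hatom : ∀ x, μ {x} = 0) (hσ : IsFamily μ w σ) (hτ : IsFamily μ w' τ)
    (n : ℕ → ℕ) (hn : ∀ k, 1 ≤ n k) (hlim : Tendsto n atTop atTop) (M : ProbabilityMeasure (Om d))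
    (hM : Tendsto (MP μ hσ hτ n hn) atTop (𝓝 M)) (g : Bond d) (N : Set (Om d))
    (hN : Msym (M : Measure (Om d)) N = 0) :
    ∀ᵐ ω ∂(Msym (M : Measure (Om d))), ∃ r : ℝ, 0 < r ∧
      ∀ᵐ x ∂μ, |x - ω.1 g| < r → upd g x ω ∉ N := by
  obtain ⟨Q, hQ⟩ := QP_ultra μ hσ hτ g n hn
  have hM' : Tendsto (MP μ hσ hτ n hn) (hyperfilter ℕ) (𝓝 M) := hM.mono_left Nat.hyperfilter_le_atTop
  have hbf : ∀ R : ℕ, Tendsto (fun k => bf d R (n k)) (hyperfilter ℕ) (𝓝 0) := fun R =>
    ((bf_tendsto d R).comp hlim).mono_left Nat.hyperfilter_le_atTop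
  refine flex_of_joint μ g (M : Measure (Om d)) (Q : Measure (Z d)) ?_ ?_ ?_ ?_ ?_ ?_ N hN
  · exact map_unique hQ continuous_om hM' fun k => QQ_om μ hσ hτ g (n k)
  · exact map_unique hQ (continuous_om' g) hM' fun k => QQ_om' μ hσ hτ g (n k)
  · -- values
    have hval : ∀ f : Z d → (Fin d → ℤ) → ℝ, Continuous f →
        (∀ k, ∀ᵐ z ∂(QQ μ w w' σ τ g (n k)), ∀ x, f z x = 1 ∨ f z x = -1) →
        ∀ᵐ z ∂(Q : Measure (Z d)), ∀ x, f z x = 1 ∨ f z x = -1 := by
      intro f hf h
      refine ae_all_iff.2 fun x => ?_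
      have hU : IsOpen {z : Z d | f z x ≠ 1 ∧ f z x ≠ -1} := by
        refine IsOpen.inter ?_ ?_
        · exact isOpen_ne_fun ((continuous_apply x).comp hf) continuous_const
        · exact isOpen_ne_fun ((continuous_apply x).comp hf) continuous_const
      have h0 := open_null (ν' := Q) hQ hU (b := fun _ => 0) tendsto_const_nhds (fun k => by
        rw [ENNReal.ofReal_zero]
        refine le_of_eq (measure_mono_null ?_ (ae_iff.1 (h k)))
        rintro z ⟨hz1, hz2⟩ hz
        rcases hz x with h | h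
        · exact hz1 h
        · exact hz2 h)
      rw [ae_iff]
      refine measure_mono_null ?_ h0
      intro z hz
      rw [Set.mem_ofPred_eq, not_or] at hz
      exact hz
    have hv := fun k => QQ_val μ hσ hτ g (n k)
    filter_upwards [hval (fun z => z.2.1.1.1) (by fun_prop) (fun k => (hv k).mono fun z h => h.1),
      hval (fun z => z.2.1.1.2) (by fun_prop) (fun k => (hv k).mono fun z h => h.2.1),
      hval (fun z => z.2.1.2.1) (by fun_prop) (fun k => (hv k).mono fun z h => h.2.2.1),
      hval (fun z => z.2.1.2.2) (by fun_prop) (fun k => (hv k).mono fun z h => h.2.2.2)]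
      with z a1 a2 a3 a4
    exact ⟨a1, a2, a3, a4⟩
  · -- independence
    have hc1 : Continuous (fun z : Z d => (oc z, z.1.2)) := continuous_oc.prodMk (by fun_prop)
    have e1 := ProbabilityMeasure.tendsto_map_of_tendsto_of_continuous _ Q hQ
      (continuous_oc (d := d))
    set μP : ProbabilityMeasure ℝ := ⟨μ, inferInstance⟩ with hμP
    have e2 : Tendsto (fun k => ((QP μ hσ hτ g n hn k).map
        (continuous_oc (d := d)).measurable.aemeasurable).prod μP) (hyperfilter ℕ)
        (𝓝 ((Q.map (continuous_oc (d := d)).measurable.aemeasurable).prod μP)) :=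
      (ProbabilityMeasure.continuous_prod.tendsto _).comp (e1.prodMk_nhds tendsto_const_nhds)
    exact map_unique hQ hc1 e2 fun k => QQ_ind μ hσ hτ g (n k)
  · -- critical values
    have hc1 : Continuous (fun z : Z d => (z.1.1 g, z.2.2)) := by fun_prop
    have hc2 : Continuous (fun z : Z d => z.2.2) := by fun_prop
    have e1 := ProbabilityMeasure.tendsto_map_of_tendsto_of_continuous _ Q hQ hc2
    set μP : ProbabilityMeasure ℝ := ⟨μ, inferInstance⟩ with hμP
    have e2 : Tendsto (fun k => μP.prod ((QP μ hσ hτ g n hn k).map hc2.measurable.aemeasurable))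
        (hyperfilter ℕ) (𝓝 (μP.prod (Q.map hc2.measurable.aemeasurable))) :=
      (ProbabilityMeasure.continuous_prod.tendsto _).comp (tendsto_const_nhds.prodMk_nhds e1)
    have e3 : (Q : Measure (Z d)).map (fun z : Z d => (z.1.1 g, z.2.2)) =
        μ.prod ((Q : Measure (Z d)).map fun z => z.2.2) :=
      map_unique hQ hc1 e2 fun k => QQ_crit μ hσ hτ g (n k)
    have e4 : ∀ f : ℝ × ℝ → ℝ, Measurable f → ∀ᵐ z ∂(Q : Measure (Z d)),
        Real.arctan (z.1.1 g) ≠ f z.2.2 := by
      intro f hf
      have hm : MeasurableSet {p : ℝ × (ℝ × ℝ) | Real.arctan p.1 = f p.2} :=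
        measurableSet_eq_fun (Real.measurable_arctan.comp measurable_fst) (hf.comp measurable_snd)
      have h5 : (μ.prod ((Q : Measure (Z d)).map fun z => z.2.2))
          {p : ℝ × (ℝ × ℝ) | Real.arctan p.1 = f p.2} = 0 := by
        rw [Measure.prod_apply_symm hm, lintegral_eq_zero_of_ae_eq_zero]
        refine Filter.Eventually.of_forall fun y => ?_
        have hsub : ((fun x : ℝ => (x, y)) ⁻¹' {p : ℝ × (ℝ × ℝ) | Real.arctan p.1 = f p.2}) ⊆
            {Real.tan (f y)} := by
          intro x hx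
          have hx' : Real.arctan x = f y := hx
          rw [Set.mem_singleton_iff, ← hx', Real.tan_arctan]
        exact measure_mono_null hsub (hatom _)
      rw [← e3, Measure.map_apply (by fun_prop) hm] at h5
      exact measure_eq_zero_iff_ae_notMem.1 h5
    filter_upwards [e4 Prod.fst measurable_fst, e4 Prod.snd measurable_snd] with z a1 a2
    exact ⟨a1, a2⟩
  · -- stability
    have hs1 : ∀ e : Bond d, ∀ᵐ z ∂(Q : Measure (Z d)),
        Same (Real.arctan (z.1.1 g)) (Real.arctan z.1.2) z.2.2.1 →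
          bp z.2.1.1.1 e = bp z.2.1.2.1 e := by
      intro e
      obtain ⟨R, hR1, hR2⟩ := exists_R g e
      have hU : IsOpen {z : Z d | Same (Real.arctan (z.1.1 g)) (Real.arctan z.1.2) z.2.2.1 ∧
          bp z.2.1.1.1 e ≠ bp z.2.1.2.1 e} := by
        refine IsOpen.inter ?_ ?_
        · exact isOpen_same (Real.continuous_arctan.comp (by fun_prop))
            (Real.continuous_arctan.comp (by fun_prop)) (by fun_prop)
        · exact isOpen_ne_fun ((continuous_bp e).comp (f := fun z : Z d => z.2.1.1.1)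
            (by fun_prop)) ((continuous_bp e).comp (f := fun z : Z d => z.2.1.2.1) (by fun_prop))
      have h0 := open_null (ν' := Q) hQ hU (hbf R) fun k =>
        QQ_stable μ hatom hσ hτ g e hR1 hR2 (hn k)
      rw [ae_iff]
      refine measure_mono_null ?_ h0
      intro z hz
      rw [Set.mem_ofPred_eq, Classical.not_imp] at hz
      exact hz
    have hs2 : ∀ e : Bond d, ∀ᵐ z ∂(Q : Measure (Z d)),
        Same (Real.arctan (z.1.1 g)) (Real.arctan z.1.2) z.2.2.2 →
          bp z.2.1.1.2 e = bp z.2.1.2.2 e := by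
      intro e
      obtain ⟨R, hR1, hR2⟩ := exists_R g e
      have hU : IsOpen {z : Z d | Same (Real.arctan (z.1.1 g)) (Real.arctan z.1.2) z.2.2.2 ∧
          bp z.2.1.1.2 e ≠ bp z.2.1.2.2 e} := by
        refine IsOpen.inter ?_ ?_
        · exact isOpen_same (Real.continuous_arctan.comp (by fun_prop))
            (Real.continuous_arctan.comp (by fun_prop)) (by fun_prop)
        · exact isOpen_ne_fun ((continuous_bp e).comp (f := fun z : Z d => z.2.1.1.2)
            (by fun_prop)) ((continuous_bp e).comp (f := fun z : Z d => z.2.1.2.2) (by fun_prop))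
      have h0 := open_null (ν' := Q) hQ hU (hbf R) fun k =>
        QQ_stable' μ hatom hσ hτ g e hR1 hR2 (hn k)
      rw [ae_iff]
      refine measure_mono_null ?_ h0
      intro z hz
      rw [Set.mem_ofPred_eq, Classical.not_imp] at hz
      exact hz
    filter_upwards [ae_all_iff.2 hs1, ae_all_iff.2 hs2] with z a1 a2
    exact ⟨fun h e => a1 e h, fun h e => a2 e h⟩

end Pool.Agent.Helper38.EB
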