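import Pool.Agent.Helper38.EB.B7

/-!
# The limit law: translation invariance and ground states
-/

set_option autoImplicit false
set_option linter.unusedSectionVars false
set_option synthInstance.maxSize 2000

open MeasureTheory Filter Topology ProbabilityTheory BoundedContinuousFunction

open scoped ENNReal

namespace Pool.Agent.Helper38.EB

variable {d : ℕ} (μ : Measure ℝ) [IsProbabilityMeasure μ]
  {w w' : ℕ → (Bond d → ℝ) → ((Fin d → ℤ) → ℝ) → ℝ}
  {σ τ : ℕ → (Bond d → ℝ) → (Fin d → ℤ) → ℝ}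

lemma sh_dat (b a : Fin d → ℤ) (s t : (Bond d → ℝ) → (Fin d → ℤ) → ℝ) (J : Bond d → ℝ) :
    sh b (dat a s t J) = dat (b + a) s t J := by
  unfold dat sh shJ shS
  simp only [add_assoc]

lemma continuous_sh (b : Fin d → ℤ) : Continuous (sh (d := d) b) := by
  unfold sh shJ shS
  fun_prop

lemma abs_integral_le {X : Type*} [MeasurableSpace X] (ν : Measure X) [IsProbabilityMeasure ν]
    (h : X → ℝ) {C : ℝ} (hC : ∀ x, |h x| ≤ C) : |∫ x, h x ∂ν| ≤ C := by
  have h1 := norm_integral_le_of_norm_le_const (μ := ν) (f := h) (C := C)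
    (Filter.Eventually.of_forall fun x => by rw [Real.norm_eq_abs]; exact hC x)
  rw [Real.norm_eq_abs] at h1
  simpa using h1

lemma MM_shift (hσ : IsFamily μ w σ) (hτ : IsFamily μ w' τ) (f : Om d →ᵇ ℝ) (b : Fin d → ℤ)
    {R : ℕ} (hR : ∀ i, |b i| ≤ (R : ℤ)) (n : ℕ) :
    |∫ ω, f (sh b ω) ∂(MM μ σ τ n) - ∫ ω, f ω ∂(MM μ σ τ n)| ≤ 2 * ‖f‖ * bf d R n := by
  classical
  set F : (Fin d → ℤ) → ℝ := fun a => ∫ J, f (dat a (σ n) (τ n) J) ∂(PP μ d) with hF
  have hdm : ∀ a, Measurable (dat a (σ n) (τ n)) := fun a =>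
    measurable_dat a (hσ.measurable n) (hτ.measurable n)
  have hpr : ∀ a, IsProbabilityMeasure ((PP μ d).map (dat a (σ n) (τ n))) := fun a =>
    Measure.isProbabilityMeasure_map (hdm a).aemeasurable
  have e1 : ∫ ω, f ω ∂(MM μ σ τ n) = (∑ a ∈ An d n, F a) / (n : ℝ) ^ d := by
    unfold MM
    rw [avg_integral fun a _ => f.integrable _]
    congr 1
    refine Finset.sum_congr rfl fun a _ => ?_
    rw [integral_map (hdm a).aemeasurable f.continuous.aestronglyMeasurable]
  have e2 : ∫ ω, f (sh b ω) ∂(MM μ σ τ n) = (∑ a ∈ An d n, F (b + a)) / (n : ℝ) ^ d := by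
    unfold MM
    rw [avg_integral (f := fun ω => f (sh b ω)) fun a _ =>
      (f.compContinuous ⟨sh b, continuous_sh b⟩).integrable _]
    congr 1
    refine Finset.sum_congr rfl fun a _ => ?_
    rw [integral_map (f := fun ω => f (sh b ω)) (hdm a).aemeasurable
      (f.continuous.comp (continuous_sh b)).aestronglyMeasurable]
    simp only [sh_dat]
    rfl
  have e3 : ∑ a ∈ An d n, F (b + a) = ∑ a ∈ (An d n).map (addLeftEmbedding b), F a := by
    rw [Finset.sum_map]
    rfl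
  rw [e1, e2, e3, ← sub_div, ← Finset.sum_sdiff_sub_sum_sdiff]
  have hFb : ∀ a, |F a| ≤ ‖f‖ := fun a =>
    abs_integral_le _ _ fun J => by
      have := f.norm_coe_le_norm (dat a (σ n) (τ n) J)
      rwa [Real.norm_eq_abs] at this
  have hin : ∀ {a : Fin d → ℤ}, a ∈ Gd d R n → (b + a ∈ An d n ∧ a - b ∈ An d n) := by
    intro a ha
    rw [mem_Gd] at ha
    unfold An
    rw [Fintype.mem_piFinset, Fintype.mem_piFinset]
    simp only [Finset.mem_Ico, Pi.add_apply, Pi.sub_apply]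
    refine ⟨fun i => ?_, fun i => ?_⟩
    · have h1 := ha i
      have h2 := abs_le.1 (hR i)
      constructor <;> omega
    · have h1 := ha i
      have h2 := abs_le.1 (hR i)
      constructor <;> omega
  have c1 : (((An d n).map (addLeftEmbedding b)) \ An d n).card ≤ (An d n \ Gd d R n).card := by
    rw [← Finset.card_map (addLeftEmbedding b) (s := An d n \ Gd d R n)]
    refine Finset.card_le_card fun x hx => ?_
    rw [Finset.mem_sdiff, Finset.mem_map] at hx
    obtain ⟨⟨a, ha, rfl⟩, hx2⟩ := hx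
    rw [Finset.mem_map]
    refine ⟨a, Finset.mem_sdiff.2 ⟨ha, fun hc => hx2 ?_⟩, rfl⟩
    exact (hin hc).1
  have c2 : (An d n \ ((An d n).map (addLeftEmbedding b))).card ≤ (An d n \ Gd d R n).card := by
    refine Finset.card_le_card fun x hx => ?_
    rw [Finset.mem_sdiff] at hx ⊢
    refine ⟨hx.1, fun hc => hx.2 ?_⟩
    rw [Finset.mem_map]
    refine ⟨x - b, (hin hc).2, ?_⟩
    simp
  have b1 : ∀ s : Finset (Fin d → ℤ), |∑ a ∈ s, F a| ≤ s.card * ‖f‖ := by
    intro s
    refine (Finset.abs_sum_le_sum_abs _ _).trans ((Finset.sum_le_sum fun a _ => hFb a).trans ?_)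
    rw [Finset.sum_const, nsmul_eq_mul]
  have hn0 : (0 : ℝ) ≤ (n : ℝ) ^ d := by positivity
  rw [abs_div, abs_of_nonneg hn0]
  unfold bf
  have h4 : |∑ x ∈ (An d n).map (addLeftEmbedding b) \ An d n, F x -
      ∑ x ∈ An d n \ (An d n).map (addLeftEmbedding b), F x| ≤
        2 * ‖f‖ * ((An d n \ Gd d R n).card : ℝ) := by
    refine (abs_sub _ _).trans ?_
    have t1 := b1 (((An d n).map (addLeftEmbedding b)) \ An d n)
    have t2 := b1 (An d n \ ((An d n).map (addLeftEmbedding b)))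
    have t3 : ((((An d n).map (addLeftEmbedding b)) \ An d n).card : ℝ) ≤
      (An d n \ Gd d R n).card := by exact_mod_cast c1
    have t4 : ((An d n \ ((An d n).map (addLeftEmbedding b))).card : ℝ) ≤
      (An d n \ Gd d R n).card := by exact_mod_cast c2
    have hf0 := norm_nonneg f
    nlinarith
  calc _ ≤ 2 * ‖f‖ * ((An d n \ Gd d R n).card : ℝ) / (n : ℝ) ^ d := by gcongr
    _ = _ := by ring

/-- the limit is translation invariant -/
theorem limit_inv (hσ : IsFamily μ w σ) (hτ : IsFamily μ w' τ)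
    (n : ℕ → ℕ) (hn : ∀ k, 1 ≤ n k) (hlim : Tendsto n atTop atTop) (M : ProbabilityMeasure (Om d))
    (hM : Tendsto (MP μ hσ hτ n hn) atTop (𝓝 M)) (b : Fin d → ℤ) :
    (M : Measure (Om d)).map (sh b) = (M : Measure (Om d)) := by
  have hpm : IsProbabilityMeasure ((M : Measure (Om d)).map (sh b)) :=
    Measure.isProbabilityMeasure_map (measurable_sh b).aemeasurable
  refine ext_of_forall_integral_eq_of_IsFiniteMeasure fun f => ?_
  rw [integral_map (measurable_sh b).aemeasurable f.continuous.aestronglyMeasurable]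
  have h1 := ProbabilityMeasure.tendsto_iff_forall_integral_tendsto.1 hM
  have h2 := h1 f
  have h3 := h1 (f.compContinuous ⟨sh b, continuous_sh b⟩)
  obtain ⟨R, hR⟩ := exists_box b
  have h4 : Tendsto (fun k => ∫ ω, f (sh b ω) ∂(MM μ σ τ (n k)) - ∫ ω, f ω ∂(MM μ σ τ (n k)))
      atTop (𝓝 0) := by
    have h5 : Tendsto (fun k => 2 * ‖f‖ * bf d R (n k)) atTop (𝓝 0) := by
      have := ((bf_tendsto d R).comp hlim).const_mul (2 * ‖f‖)
      rwa [mul_zero] at this
    exact squeeze_zero_norm (fun k => by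
      rw [Real.norm_eq_abs]
      exact MM_shift μ hσ hτ f b hR (n k)) h5
  have h6 := h3.sub h2
  have h7 := tendsto_nhds_unique h6 h4
  exact sub_eq_zero.1 h7

/-- the first marginal of the limit -/
theorem limit_fst (hσ : IsFamily μ w σ) (hτ : IsFamily μ w' τ)
    (n : ℕ → ℕ) (hn : ∀ k, 1 ≤ n k) (M : ProbabilityMeasure (Om d))
    (hM : Tendsto (MP μ hσ hτ n hn) atTop (𝓝 M)) :
    (M : Measure (Om d)).map Prod.fst = PP μ d := by
  set ρ : ProbabilityMeasure (Bond d → ℝ) := ⟨PP μ d, inferInstance⟩ with hρ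
  exact map_unique (ρ := fun _ => ρ) (ρ' := ρ) hM continuous_fst tendsto_const_nhds
    fun k => MM_fst μ hσ hτ (hn k)

/-- the values -/
theorem limit_val (hσ : IsFamily μ w σ) (hτ : IsFamily μ w' τ)
    (n : ℕ → ℕ) (hn : ∀ k, 1 ≤ n k) (M : ProbabilityMeasure (Om d))
    (hM : Tendsto (MP μ hσ hτ n hn) atTop (𝓝 M)) :
    ∀ᵐ ω ∂(M : Measure (Om d)), (∀ x, ω.2.1 x = 1 ∨ ω.2.1 x = -1) ∧
      (∀ x, ω.2.2 x = 1 ∨ ω.2.2 x = -1) := by
  have hval : ∀ f : Om d → (Fin d → ℤ) → ℝ, Continuous f →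
      (∀ k, ∀ᵐ z ∂(MM μ σ τ (n k)), ∀ x, f z x = 1 ∨ f z x = -1) →
      ∀ᵐ z ∂(M : Measure (Om d)), ∀ x, f z x = 1 ∨ f z x = -1 := by
    intro f hf h
    refine ae_all_iff.2 fun x => ?_
    have hU : IsOpen {z : Om d | f z x ≠ 1 ∧ f z x ≠ -1} := by
      refine IsOpen.inter ?_ ?_
      · exact isOpen_ne_fun ((continuous_apply x).comp hf) continuous_const
      · exact isOpen_ne_fun ((continuous_apply x).comp hf) continuous_const
    have h0 := open_null (ν' := M) hM hU (b := fun _ => 0) tendsto_const_nhds (fun k => by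
      rw [ENNReal.ofReal_zero]
      refine le_of_eq (measure_mono_null ?_ (ae_iff.1 (h k)))
      rintro z ⟨hz1, hz2⟩ hz
      rcases hz x with h | h
      · exact hz1 h
      · exact hz2 h)
    rw [ae_iff]
    refine measure_mono_null ?_ h0
    intro z hz
    rw [Set.mem_ofPred_eq, not_or] at hz
    exact hz
  filter_upwards [hval (fun z => z.2.1) (by fun_prop) (fun k =>
      (MM_val μ hσ hτ (n k)).mono fun z h => h.1),
    hval (fun z => z.2.2) (by fun_prop) (fun k => (MM_val μ hσ hτ (n k)).mono fun z h => h.2)]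
    with z a1 a2
  exact ⟨a1, a2⟩

lemma continuous_cost (S : Finset (Fin d → ℤ)) :
    Continuous fun ω : Om d => cost ω.1 ω.2.1 S := by
  simp only [cost_eq]
  unfold bp
  fun_prop

/-- energies of finite flips in finite volume -/
lemma MM_cost (hσ : IsFamily μ w σ) (hτ : IsFamily μ w' τ) {n : ℕ} (hn : 1 ≤ n)
    (S : Finset (Fin d → ℤ)) {R : ℕ} (hR : ∀ x ∈ S, ∀ i, |x i| + 1 ≤ (R : ℤ)) :
    MM μ σ τ n {ω | cost ω.1 ω.2.1 S < 0} ≤ ENNReal.ofReal (bf d R n) := by
  unfold MM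
  have hdm : ∀ a, Measurable (dat a (σ n) (τ n)) := fun a =>
    measurable_dat a (hσ.measurable n) (hτ.measurable n)
  have hpr : ∀ a, IsProbabilityMeasure ((PP μ d).map (dat a (σ n) (τ n))) := fun a =>
    Measure.isProbabilityMeasure_map (hdm a).aemeasurable
  refine avg_bad hn R fun a ha => ?_
  have hm : MeasurableSet {ω : Om d | cost ω.1 ω.2.1 S < 0} :=
    ((continuous_cost S).measurable measurableSet_Iio)
  rw [Measure.map_apply (hdm a) hm]
  refine measure_mono_null ?_ (ae_iff.1 (hσ.ground n))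
  intro J hJ hg
  have hJ' : cost (shJ a J) (shS a (σ n J)) S < 0 := hJ
  rw [cost_sh] at hJ'
  have := box_cost (hσ.boundary n) hg (S := tS a S) (fun x hx i => by
    rw [mem_tS'] at hx
    have h1 := hR _ hx i
    rw [mem_Gd] at ha
    have h2 := ha i
    rw [Pi.sub_apply] at h1
    have h3 := abs_le.1 (show |x i - a i| ≤ (R : ℤ) - 1 by omega)
    constructor <;> omega)
  linarith

lemma exists_RS (S : Finset (Fin d → ℤ)) : ∃ R : ℕ, ∀ x ∈ S, ∀ i, |x i| + 1 ≤ (R : ℤ) := by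
  choose f hf using fun x : Fin d → ℤ => exists_box x
  refine ⟨S.sup f + 1, fun x hx i => ?_⟩
  have h1 := Finset.le_sup (f := f) hx
  have h2 := hf x i
  push_cast
  have h3 : ((f x : ℕ) : ℤ) ≤ (S.sup f : ℕ) := by exact_mod_cast h1
  omega

/-- the first configuration is a ground state -/
theorem limit_gs (hd : 1 ≤ d) (hatom : ∀ x, μ {x} = 0) (hσ : IsFamily μ w σ)
    (hτ : IsFamily μ w' τ) (n : ℕ → ℕ) (hn : ∀ k, 1 ≤ n k) (hlim : Tendsto n atTop atTop)
    (M : ProbabilityMeasure (Om d)) (hM : Tendsto (MP μ hσ hτ n hn) atTop (𝓝 M)) :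
    ∀ᵐ ω ∂(M : Measure (Om d)), IsGroundState ω.1 ω.2.1 := by
  have h1 : ∀ᵐ ω ∂(M : Measure (Om d)), ∀ S : Finset (Fin d → ℤ), 0 ≤ cost ω.1 ω.2.1 S := by
    refine ae_all_iff.2 fun S => ?_
    obtain ⟨R, hR⟩ := exists_RS S
    have hU : IsOpen {ω : Om d | cost ω.1 ω.2.1 S < 0} :=
      isOpen_lt (continuous_cost S) continuous_const
    have h0 := open_null (ν' := M) hM hU ((bf_tendsto d R).comp hlim) fun k =>
      MM_cost μ hσ hτ (hn k) S hR
    rw [ae_iff]
    refine measure_mono_null ?_ h0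
    intro ω hω
    exact not_le.1 hω
  have h2 : ∀ᵐ ω ∂(M : Measure (Om d)), ∀ (b : (Fin d → ℤ) → Bool)
      (S : Finset (Fin d → ℤ)), S.Nonempty → cost ω.1 (spin b) S ≠ 0 := by
    have := no_ties hd μ hatom
    change ∀ᵐ J ∂(PP μ d), _ at this
    rw [← limit_fst μ hσ hτ n hn M hM] at this
    exact ae_of_ae_map measurable_fst.aemeasurable this
  filter_upwards [h1, h2, limit_val μ hσ hτ n hn M hM] with ω a1 a2 a3
  refine gs_iff.2 ⟨a3.1, fun S hS => lt_of_le_of_ne (a1 S) ?_⟩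
  obtain ⟨b, hb⟩ := exists_spin a3.1
  rw [← hb]
  exact (a2 b S hS).symm

end Pool.Agent.Helper38.EB
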