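import Pool.Agent.Helper38.EB.B8

/-!
# Infinite barriers for the limit laws
-/

set_option autoImplicit false
set_option linter.unusedSectionVars false
set_option synthInstance.maxSize 2000

open MeasureTheory Filter Topology ProbabilityTheory BoundedContinuousFunction

open scoped ENNReal

namespace Pool.Agent.Helper38.EB

variable {d : ℕ}

lemma fl_self (q : Bool × Bool) (ω : Om d) : fl q (fl q ω) = ω := by
  rw [fl_fl]
  simp only [Bool.xor_self]
  unfold fl gf
  simp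

lemma ae_Msym' {M : Measure (Om d)} {p : Om d → Prop} (h : ∀ᵐ ω ∂M, ∀ q, p (fl q ω)) :
    ∀ᵐ ω ∂(Msym M), p ω := by
  obtain ⟨t, ht1, ht2, ht3⟩ := exists_measurable_superset_of_null (ae_iff.1 h)
  have hsub : {ω | ¬ p ω} ⊆ ⋂ q : Bool × Bool, fl q ⁻¹' t := by
    intro ω hω
    rw [Set.mem_iInter]
    intro q
    apply ht1
    intro hc
    have := hc q
    rw [fl_self] at this
    exact hω this
  refine measure_mono_null hsub ?_
  rw [Msym_zero (MeasurableSet.iInter fun q => measurable_fl q ht2)]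
  intro q
  refine measure_mono_null ?_ ht3
  intro ω hω
  have h1 := Set.mem_iInter.1 hω q
  rwa [Set.mem_preimage, fl_self] at h1

lemma Msym_mp {M : Measure (Om d)} (hM : ∀ a, M.map (sh a) = M) (a : Fin d → ℤ) :
    MeasurePreserving (sh a) (Msym M) (Msym M) := by
  refine ⟨measurable_sh a, ?_⟩
  unfold Msym
  rw [Measure.map_finset_sum (measurable_sh a).aemeasurable]
  refine Finset.sum_congr rfl fun p _ => ?_
  rw [Measure.map_map (measurable_sh a) (measurable_fl p)]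
  have h : sh a ∘ fl p = fl p ∘ sh (d := d) a := by
    funext ω
    exact sh_fl p a ω
  rw [h, ← Measure.map_map (measurable_fl p) (measurable_sh a), hM]

lemma gs_neg {J : Bond d → ℝ} {σ : (Fin d → ℤ) → ℝ} (h : IsGroundState J σ) :
    IsGroundState J (-σ) := by
  rw [gs_iff] at h ⊢
  refine ⟨fun x => ?_, fun S hS => ?_⟩
  · rw [Pi.neg_apply]
    rcases h.1 x with h | h <;> rw [h] <;> norm_num
  · have h2 := h.2 S hS
    rw [cost_eq] at h2 ⊢
    have h3 : ∀ e, bp (-σ) e = bp σ e := fun e => by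
      unfold bp
      rw [Pi.neg_apply, Pi.neg_apply]
      ring
    simpa only [h3] using h2

lemma gs_gf (b : Bool) {J : Bond d → ℝ} {σ : (Fin d → ℤ) → ℝ} (h : IsGroundState J σ) :
    IsGroundState J (gf b σ) := by
  unfold gf
  split_ifs
  · exact gs_neg h
  · exact h

lemma val_gf (b : Bool) {σ : (Fin d → ℤ) → ℝ} (h : ∀ x, σ x = 1 ∨ σ x = -1) :
    ∀ x, gf b σ x = 1 ∨ gf b σ x = -1 := by
  intro x
  unfold gf
  split_ifs
  · rw [Pi.neg_apply]
    rcases h x with h | h <;> rw [h] <;> norm_num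
  · exact h x

variable (μ : Measure ℝ) [IsProbabilityMeasure μ]
  {w w' : ℕ → (Bond d → ℝ) → ((Fin d → ℤ) → ℝ) → ℝ}
  {σ τ : ℕ → (Bond d → ℝ) → (Fin d → ℤ) → ℝ}

lemma supp_PP (g : Bond d) :
    ∀ᵐ J ∂(PP μ d), ∀ r : ℝ, 0 < r → μ {x | |x - J g| < r} ≠ 0 := by
  have h1 : ∀ᵐ y ∂μ, ∀ r : ℝ, 0 < r → μ {x | |x - y| < r} ≠ 0 := by
    filter_upwards [Measure.support_mem_ae (μ := μ)] with y hy r hr
    have h2 : {x : ℝ | |x - y| < r} ∈ 𝓝 y := by
      have : {x : ℝ | |x - y| < r} = Metric.ball y r := by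
        ext x; rw [Metric.mem_ball, Real.dist_eq]; rfl
      rw [this]
      exact Metric.ball_mem_nhds y hr
    exact ((Measure.mem_support_iff_forall _).1 hy _ h2).ne'
  obtain ⟨t, ht1, ht2, ht3⟩ := exists_measurable_superset_of_null (ae_iff.1 h1)
  have h3 := null_of_sections μ (g := g) (Q := {J : Bond d → ℝ | J g ∈ t})
    (ht2.preimage (measurable_pi_apply g)) (fun J => by
      refine measure_mono_null ?_ ht3
      intro x hx
      have hx' : Function.update J g x g ∈ t := hx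
      rwa [Function.update_self] at hx')
  filter_upwards [measure_eq_zero_iff_ae_notMem.1 h3] with J hJ
  by_contra hc
  exact hJ (ht1 hc)

/-- exchange of the two configurations -/
def sw (ω : Om d) : Om d := (ω.1, (ω.2.2, ω.2.1))

lemma continuous_sw : Continuous (sw (d := d)) := by
  unfold sw; fun_prop

lemma MM_sw (hσ : IsFamily μ w σ) (hτ : IsFamily μ w' τ) (n : ℕ) :
    (MM μ σ τ n).map sw = MM μ τ σ n := by
  unfold MM
  rw [avg_map continuous_sw.measurable]
  congr 1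
  funext a
  rw [Measure.map_map continuous_sw.measurable
    (measurable_dat a (hσ.measurable n) (hτ.measurable n))]
  rfl

lemma limit_sw (hσ : IsFamily μ w σ) (hτ : IsFamily μ w' τ) (n : ℕ → ℕ) (hn : ∀ k, 1 ≤ n k)
    (M : ProbabilityMeasure (Om d)) (hM : Tendsto (MP μ hσ hτ n hn) atTop (𝓝 M)) :
    Tendsto (MP μ hτ hσ n hn) atTop (𝓝 (M.map continuous_sw.measurable.aemeasurable)) := by
  have h1 := ProbabilityMeasure.tendsto_map_of_tendsto_of_continuous _ M hM continuous_sw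
  have h2 : (fun k => (MP μ hσ hτ n hn k).map (continuous_sw (d := d)).measurable.aemeasurable) =
      MP μ hτ hσ n hn := by
    funext k
    exact Subtype.ext (MM_sw μ hσ hτ (n k))
  rwa [h2] at h1

/-- the barrier in one direction -/
theorem limit_one (hd : 1 ≤ d) (hatom : ∀ x, μ {x} = 0) (hσ : IsFamily μ w σ)
    (hτ : IsFamily μ w' τ) (n : ℕ → ℕ) (hn : ∀ k, 1 ≤ n k) (hlim : Tendsto n atTop atTop)
    (M : ProbabilityMeasure (Om d)) (hM : Tendsto (MP μ hσ hτ n hn) atTop (𝓝 M)) :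
    ∀ᵐ ω ∂(M : Measure (Om d)), ω.2.2 = ω.2.1 ∨ ω.2.2 = -ω.2.1 ∨
      InfiniteBarrier ω.1 ω.2.1 ω.2.2 := by
  have hgs := limit_gs μ hd hatom hσ hτ n hn hlim M hM
  have hval := limit_val μ hσ hτ n hn M hM
  refine of_ae_Msym (law_barrier μ hatom (Msym (M : Measure (Om d)))
    (Msym_mp fun a => limit_inv μ hσ hτ n hn hlim M hM a) ?_ ?_
    (limit_flex μ hatom hσ hτ n hn hlim M hM))
  · intro g
    refine ae_Msym' ?_
    have h1 := supp_PP μ g
    rw [← limit_fst μ hσ hτ n hn M hM] at h1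
    filter_upwards [ae_of_ae_map measurable_fst.aemeasurable h1] with ω hω q
    exact hω
  · refine ae_Msym' ?_
    filter_upwards [hgs, hval] with ω h1 h2 q
    exact ⟨gs_gf _ h1, val_gf _ h2.2⟩

/-- **Infinite barriers for pairs drawn from a limit law.** -/
theorem limit_all (hd : 1 ≤ d) (hatom : ∀ x, μ {x} = 0) (hσ : IsFamily μ w σ)
    (hτ : IsFamily μ w' τ) (n : ℕ → ℕ) (hn : ∀ k, 1 ≤ n k) (hlim : Tendsto n atTop atTop)
    (M : ProbabilityMeasure (Om d)) (hM : Tendsto (MP μ hσ hτ n hn) atTop (𝓝 M)) :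
    ∀ᵐ ω ∂(M : Measure (Om d)), IsGroundState ω.1 ω.2.1 ∧ IsGroundState ω.1 ω.2.2 ∧
      (ω.2.2 = ω.2.1 ∨ ω.2.2 = -ω.2.1 ∨
        (InfiniteBarrier ω.1 ω.2.1 ω.2.2 ∧ InfiniteBarrier ω.1 ω.2.2 ω.2.1)) := by
  have hM' := limit_sw μ hσ hτ n hn M hM
  have h1 := limit_gs μ hd hatom hσ hτ n hn hlim M hM
  have h2 := limit_gs μ hd hatom hτ hσ n hn hlim _ hM'
  have h3 := limit_one μ hd hatom hσ hτ n hn hlim M hM
  have h4 := limit_one μ hd hatom hτ hσ n hn hlim _ hM'
  have h5 : ∀ᵐ ω ∂((M : Measure (Om d)).map sw), IsGroundState ω.1 ω.2.1 := h2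
  have h6 : ∀ᵐ ω ∂((M : Measure (Om d)).map sw), ω.2.2 = ω.2.1 ∨ ω.2.2 = -ω.2.1 ∨
      InfiniteBarrier ω.1 ω.2.1 ω.2.2 := h4
  filter_upwards [h1, h3, ae_of_ae_map continuous_sw.measurable.aemeasurable h5,
    ae_of_ae_map continuous_sw.measurable.aemeasurable h6] with ω a1 a3 a5 a6
  refine ⟨a1, a5, ?_⟩
  rcases a3 with h | h | h
  · exact Or.inl h
  · exact Or.inr (Or.inl h)
  rcases a6 with h' | h' | h'
  · exact Or.inl h'.symm
  · refine Or.inr (Or.inl ?_)
    change ω.2.1 = -ω.2.2 at h'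
    rw [h', neg_neg]
  · exact Or.inr (Or.inr ⟨h, h'⟩)

end Pool.Agent.Helper38.EB
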